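import Pool.Agent.H98.W.Bs
import Pool.Agent.H98.Q.An

/-!
# The leading coefficient of the L-series of the twist
-/

set_option autoImplicit false
set_option linter.unusedSectionVars false
set_option linter.unusedVariables false

open Complex NumberField IsDedekindDomain Filter Topology
open scoped PeriodPair nonZeroDivisors

namespace Pool.Agent.H98.W

open Pool.Agent.K7.H56
open Pool.Agent.K7.H56.P
open Pool.Agent.R430
open Pool.Agent.Y696 Pool.Agent.W192.HK Pool.Agent.TH936.CM H667R3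
open Pool.Agent.TH936.PU
open Pool.Agent.Y688 (NI HL euler v_sub_one v_root v_RR dn dn_surj)
open Pool.Agent.K7.H70.AS
open Pool.Agent.K7.H70.SM
open Pool.Agent.K7.H56.M
open Pool.Agent.W189.NF (aV eV)
open Pool.Agent.K7.H70.SE (GoodG hbd good3)
open Pool.Agent.K7.H73.L3 (gz3 ngs3 base_om3 fr3)
open Pool.Agent.K7.H70.TW (Sq Ed ep loc hbd_mul sg_apply LSeries_change exists_sq)
open Pool.Agent.H98.B
open Pool.Agent.H98.Q

/-- the continuation of the L-series, of order `r`, with the leading coefficient `l` -/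
def Ldc {k : Type} [Field k] [NumberField k] (W : WeierstrassCurve k) (r : ℕ) (l : ℂ) : Prop :=
  ∃ (U : Set ℂ) (Φ : ℂ → ℂ), IsOpen U ∧ IsConnected U ∧ {s : ℂ | (3 / 2 : ℝ) < s.re} ⊆ U ∧
    (1 : ℂ) ∈ U ∧ AnalyticOnNhd ℂ Φ U ∧ (∀ s : ℂ, (3 / 2 : ℝ) < s.re → Φ s = W.LSeries s) ∧
    l ≠ 0 ∧ Tendsto (fun s => Φ s / (s - 1) ^ r) (𝓝[≠] 1) (𝓝 l)

theorem ldc_of {k : Type} [Field k] [NumberField k] {W : WeierstrassCurve k} {Φ : ℂ → ℂ}
    (hm : MeromorphicOn Φ Set.univ)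
    (hs : ∀ s : ℂ, 3 / 2 < s.re → LSeriesSummable ((fun n : ℤ => (n : ℂ)) ∘ W.LFunction) s ∧
      Φ s = W.LSeries s) {r : ℕ} {l : ℂ} (ho : LC Φ r l) : Ldc W r l := by
  refine ⟨{z | AnalyticAt ℂ Φ z}, Φ, isOpen_analyticAt ℂ Φ, ?_, ?_, ho.an, fun z hz => hz,
    fun s hs' => (hs s hs').2, ho.1, ho.tendsto⟩
  · have hm' : Meromorphic Φ := fun z => hm z (Set.mem_univ z)
    have h5 : IsConnected ({z : ℂ | AnalyticAt ℂ Φ z}ᶜ)ᶜ :=
      Set.Countable.isConnected_compl_of_one_lt_rank (by simp) hm'.countable_compl_analyticAt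
    rwa [compl_compl] at h5
  · intro s hs1
    have hs' : (3 / 2 : ℝ) < s.re := hs1
    have hab : LSeries.abscissaOfAbsConv ((fun n : ℤ => (n : ℂ)) ∘ W.LFunction) ≤
        ((3 / 2 : ℝ) : EReal) :=
      LSeries.abscissaOfAbsConv_le_of_forall_lt_LSeriesSummable fun y hy => (hs y (by
        rw [Complex.ofReal_re]; exact hy)).1
    have h5 := LSeries_analyticOnNhd ((fun n : ℤ => (n : ℂ)) ∘ W.LFunction) s (by
      refine lt_of_le_of_lt hab ?_
      exact_mod_cast hs')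
    refine h5.congr ?_
    have : {z : ℂ | (3 / 2 : ℝ) < z.re} ∈ nhds s :=
      (isOpen_lt continuous_const Complex.continuous_re).mem_nhds hs'
    filter_upwards [this] with z hz
    exact ((hs z hz).2).symm

section tw
variable {k F : Type} [Field k] [NumberField k] [Field F] [NumberField F] [Algebra k F]
  [IsGalois k F] {δ : k} {θ : F} {ι : Pool.Agent.Y688.RR →+* 𝓞 k}

/-- **the leading coefficient of the L-series of the twist by `δ` from the function of `k(√δ)`** -/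
theorem an_tw_lc (h : Sq δ θ) (hK : GoodG k) (hNG : NG k) (h3 : Add3 k) (hU : Unr2 F)
    (h2 : Module.finrank k F = 2) {d : ℕ} (hd : Module.finrank ℚ k = 2 * d) {f fF : ℂ → ℂ}
    (hf : VV ι (X0 1) f) (hf1 : f 1 ≠ 0) (hF : VV ((algebraMap (𝓞 k) (𝓞 F)).comp ι) (X0 1) fF)
    {m : ℕ} {c : ℂ} (hm : LC fF m (f 1 * c)) :
    Ldc (Ed δ) (2 * m) (c * (starRingEnd ℂ) c) := by
  obtain ⟨X, hX, hX2⟩ := exists_sgn (N := k) (K := F) h2
  obtain ⟨a, ha⟩ := exists_rt ι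
  have hUk : Unr2 k := unr2_down (F := k) (K := F) hU
  obtain ⟨n0, hn0, hnr0⟩ := exists_odd (F := k) (K := F) hU
  set n : ℕ := 3 * n0 with hndef
  have hn : Odd n := Odd.mul (by decide) hn0
  have h3n : 3 ∣ n := ⟨n0, rfl⟩
  have hnr : ∀ w : HeightOneSpectrum (𝓞 F), Rm k w → (n : 𝓞 k) ∈ (dn k w).asIdeal := by
    intro w hw
    rw [hndef, Nat.cast_mul]
    exact Ideal.mul_mem_left _ _ (hnr0 w hw)
  have hU' : ∀ v : HeightOneSpectrum (𝓞 k), (2 : 𝓞 k) ∈ v.asIdeal →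
      v.valuation k 2 = WithZero.exp (-1 : ℤ) := fun v hv => hUk v (by exact_mod_cast hv)
  have iX : IH n (fun I : Ideal (𝓞 k) => X0 3 I * XR X I) := XR3_ih ha hd hU' hX2 hn h3n hnr
  obtain ⟨g, -, hg, -, -⟩ := core_gen2 k ι d hd hUk n _ _ iX iX hn
  have h2P : ∀ w : HeightOneSpectrum (𝓞 F), Rm k w → (2 : 𝓞 k) ∉ (dn k w).asIdeal := by
    intro w hw h2w
    obtain ⟨j, hj⟩ := hn
    apply (dn k w).isPrime.ne_top
    rw [Ideal.eq_top_iff_one]
    have : (1 : 𝓞 k) = (n : 𝓞 k) - 2 * (j : 𝓞 k) := by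
      rw [hj]
      push_cast
      ring
    rw [this]
    exact Ideal.sub_mem _ (hnr w hw) (Ideal.mul_mem_right _ _ h2w)
  have e1 := L_prod_ev h2 hX h2P hF hf iX hg
  have l1 := hm.div_left hf.an hf1 e1
  rw [mul_div_cancel_left₀ _ hf1] at l1
  obtain ⟨hb, hs⟩ := tw_big h hK hNG h3 hU hX iX hg
  exact ldc_of (Lam_mero hg) hs l1.lam

end tw

section fam
variable {d : ℤ} {m0 : ℕ} {c : ℂ} {M0 L : Type} [Field M0] [NumberField M0]
  [IsCyclotomicExtension {3} ℚ M0] [Field L]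
  [NumberField L] [Algebra M0 L] [IsGalois M0 L]

/-- **the leading coefficients, for all the fields of the family** -/
theorem lead_all (hd : Dd d) (hm0 : 1 ≤ m0) (hB : BaseLead d m0 c)
    (hr : ∃ r : ℕ, Module.finrank M0 L = 2 ^ r) (hG : Gd M0 L)
    {k : Type} [Field k] [NumberField k] [Algebra k L]
    {a : k} (ha : a ^ 2 = -3) (hk5 : Pd d k) :
    ∃ (n : ℕ) (ck : ℂ), Module.finrank ℚ k = 2 ^ (n + 1) ∧
      Ldc (Ed (d : k)) (2 * m0) (ck * (starRingEnd ℂ) ck) ∧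
      ∀ (L : PeriodPair) (Ω : ℂ), Cur L Ω → ∀ (Γ : Type)
          [LinearOrderedCommGroupWithZero Γ] (v : Valuation ℂ Γ), v 2 < 1 →
          v ck = v c * v 2 ^ n * v Ω ^ (2 ^ n - 1) := by
  have hU : Unr2 L := by
    obtain ⟨r, hr'⟩ := hr
    exact ((gz3 M0).step hr' hG).two
  have hgood : GoodG k := good3 (M := M0) (K := L) hr hG
  have hNG : NG k := ngs3 (F := M0) (K := L) hr
  have h3 : Add3 k := add3_of_ng hNG
  obtain ⟨ι'⟩ := exists_iota (N := k) ⟨(a - 1) / 2, by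
    field_simp
    linear_combination ha⟩
  set ι : Pool.Agent.Y688.RR →+* 𝓞 k :=
    ι'.comp (RingEquiv.subringCongr RR_eis : Pool.Agent.Y688.RR →+* eis) with hι
  obtain ⟨r, hr'⟩ := hr
  obtain ⟨dk, hdk, hBk⟩ := base_om3 (F := M0) (K := L) hr' hU hG ha ι
  have hUk : Unr2 k := unr2_down (F := k) (K := L) hU
  obtain ⟨f, hf⟩ := exists_VV ι hdk hUk
  have hf1 := ne_of_base hBk hf
  obtain ⟨D, _, _, _, h2D, ρ, hρ⟩ := exists_qd hd k hk5
  have hgD : IsGalois k D := gal2' h2D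
  have hUD : Unr2 D := unr2_d hd hk5 h2D hρ hUk
  obtain ⟨fD, hfD⟩ := exists_VV ((algebraMap (𝓞 k) (𝓞 D)).comp ι) (d := 2 * dk) (by
    rw [← Module.finrank_mul_finrank ℚ k D, hdk, h2D]
    ring) hUD
  obtain ⟨f', hf'⟩ := exists_alg (F0 := M0) (K := L) (M := k) ha
  let _ : Algebra M0 k := f'.toAlgebra
  let φ : k →ₐ[M0] L :=
    { (algebraMap k L) with
      commutes' := fun x => by
        show algebraMap k L (f' x) = algebraMap M0 L x
        rw [← hf']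
        rfl }
  have hst : IsScalarTower M0 k L := IsScalarTower.of_algebraMap_eq fun x => (φ.commutes x).symm
  have hdv : Module.finrank M0 k ∣ 2 ^ r := by
    rw [← hr', ← Module.finrank_mul_finrank M0 k L]
    exact Dvd.intro _ rfl
  obtain ⟨n, -, hn⟩ := (Nat.dvd_prime_pow Nat.prime_two).1 hdv
  obtain ⟨i, hi⟩ := iota_desc' (M := M0) (K := k) (gz3 M0).om ι
  obtain ⟨ck, hck, hckv⟩ := tow_lc hd hm0 hB i hr' hU hG n k φ hn hk5 D h2D ⟨ρ, hρ⟩ fD f
    (by rw [hi]; exact hfD) (by rw [hi]; exact hf)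
  refine ⟨n, ck, ?_, ?_, hckv⟩
  · have e1 : Module.finrank ℚ M0 = 2 * 1 := fr3 M0
    rw [← Module.finrank_mul_finrank ℚ M0 k, e1, hn]
    ring
  · have hSq : Sq (d : k) ρ := by
      refine ⟨d_neF hd, ?_, ?_⟩
      · rw [hρ, map_intCast]
      · intro σ hσ
        exact d_one hd hk5 h2D hρ hσ
    exact an_tw_lc hSq hgood hNG h3 hUD h2D hdk hf hf1 hfD hck

end fam

end Pool.Agent.H98.W
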