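import Pool.Agent.H98.W.Tow
import Pool.Agent.H98.V.Mn

/-!
# The leading coefficient over the base field
-/

set_option autoImplicit false
set_option linter.unusedSectionVars false
set_option linter.unusedVariables false

open Complex NumberField IsDedekindDomain Filter Topology
open scoped PeriodPair nonZeroDivisors

namespace Pool.Agent.H98.W

open Pool.Agent.K7.H56
open Pool.Agent.K7.H56.P
open Pool.Agent.R430
open Pool.Agent.Y696 Pool.Agent.W192.HK Pool.Agent.TH936.CM H667R3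
open Pool.Agent.TH936.PU
open Pool.Agent.TH936.AC Pool.Agent.TH936.AD
open Pool.Agent.Y688 (NI HL euler v_sub_one v_root v_RR dn dn_surj)
open Pool.Agent.K7.H70.AS
open Pool.Agent.K7.H70.SM
open Pool.Agent.K7.H56.M
open Pool.Agent.K7.H73.NM (eI rN_map j_surj)
open Pool.Agent.K7.H73.L3 (gz3 base3 fr3)
open Pool.Agent.H98.B (abs_prime VV_of Wc_psi awc afe dfe hbasic abs_nm qp_eis cs_psi exists_sgn
  L_prod_ev ord_mul_left VV_ev X03_bot abs_eI)
open Pool.Agent.H98.Q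

section base
variable {N D : Type} [Field N] [NumberField N] [IsCyclotomicExtension {3} ℚ N] [Field D]
  [NumberField D] [Algebra N D] {d : ℤ}

/-- **the leading coefficient over the base field** -/
theorem lead_ex (hd : Dd d) : ∃ (m0 : ℕ) (c : ℂ), Odd m0 ∧ BaseLead d m0 c := by
  have hFq : Fact d.natAbs.Prime := ⟨hd.pr⟩
  have hq2 : d.natAbs ≠ 2 := by
    have := hd.m4
    omega
  have hq3 := hd.m3
  -- the function
  have hcyc : IsCyclotomicExtension {3} ℚ (CyclotomicField 3 ℚ) :=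
    CyclotomicField.isCyclotomicExtension 3 ℚ
  obtain ⟨a0, ha0⟩ := exists_sqrt3 (F0 := CyclotomicField 3 ℚ)
  obtain ⟨ι'⟩ := exists_iota (N := CyclotomicField 3 ℚ) ⟨(a0 - 1) / 2, by
    field_simp
    linear_combination ha0⟩
  let ι0 : Pool.Agent.Y688.RR →+* 𝓞 (CyclotomicField 3 ℚ) :=
    ι'.comp (RingEquiv.subringCongr RR_eis : Pool.Agent.Y688.RR →+* eis)
  obtain ⟨F5, hF1, hF2, hF3, A, hA, hFE⟩ := exists_Fq hq2 hq3 (CyclotomicField 3 ℚ) ι0
  have hfin : analyticOrderAt F5 1 ≠ ⊤ := by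
    refine ord_fin (θ := thq d.natAbs) ?_ hF1 hF2
    unfold thq
    have e1 : (⊤ : Ideal eis) = sp 1 := Ideal.span_singleton_one.symm
    have e2 : psi (⊤ : Ideal eis) = 1 := by
      rw [e1, psi_prim (by rw [sub_self]; exact Ideal.zero_mem _)]
      rfl
    have e3 : cq d.natAbs (⊤ : Ideal eis) = 1 := by
      unfold cq
      rw [Ideal.absNorm_top, Nat.cast_one, map_one, Int.cast_one]
    rw [e2, e3, one_mul]
  obtain ⟨m0, hm0⟩ := ENat.ne_top_iff_exists.1 hfin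
  obtain ⟨c5, hc5⟩ := lc_of_order (hF1.analyticAt 1) hm0.symm
  refine ⟨m0, (starRingEnd ℂ) c5, odd_ord hF1 hA hm0 hFE, hc5.conj.1, ?_⟩
  intro F D _ _ _ _ _ _ ι h2 ⟨r, hr⟩ f f0 hf hf0
  have hN := pd_base hd F ι
  have hgD : IsGalois F D := gal2' h2
  have hU : Unr2 F := (gz3 F).two
  have hdF : Module.finrank ℚ F = 2 * 1 := fr3 F
  have hf01 := ne_of_base (base3 F ι) hf0
  obtain ⟨X, hX, hX2⟩ := exists_sgn (N := F) (K := D) h2
  obtain ⟨a, ha⟩ := exists_rt ι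
  set n : ℕ := 3 * d.natAbs with hn
  have hnF : ((n : ℕ) : 𝓞 F) = 3 * ((d.natAbs : ℕ) : 𝓞 F) := by
    rw [hn]
    push_cast
    ring
  have hnr : ∀ w : HeightOneSpectrum (𝓞 D), Rm F w → ((n : ℕ) : 𝓞 F) ∈ (dn F w).asIdeal := by
    rintro w ⟨σ, hσ, hin⟩
    have h5 : (d : 𝓞 D) ∈ w.asIdeal := by
      by_contra h5
      exact hσ (d_away hd hN h2 hr h5 hin)
    have h6 : (d : 𝓞 F) ∈ (dn F w).asIdeal := by
      show algebraMap (𝓞 F) (𝓞 D) d ∈ w.asIdeal
      rwa [map_intCast]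
    rw [hnF]
    refine Ideal.mul_mem_left _ _ ?_
    rcases Int.natAbs_eq d with h | h
    · have : (d : 𝓞 F) = ((d.natAbs : ℕ) : 𝓞 F) := cst_pos h
      rwa [this] at h6
    · have : (d : 𝓞 F) = -((d.natAbs : ℕ) : 𝓞 F) := cst_neg h
      rwa [this, Ideal.neg_mem_iff] at h6
  have hU' : ∀ v : HeightOneSpectrum (𝓞 F), (2 : 𝓞 F) ∈ v.asIdeal →
      v.valuation F 2 = WithZero.exp (-1 : ℤ) := fun v hv => hU v (by exact_mod_cast hv)
  have hodd : Odd n := by
    rw [hn]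
    refine Odd.mul (by decide) ?_
    exact (hd.pr.eq_two_or_odd'.resolve_left hq2)
  have iX : IH n (fun I : Ideal (𝓞 F) => X0 3 I * XR X I) :=
    XR3_ih ha hdF hU' hX2 hodd ⟨d.natAbs, hn⟩ hnr
  obtain ⟨g, -, hg, -, -⟩ := core_gen2 F ι 1 hdF hU n _ _ iX iX hodd
  have h2P : ∀ w : HeightOneSpectrum (𝓞 D), Rm F w → (2 : 𝓞 F) ∉ (dn F w).asIdeal := by
    intro w hw h2w
    obtain ⟨j, hj⟩ := hodd
    apply (dn F w).isPrime.ne_top
    rw [Ideal.eq_top_iff_one]
    have : (1 : 𝓞 F) = (n : 𝓞 F) - 2 * (j : 𝓞 F) := by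
      rw [hj]
      push_cast
      ring
    rw [this]
    exact Ideal.sub_mem _ (hnr w hw) (Ideal.mul_mem_right _ _ h2w)
  have e1 := L_prod_ev h2 hX h2P hf hf0 iX hg
  have hG : VV ι (fun I : Ideal (𝓞 F) => X0 3 I * XR X I)
      (fun s => (starRingEnd ℂ) (F5 ((starRingEnd ℂ) s))) := by
    refine VV_of ι (fun J => ?_) hF1 hF2
    rw [XR_cd hd ι h2 hr hX iX, abs_eI]
    unfold thq
    rw [map_mul, cq_conj]
    by_cases hJ : IsCoprime J (sp (3 : eis))
    · have h3 : X0 3 (eI (iE ι) J) = 1 := by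
        apply X0_pos
        have h4 := Pool.Agent.K7.H73.NM.cop_mod hJ
        rw [← abs_eI ι J] at h4
        have h5 : IsCoprime ((Ideal.absNorm (eI (iE ι) J) : ℕ) : ℤ) 3 := by
          rw [Int.isCoprime_iff_gcd_eq_one]
          have : Nat.Coprime (Ideal.absNorm (eI (iE ι) J)) 3 := by
            rw [Nat.coprime_comm, Nat.Prime.coprime_iff_not_dvd Nat.prime_three]
            omega
          exact this
        obtain ⟨u, v, huv⟩ := h5
        rw [Ideal.isCoprime_iff_exists]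
        refine ⟨(u : 𝓞 F) * ((Ideal.absNorm (eI (iE ι) J) : ℕ) : 𝓞 F), ?_, (v : 𝓞 F) * 3, ?_, ?_⟩
        · exact Ideal.mul_mem_left _ _ (Ideal.absNorm_mem _)
        · exact Ideal.mul_mem_left _ _ (by
            rw [Nat.cast_ofNat]
            exact Ideal.mem_span_singleton_self _)
        · have := congrArg (fun z : ℤ => (z : 𝓞 F)) huv
          push_cast at this
          exact this
      rw [h3, one_mul, mul_comm]
      rfl
    · rw [(psi_zero_iff J).2 hJ, map_zero, mul_zero, zero_mul]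
  have e2 : g =ᶠ[𝓝 1] (fun s => (starRingEnd ℂ) (F5 ((starRingEnd ℂ) s))) := VV_ev hg hG
  exact (hc5.conj.congr e2).mul_left hf0.an hf01 e1

end base

/-- for `d = 5` the order is one -/
theorem lead_five {m0 : ℕ} {c : ℂ} (h : BaseLead 5 m0 c) : m0 = 1 := by
  have hd : Dd 5 := Pool.Agent.H98.V.dd_five
  have hcyc : IsCyclotomicExtension {3} ℚ (CyclotomicField 3 ℚ) :=
    CyclotomicField.isCyclotomicExtension 3 ℚ
  obtain ⟨ι'⟩ := exists_iota (N := CyclotomicField 3 ℚ) (gz3 (CyclotomicField 3 ℚ)).om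
  set ι : Pool.Agent.Y688.RR →+* 𝓞 (CyclotomicField 3 ℚ) :=
    ι'.comp (RingEquiv.subringCongr RR_eis : Pool.Agent.Y688.RR →+* eis) with hι
  have hp := pd_base hd (CyclotomicField 3 ℚ) ι
  obtain ⟨D, _, _, _, h2D, hr⟩ := exists_qd hd (CyclotomicField 3 ℚ) hp
  obtain ⟨r, hr'⟩ := hr
  have hgD : IsGalois (CyclotomicField 3 ℚ) D := gal2' h2D
  have hUD : Unr2 D := unr2_d hd hp h2D hr' (gz3 (CyclotomicField 3 ℚ)).two
  obtain ⟨f, hf⟩ := exists_VV ((algebraMap (𝓞 (CyclotomicField 3 ℚ)) (𝓞 D)).comp ι) (d := 2) (by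
    rw [← Module.finrank_mul_finrank ℚ (CyclotomicField 3 ℚ) D, fr3 (CyclotomicField 3 ℚ), h2D]) hUD
  have h1 := h.ord (CyclotomicField 3 ℚ) D ι h2D ⟨r, hr'⟩ f hf
  have h2 := Pool.Agent.H98.V.base_five (CyclotomicField 3 ℚ) D ι h2D ⟨r, hr'⟩ f hf
  rw [h1] at h2
  exact_mod_cast h2

end Pool.Agent.H98.W
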