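import Pool.Agent.H81.EX2.Good
import Pool.Agent.H98.Q.Base

/-!
# The fields of the family
-/

set_option autoImplicit false

open NumberField IsDedekindDomain

namespace Pool.Agent.H98.W

open Pool.Agent.H98.Q

/-- the fields of degree `2 ^ n` over `ℚ(√-3)` in which `d` is inert -/
theorem fields {d : ℤ} (hd : Dd d) (M : Type) [Field M] [NumberField M]
    [IsCyclotomicExtension {3} ℚ M] (n B : ℕ) (hn : n ≠ 0) :
    ∃ (K : Type) (_ : Field K) (_ : NumberField K) (_ : Algebra M K) (_ : IsGalois M K),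
      IsCyclic Gal(K/M) ∧ Module.finrank M K = 2 ^ n ∧
      (∀ (w : HeightOneSpectrum (𝓞 K)) (σ : Gal(K/M)), (3 : 𝓞 K) ∉ w.asIdeal →
        (∀ x : 𝓞 K, σ • x - x ∈ w.asIdeal) → σ ≠ 1 → ∀ α : 𝓞 M, α ^ 3 - 2 ∉ w.asIdeal.under (𝓞 M)) ∧
      (Ideal.span {(d : 𝓞 K)}).IsPrime ∧ (∃ ω : K, ω ^ 2 + ω + 1 = 0) ∧
      ∃ w : HeightOneSpectrum (𝓞 K), B < Ideal.absNorm (w.asIdeal.under (𝓞 M)) ∧
        ∀ (σ : Gal(K/M)) (x : 𝓞 K), σ • x - x ∈ w.asIdeal := by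
  have h2 : d.natAbs ≠ 2 := by
    have := hd.m4
    omega
  have h3 : 3 ∣ d.natAbs + 1 := by
    have := hd.m3
    omega
  obtain ⟨K, i1, i2, i3, i4, g1, g2, g3, g4, g5, g6⟩ :=
    Pool.Agent.H81.EX2.exists_good M hd.pr h2 h3 n B hn
  refine ⟨K, i1, i2, i3, i4, g1, g2, fun w σ _ h h' => g3 w σ h h', ?_, g5, g6⟩
  have e : Ideal.span {(d : 𝓞 K)} = Ideal.span {((d.natAbs : ℕ) : 𝓞 K)} := by
    rcases Int.natAbs_eq d with h | h
    · conv_lhs => rw [h]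
      rw [Int.cast_natCast]
    · conv_lhs => rw [h]
      rw [Int.cast_neg, Int.cast_natCast, Ideal.span_singleton_neg]
  rw [e]
  exact g4

end Pool.Agent.H98.W
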