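import Pool.Agent.H98.W.Tc

/-!
# The product of the local terms for `y² = x³ + 16 d³`
-/

set_option autoImplicit false
set_option linter.unusedSectionVars false
set_option linter.unusedVariables false

open NumberField IsDedekindDomain WeierstrassCurve WithZero
open scoped Classical

namespace Pool.Agent.H98.W

open Pool.Agent.Y682 (vv vv_coe norm_le_iff)
open Pool.Agent.Y696 (IsPeriods period)
open Pool.Agent.K7.H73.L3
open Pool.Agent.K7.H73.T2
open Pool.Agent.K7.H70.TW (Ed Ed_eq Wtn)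
open Pool.Agent.K7.H70.SM (NG)
open Pool.Agent.H98.R
open Pool.Agent.H98.Q

section
variable {k : Type} [Field k] [NumberField k] {v : HeightOneSpectrum (𝓞 k)}

/-- **the product of the local terms** -/
theorem CE_val4 {W : WeierstrassCurve k} (hD : W.Δ ≠ 0) {p : HeightOneSpectrum (𝓞 k)}
    (hp : cc W p = 4) (hodd : ∀ v : HeightOneSpectrum (𝓞 k), v ≠ p → Odd (cc W v))
    (h2 : ∀ v : HeightOneSpectrum (𝓞 k), (2 : 𝓞 k) ∈ v.asIdeal → Valued.v (mineq W v).Δ = 1) :
    0 < CE W ∧ ∀ (Γ : Type) [LinearOrderedCommGroupWithZero Γ]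
      (v : Valuation ℂ Γ), v 2 < 1 →
        v ((CE W : ℝ) : ℂ) ^ 12 = v 4 ^ 12 * v (((Algebra.norm ℚ W.Δ : ℚ) : ℂ)) := by
  have hbf := bad_finite hD
  have f1 : (Function.mulSupport fun v : HeightOneSpectrum (𝓞 k) => ((cc W v : ℕ) : ℝ)).Finite := by
    refine hbf.subset fun v hv => ?_
    by_contra h3
    refine hv ?_
    show ((cc W v : ℕ) : ℝ) = 1
    rw [(off_bad h3).2.1, Nat.cast_one]
  have f2 : (Function.mulSupport fun v : HeightOneSpectrum (𝓞 k) => mf W v).Finite := by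
    refine hbf.subset fun v hv => ?_
    by_contra h3
    exact hv (off_bad h3).2.2
  have f3 : (Function.mulSupport fun v : HeightOneSpectrum (𝓞 k) => cc W v).Finite := by
    refine hbf.subset fun v hv => ?_
    by_contra h3
    exact hv (off_bad h3).2.1
  have f4 : (Function.mulSupport fun v : HeightOneSpectrum (𝓞 k) => ‖(mineq W v).Δ‖).Finite := by
    refine hbf.subset fun v hv => ?_
    by_contra h3
    exact hv (norm_one_of (off_bad h3).1)
  have f5 : (Function.mulSupport fun v : HeightOneSpectrum (𝓞 k) =>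
      ‖algebraMap k (v.adicCompletion k) W.Δ‖).Finite := by
    refine hbf.subset fun v hv => ?_
    by_contra h3
    refine hv (norm_one_of ?_)
    rw [Pool.Agent.H723R3.valued_algebraMap]
    exact (not_not.1 h3).2.2.2.2.2
  have h4 : ((∏ᶠ v : HeightOneSpectrum (𝓞 k), cc W v : ℕ) : ℝ) =
      ∏ᶠ v : HeightOneSpectrum (𝓞 k), ((cc W v : ℕ) : ℝ) :=
    (Nat.castRingHom ℝ).toMonoidHom.map_finprod f3
  set c : ℕ := ∏ᶠ v : HeightOneSpectrum (𝓞 k), cc W v with hc
  obtain ⟨c1, hco, hc1⟩ : ∃ c1 : ℕ, Odd c1 ∧ c = 4 * c1 := by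
    refine ⟨∏ᶠ v : HeightOneSpectrum (𝓞 k), if v = p then 1 else cc W v, ?_, ?_⟩
    · refine finprod_induction (fun n : ℕ => Odd n) odd_one (fun _ _ ha hb => ha.mul hb) fun v => ?_
      by_cases hv : v = p
      · rw [if_pos hv]
        exact odd_one
      · rw [if_neg hv]
        exact hodd v hv
    · have e1 : ∀ v : HeightOneSpectrum (𝓞 k), cc W v =
          (if v = p then 4 else 1) * (if v = p then 1 else cc W v) := by
        intro v
        by_cases hv : v = p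
        · rw [if_pos hv, if_pos hv, hv, hp]
        · rw [if_neg hv, if_neg hv, one_mul]
      rw [hc, finprod_congr e1, finprod_mul_distrib, finprod_eq_single _ p]
      · rw [if_pos rfl]
      · intro v hv
        rw [if_neg hv]
      · refine (Set.finite_singleton p).subset fun v hv => ?_
        by_contra hcon
        exact hv (if_neg hcon)
      · refine f3.subset fun v hv h0 => hv ?_
        have h0' : cc W v = 1 := h0
        show (if v = p then 1 else cc W v) = 1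
        by_cases hvp : v = p
        · rw [if_pos hvp]
        · rw [if_neg hvp]
          exact h0'
  set P : ℝ := ∏ᶠ v : HeightOneSpectrum (𝓞 k), mf W v with hP
  have hCE : CE W = c * P := by
    unfold CE
    rw [finprod_mul_distrib f1 f2, ← h4]
  have hmf : ∀ v : HeightOneSpectrum (𝓞 k), 0 < mf W v := by
    intro v
    rw [mf_eq hD]
    have hN : (0 : ℝ) < (Ideal.absNorm v.asIdeal : ℝ) := by
      exact_mod_cast Nat.pos_of_ne_zero fun h => v.ne_bot (Ideal.absNorm_eq_zero_iff.1 h)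
    positivity
  have hP0 : 0 < P := finprod_induction (fun x : ℝ => 0 < x) one_pos
    (fun _ _ ha hb => mul_pos ha hb) fun v => hmf v
  obtain ⟨M, hM, hMe⟩ : ∃ M : ℕ, Odd M ∧
      ∏ᶠ v : HeightOneSpectrum (𝓞 k), ‖(mineq W v).Δ‖ = ((M : ℕ) : ℝ)⁻¹ := by
    refine finprod_induction (fun x : ℝ => ∃ M : ℕ, Odd M ∧ x = ((M : ℕ) : ℝ)⁻¹)
      ⟨1, odd_one, by simp⟩ ?_ fun v => norm_min W hD (h2 v)
    rintro _ _ ⟨a, ha, rfl⟩ ⟨b, hb, rfl⟩
    exact ⟨a * b, ha.mul hb, by push_cast; rw [mul_inv]⟩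
  have hP12 : P ^ 12 = ((M : ℕ) : ℝ)⁻¹ * |((Algebra.norm ℚ W.Δ : ℚ) : ℝ)| := by
    rw [hP, finprod_pow f2]
    have e : ∀ v : HeightOneSpectrum (𝓞 k), mf W v ^ 12 =
        ‖(mineq W v).Δ‖ / ‖algebraMap k (v.adicCompletion k) W.Δ‖ := by
      intro v
      have e : (W.baseChange (v.adicCompletion k)).Δ = algebraMap k (v.adicCompletion k) W.Δ :=
        WeierstrassCurve.map_Δ _ _
      rw [mf_pow, e]
    rw [finprod_congr e, finprod_div_distrib f4 f5, hMe, prod_disc hD, div_inv_eq_mul]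
  refine ⟨?_, ?_⟩
  · rw [hCE]
    refine mul_pos ?_ hP0
    exact_mod_cast Nat.pos_of_ne_zero fun h0 => by
      rw [h0] at hc1
      have h1 : c1 = 0 := by omega
      rw [h1] at hco
      exact absurd hco (by decide)
  · intro Γ _ v hv
    have hv1 : ∀ n : ℕ, Odd n → v (n : ℂ) = 1 := fun n hn => by
      have := Pool.Agent.Y688.v_odd hv (n := (n : ℤ)) (by exact_mod_cast hn)
      exact_mod_cast this
    have h7 : ((P : ℝ) : ℂ) ^ 12 = ((M : ℕ) : ℂ)⁻¹ *
        ((|((Algebra.norm ℚ W.Δ : ℚ) : ℝ)| : ℝ) : ℂ) := by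
      rw [← Complex.ofReal_pow, hP12]
      push_cast
      rfl
    rw [hCE, hc1]
    push_cast
    rw [map_mul, map_mul, hv1 c1 hco, mul_one, mul_pow]
    congr 1
    rw [← map_pow, h7, map_mul, map_inv₀, hv1 M hM, inv_one, one_mul]
    rcases abs_choice ((Algebra.norm ℚ W.Δ : ℚ) : ℝ) with h8 | h8
    · rw [h8]
      norm_cast
    · rw [h8]
      push_cast
      rw [Valuation.map_neg]

/-- **the square of the product of the local terms** -/
theorem CE_sq4 {W : WeierstrassCurve k} {δ : k} (h4 : W.c₄ = 0) (h6 : W.c₆ = -216 * δ ^ 3)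
    (hδ : δ ≠ 0) {p : HeightOneSpectrum (𝓞 k)}
    (hp : cc W p = 4) (hodd : ∀ v : HeightOneSpectrum (𝓞 k), v ≠ p → Odd (cc W v))
    (h2 : ∀ v : HeightOneSpectrum (𝓞 k), (2 : 𝓞 k) ∈ v.asIdeal → Valued.v (mineq W v).Δ = 1) :
    0 < CE W ∧ ∀ (Γ : Type) [LinearOrderedCommGroupWithZero Γ]
      (v : Valuation ℂ Γ), v 2 < 1 →
        v ((CE W : ℝ) : ℂ) ^ 2 = v 4 ^ 2 * v (((Algebra.norm ℚ δ : ℚ) : ℂ)) := by
  have hΔ := disc_eq h4 h6
  have hD : W.Δ ≠ 0 := by
    rw [hΔ]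
    exact mul_ne_zero (by norm_num) (pow_ne_zero 6 hδ)
  obtain ⟨h0, h7⟩ := CE_val4 hD hp hodd h2
  refine ⟨h0, ?_⟩
  intro Γ _ v hv
  have h8 := h7 Γ v hv
  have h27 : v (27 : ℂ) = 1 := by
    have := Pool.Agent.Y688.v_odd hv (n := 27) (by decide)
    exact_mod_cast this
  have e27 : Algebra.norm ℚ (-27 : k) = (-27) ^ Module.finrank ℚ k := by
    have : (-27 : k) = algebraMap ℚ k (-27) := by rw [map_neg, map_ofNat]
    rw [this, Algebra.norm_algebraMap]
  rw [hΔ, map_mul, map_pow, e27] at h8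
  push_cast at h8
  rw [map_mul, map_pow, Valuation.map_neg, h27, one_pow, one_mul, map_pow] at h8
  have h9 : (v ((CE W : ℝ) : ℂ) ^ 2) ^ 6 = (v 4 ^ 2 * v (((Algebra.norm ℚ δ : ℚ) : ℂ))) ^ 6 := by
    rw [← pow_mul, mul_pow, ← pow_mul]
    exact h8
  exact (pow_left_inj₀ zero_le zero_le (by norm_num : (6 : ℕ) ≠ 0)).1 h9

end

section pl
variable {K : Type} [Field K] [NumberField K] {d : ℤ}

/-- the other places -/
lemma places (hd : Dd d) (hp : Pd d K) (hNG : NG K) {W : WeierstrassCurve K}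
    {C : VariableChange K} (hW : W = C • Ed (d : K)) {v : HeightOneSpectrum (𝓞 K)}
    (hv : v ≠ pd hd hp) :
    GoodAt W v ∨ (vv v 2 = 1 ∧ ∀ z : v.adicCompletion K, z ^ 3 ≠ 2) := by
  by_cases h3 : (3 : 𝓞 K) ∈ v.asIdeal
  · exact Or.inr ⟨two_unit v (vv_three h3), no_cube hNG h3⟩
  · left
    obtain ⟨m, hm⟩ := hd.odd
    have hdm : (d : K) = 1 + 4 * m := by
      rw [hm]
      push_cast
      ring
    obtain ⟨C0, hC0⟩ : ∃ C0 : VariableChange K,
        Ed (d : K) = C0 • Wtn ((1 : 𝓞 K) : K) ((-(m : 𝓞 K) : 𝓞 K) : K) := by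
      refine ⟨_, Ed_eq two_ne_zero (b := 1) one_ne_zero ?_⟩
      rw [hdm]
      have e : ((-(m : 𝓞 K) : 𝓞 K) : K) = -(m : K) := by
        show algebraMap (𝓞 K) K (-(m : 𝓞 K)) = _
        rw [map_neg, map_intCast]
      have e1 : ((1 : 𝓞 K) : K) = 1 := map_one _
      rw [e, e1]
      ring
    refine ⟨h3, C * C0, 1, -(m : 𝓞 K), ?_, by rw [mul_smul, ← hC0, hW]⟩
    intro h
    apply hv
    apply pd_uniq hd hp
    have e : (1 : 𝓞 K) ^ 2 - 4 * -(m : 𝓞 K) = (d : 𝓞 K) := by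
      rw [hm]
      push_cast
      ring
    rwa [e] at h

/-- **the periods and the Tamagawa numbers** -/
theorem om_ce (hd : Dd d) (hp : Pd d K) (hNG : NG K) {ω : K} (hω : ω ^ 2 + ω + 1 = 0)
    {W : WeierstrassCurve K} {C : VariableChange K} (hC : C • W = Ed (d : K)) :
    0 < Om W ∧ 0 < CE W ∧ ∀ (Λ : PeriodPair) (w : ℝ), IsPeriods Λ w →
      ∀ (Γ : Type) [LinearOrderedCommGroupWithZero Γ] (v : Valuation ℂ Γ), v 2 < 1 →
        v ((Om W : ℝ) : ℂ) * v ((CE W : ℝ) : ℂ) = v 4 * v (period K Λ w) := by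
  have hd0 : (d : K) ≠ 0 := d_neF hd
  have hW : W = C⁻¹ • Ed (d : K) := by rw [← hC, inv_smul_smul]
  obtain ⟨h4, h6⟩ := form_inv hC
  set δ : K := 4 * (C.u : K) ^ 2 * d with hδd
  have hδ : δ ≠ 0 := by
    rw [hδd]
    exact mul_ne_zero (mul_ne_zero (by norm_num) (pow_ne_zero 2 (Units.ne_zero _))) hd0
  have hcc := cc_d hd hp hω hW
  have hodd : ∀ v : HeightOneSpectrum (𝓞 K), v ≠ pd hd hp → Odd (cc W v) := by
    intro v hv
    rcases places hd hp hNG hW hv with h | ⟨h, h'⟩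
    · rw [(good_place h).2]
      exact odd_one
    · exact odd_place hd0 hW h h'
  have h2 : ∀ v : HeightOneSpectrum (𝓞 K), (2 : 𝓞 K) ∈ v.asIdeal →
      Valued.v (mineq W v).Δ = 1 := by
    intro v hv
    have h5 : v.valuation K (algebraMap (𝓞 K) K 2) < 1 :=
      (HeightOneSpectrum.valuation_lt_one_iff_mem (K := K) v 2).2 hv
    have e : (algebraMap (𝓞 K) K) 2 = 2 := map_ofNat (algebraMap (𝓞 K) K) 2
    rw [e] at h5
    have hvp : v ≠ pd hd hp := by
      rintro rfl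
      have h6 : vd hd hp (2 : K) = 1 := vd_two hd hp
      rw [show (pd hd hp).valuation K (2 : K) = vd hd hp (2 : K) from rfl, h6] at h5
      exact lt_irrefl _ h5
    rcases places hd hp hNG hW hvp with h | ⟨h, -⟩
    · exact (good_place h).1
    · exfalso
      rw [← vv_coe, map_ofNat, h] at h5
      exact lt_irrefl _ h5
  obtain ⟨hC0, hC1⟩ := CE_sq4 h4 h6 hδ hcc hodd h2
  have hOm0 : 0 < Om W := by
    obtain ⟨Λ, ω, p1, p2, p3⟩ := Pool.Agent.Y696.exists_real
    exact (Om_val h4 h6 hδ ⟨p1, p2, p3⟩).1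
  refine ⟨hOm0, hC0, ?_⟩
  intro Λ ω hΛ Γ _ v hv
  have e1 := (Om_val h4 h6 hδ hΛ).2 Γ v hv
  have e2 := hC1 Γ v hv
  have e3 : (v ((Om W : ℝ) : ℂ) * v ((CE W : ℝ) : ℂ)) ^ 2 =
      (v 4 * v (period K Λ ω)) ^ 2 := by
    rw [mul_pow, e2, mul_pow, ← e1]
    simp only [mul_assoc, mul_comm, mul_left_comm]
  exact (pow_left_inj₀ zero_le zero_le two_ne_zero).1 e3

end pl

end Pool.Agent.H98.W
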