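import Pool.Agent.H98.W.Pt
import Pool.Agent.H98.W.An
import Pool.Agent.H98.W.Td
import Pool.Graph.R_pool_sql_team_seeded_35f281b4.K7.H73.BS.Alg
import Pool.Graph.R_pool_sql_team_seeded_35f281b4.K7.H73.T2.G1
import Pool.Graph.R_pool_sql_team_seeded_35f281b4.K7.H73.T2.G4

/-!
# The 2-part of the formula, relative to the base field
-/

set_option autoImplicit false
set_option linter.unusedSectionVars false
set_option linter.unusedVariables false

open Complex NumberField IsDedekindDomain Filter Topology WeierstrassCurve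
open scoped Classical

namespace Pool.Agent.H98.W

open Pool.Agent.K7.H56
open Pool.Agent.K7.H56.P
open Pool.Agent.K7.H56.M
open Pool.Agent.Y696 (IsPeriods period Cur v_period v_period_conj)
open Pool.Agent.K7.H70.AS
open Pool.Agent.K7.H70.SM (NG no_cube_of_two)
open Pool.Agent.K7.H73.L3 (gz3 ngs3 fr3 CE)
open Pool.Agent.K7.H73.T2 (Om)
open Pool.Agent.K7.H70.TW (Ed)
open Pool.Agent.TH942 Pool.Agent.TH910.LS
open Pool.Agent.H98.R
open Pool.Agent.H98.Q

/-- the value of the period of a number field -/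
lemma per_val {Λ : PeriodPair} {ω : ℝ} (hΛ : IsPeriods Λ ω) {Ω : ℂ} (hCur : Cur Λ Ω)
    {Γ : Type} [LinearOrderedCommGroupWithZero Γ] {v : Valuation ℂ Γ} (hv : v 2 < 1)
    (k : Type) [Field k] [NumberField k] :
    v (period k Λ ω) = v Ω ^ Module.finrank ℚ k ∧ v ((starRingEnd ℂ) Ω) = v Ω := by
  have e1 := v_period hCur hΛ.real hv
  have e2 := v_period_conj hCur hΛ.real hv
  have h6 : v ((2 * |((starRingEnd ℂ) Λ.ω₁ * Λ.ω₂).im| : ℝ) : ℂ) = v Ω ^ 2 := by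
    have k2 : v ((Real.sqrt |((3 : ℤ) : ℝ)| : ℝ) : ℂ) = 1 :=
      Pool.Agent.Y696.v_sqrtD hv (by norm_num)
    rw [Pool.Agent.Y696.area hCur.lat, map_mul, map_mul, k2, one_mul, e2, ← e1, pow_two]
  refine ⟨?_, by rw [e2, e1]⟩
  unfold period
  rw [map_mul, map_pow, map_pow, h6, ← e1, ← InfinitePlace.card_add_two_mul_card_eq_rank k,
    pow_add, pow_mul]

/-- torsion of odd order -/
lemma tor_odd {A : Type} [AddCommGroup A] (hA : AddGroup.FG A) (h2 : ∀ P : A, P + P = 0 → P = 0) :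
    Odd (Nat.card (AddCommGroup.torsion A)) := by
  have hfin : Finite (AddCommGroup.torsion A) := by
    have h1 : AddGroup.FG A := hA
    have h3 : Module.Finite ℤ A := Module.Finite.iff_addGroup_fg.2 h1
    have h4 : Module.Finite ℤ (AddCommGroup.torsion A).toIntSubmodule :=
      inferInstance
    have h5 : AddGroup.FG (AddCommGroup.torsion A) := Module.Finite.iff_addGroup_fg.1 h4
    refine AddCommGroup.finite_of_fg_isAddTorsion _ ?_
    rintro ⟨x, hx⟩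
    have h6 : IsOfFinAddOrder x := hx
    obtain ⟨n, hn, h7⟩ := isOfFinAddOrder_iff_nsmul_eq_zero.1 h6
    exact isOfFinAddOrder_iff_nsmul_eq_zero.2 ⟨n, hn, Subtype.ext h7⟩
  by_contra hcon
  rw [Nat.not_odd_iff_even] at hcon
  have : Fact (Nat.Prime 2) := ⟨Nat.prime_two⟩
  obtain ⟨x, hx⟩ := exists_prime_addOrderOf_dvd_card' 2 hcon.two_dvd
  have h3 : (x : A) + x = 0 := by
    have h4 : 2 • x = 0 := by rw [← hx]; exact addOrderOf_nsmul_eq_zero x
    rw [two_nsmul] at h4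
    have := congrArg Subtype.val h4
    exact this
  have h4 : x = 0 := Subtype.ext (h2 _ h3)
  rw [h4, addOrderOf_zero] at hx
  exact absurd hx (by norm_num)

section
variable {d : ℤ} {m0 : ℕ} {c : ℂ}

/-- **the formula up to units at two, relative to the base field** -/
theorem rel (hd : Dd d) (hm0 : 1 ≤ m0) (hB : BaseLead d m0 c)
    {b0 : Fin 2 → (Ed (d : CyclotomicField 3 ℚ)).toAffine.Point} (hb0 : IsBasisModTors b0)
    {Λ : PeriodPair} {w : ℝ} (hΛ : IsPeriods Λ w) {Ω : ℂ} (hCur : Cur Λ Ω)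
    {M0 L : Type} [Field M0] [NumberField M0]
    [IsCyclotomicExtension {3} ℚ M0] [Field L]
    [NumberField L] [Algebra M0 L] [IsGalois M0 L]
    (hr : ∃ r : ℕ, Module.finrank M0 L = 2 ^ r) (hG : Gd M0 L)
    {K : Type} [Field K] [NumberField K] [Algebra K L] {ω : K} (hω : ω ^ 2 + ω + 1 = 0)
    (hK : Pd d K) {W : WeierstrassCurve K} {C : VariableChange K} (hC : C • W = Ed (d : K)) :
    ∃ l : ℂ, Ldc (Ed (d : K)) (2 * m0) l ∧ 0 < Om W ∧ 0 < CE W ∧
      (∀ P : (Ed (d : K)).toAffine.Point, P + P = 0 → P = 0) ∧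
      ∀ b : Fin 2 → (Ed (d : K)).toAffine.Point, IsBasisModTors b →
        0 < (gram (ch d K) b).det ∧
        ∀ (Γ : Type) [LinearOrderedCommGroupWithZero Γ] (v : Valuation ℂ Γ), v 2 < 1 →
          v l * (v (((gram (ch d (CyclotomicField 3 ℚ)) b0).det : ℝ) : ℂ) * v 4 * v Ω ^ 2) =
            v (c * (starRingEnd ℂ) c) *
              (v (((gram (ch d K) b).det : ℝ) : ℂ) * (v ((Om W : ℝ) : ℂ) * v ((CE W : ℝ) : ℂ))) := by
  have ha : (2 * ω + 1) ^ 2 = -3 := by linear_combination 4 * hω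
  obtain ⟨n, ck, hn, hLd, hck⟩ := lead_all hd hm0 hB hr hG ha hK
  have hNG : NG K := ngs3 (F := M0) (K := L) hr
  have hU : Unr2 L := by
    obtain ⟨r, hr'⟩ := hr
    exact ((gz3 M0).step hr' hG).two
  have h3L : ∀ x : L, x ^ 3 ≠ 2 := no_cube_of_two hU
  have hUK : Unr2 K := unr2_down (F := K) (K := L) hU
  have h3K : ∀ x : K, x ^ 3 ≠ 2 := no_cube_of_two hUK
  obtain ⟨o1, o2, o3⟩ := om_ce hd hK hNG hω hC
  refine ⟨ck * (starRingEnd ℂ) ck, hLd, o1, o2, no_two_pt hd h3K, fun b hb =>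
    ⟨reg_pos hd hb, fun Γ _ v hv => ?_⟩⟩
  -- the fields
  have hcyc : IsCyclotomicExtension {3} ℚ (CyclotomicField 3 ℚ) :=
    CyclotomicField.isCyclotomicExtension 3 ℚ
  let e : (CyclotomicField 3 ℚ) ≃ₐ[ℚ] M0 :=
    IsCyclotomicExtension.algEquiv {3} ℚ (CyclotomicField 3 ℚ) M0
  obtain ⟨f', hf'⟩ := exists_alg (F0 := M0) (K := L) (M := K) ha
  let f : (CyclotomicField 3 ℚ) →ₐ[ℚ] K := RingHom.toRatAlgHom (f'.comp (e : _ ≃+* M0).toRingHom)
  let g : K →ₐ[ℚ] L := RingHom.toRatAlgHom (algebraMap K L)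
  have he : ∀ x, g (f x) = algebraMap M0 L ((e : _ ≃+* M0) x) := by
    intro x
    rw [← hf']
    rfl
  have hfr : Module.finrank ℚ K = 2 ^ n * Module.finrank ℚ (CyclotomicField 3 ℚ) := by
    rw [hn, fr3 (CyclotomicField 3 ℚ)]
    ring
  obtain ⟨N, hN, hreg⟩ := reg_all (L := L) hd h3L f g (e : _ ≃+* M0) he hfr hb hb0
  -- the values
  obtain ⟨p1, p2⟩ := per_val hΛ hCur hv K
  have e1 := hck Λ Ω hCur Γ v hv
  have e2 := hck Λ Ω hCur Γ (v.comap (starRingEnd ℂ)) (by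
    rw [Valuation.comap_apply, map_ofNat]
    exact hv)
  simp only [Valuation.comap_apply, map_ofNat] at e2
  rw [p2] at e2
  have e3 := o3 Λ w hΛ Γ v hv
  have hvN : v ((N : ℤ) : ℂ) = 1 := Pool.Agent.Y688.v_odd hv hN
  have e4 : v 2 ^ (2 * n) * v (((gram (ch d (CyclotomicField 3 ℚ)) b0).det : ℝ) : ℂ) =
      v (((gram (ch d K) b).det : ℝ) : ℂ) := by
    have h1 : ((((2 ^ n : ℕ) : ℝ) ^ 2 * (gram (ch d (CyclotomicField 3 ℚ)) b0).det : ℝ) : ℂ) =
        (((N : ℝ) ^ 2 * (gram (ch d K) b).det : ℝ) : ℂ) := congrArg _ hreg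
    push_cast at h1
    have h2 := congrArg v h1
    rw [map_mul, map_mul, map_pow, map_pow, map_pow, hvN, one_pow, one_mul, ← pow_mul,
      mul_comm n 2] at h2
    exact h2
  rw [map_mul, e1, e2, e3, p1, hn, ← e4, map_mul]
  have e5 : 2 ^ (n + 1) = 2 * (2 ^ n - 1) + 2 := by
    have : 1 ≤ 2 ^ n := Nat.one_le_two_pow
    rw [pow_succ]
    omega
  rw [e5, pow_add, pow_mul', pow_mul']
  simp only [pow_two, mul_assoc, mul_comm, mul_left_comm]

/-- the number of the base field -/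
theorem base_x (hd : Dd d) (hc : c ≠ 0) {Λ : PeriodPair} {Ω : ℂ} (hCur : Cur Λ Ω) : ∃ x₀ : ℂ, x₀ ≠ 0 ∧ (¬ Tw d (CyclotomicField 3 ℚ) →
      ∃ b0 : Fin 2 → (Ed (d : CyclotomicField 3 ℚ)).toAffine.Point, IsBasisModTors b0 ∧
        x₀ * ((((gram (ch d (CyclotomicField 3 ℚ)) b0).det : ℝ) : ℂ) * 4 * Ω ^ 2) =
          c * (starRingEnd ℂ) c) := by
  by_cases hT : Tw d (CyclotomicField 3 ℚ)
  · exact ⟨1, one_ne_zero, fun h => absurd hT h⟩
  · have hcyc : IsCyclotomicExtension {3} ℚ (CyclotomicField 3 ℚ) :=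
      CyclotomicField.isCyclotomicExtension 3 ℚ
    have hgC := gz3 (CyclotomicField 3 ℚ)
    have hpC : Pd d (CyclotomicField 3 ℚ) := Pool.Agent.H98.V.pd_cyc hd (CyclotomicField 3 ℚ)
    obtain ⟨r, g, hg⟩ := exists_basis (fgd (CyclotomicField 3 ℚ) d hd)
    have h1 := card_basis hg
    rw [(rank_of hd hgC hpC).2 hT, Fintype.card_fin] at h1
    subst h1
    have h2 := reg_pos hd hg
    have hΩ : Ω ≠ 0 := hCur.lat.ne
    have h3 : (((gram (ch d (CyclotomicField 3 ℚ)) g).det : ℝ) : ℂ) * 4 * Ω ^ 2 ≠ 0 :=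
      mul_ne_zero (mul_ne_zero (by exact_mod_cast h2.ne') (by norm_num)) (pow_ne_zero 2 hΩ)
    refine ⟨c * (starRingEnd ℂ) c / ((((gram (ch d (CyclotomicField 3 ℚ)) g).det : ℝ) : ℂ) * 4 * Ω ^ 2),
      div_ne_zero (mul_ne_zero hc ((map_ne_zero _).2 hc)) h3, fun _ => ⟨g, hg, ?_⟩⟩
    rw [div_mul_cancel₀ _ h3]

end

end Pool.Agent.H98.W
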