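import Pool.Agent.H98.W.An
import Pool.Agent.H98.B.Lser

/-!
# The L-series of the twist over a field without cube roots of unity
-/

set_option autoImplicit false
set_option linter.unusedSectionVars false
set_option linter.unusedVariables false

open Complex NumberField IsDedekindDomain Filter Topology
open scoped PeriodPair nonZeroDivisors

namespace Pool.Agent.H98.W

open Pool.Agent.K7.H56
open Pool.Agent.K7.H56.P
open Pool.Agent.R430
open Pool.Agent.Y696 Pool.Agent.W192.HK Pool.Agent.TH936.CM H667R3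
open Pool.Agent.TH936.PU
open Pool.Agent.Y688 (NI HL euler v_sub_one v_root v_RR dn dn_surj)
open Pool.Agent.K7.H70.AS
open Pool.Agent.K7.H70.SM
open Pool.Agent.K7.H56.M
open Pool.Agent.W189.NF (aV eV)
open Pool.Agent.K7.H70.SE (GoodG hbd good3)
open Pool.Agent.K7.H73.L3 (gz3 ngs3 base_om3 fr3)
open Pool.Agent.K7.H70.TW (Sq Ed ep loc hbd_mul sg_apply LSeries_change exists_sq)
open Pool.Agent.H98.B
open Pool.Agent.H98.Q

section cj
variable {N : Type} [Field N] [NumberField N] {n : ℕ} {X : Ideal (𝓞 N) → ℂ}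
  {ι : Pool.Agent.Y688.RR →+* 𝓞 N} {f : ℂ → ℂ}

/-- the conjugate function as a product -/
lemma conj_prodh (hX : IH n X) (hr : ∀ I, (starRingEnd ℂ) (X I) = X I) (h : VV ι X f) {s : ℂ}
    (hs : 3 / 2 < s.re) :
    HasProd (fun v : HeightOneSpectrum (𝓞 N) => HH (iE ι) v (X v.asIdeal) s)
      ((starRingEnd ℂ) (f ((starRingEnd ℂ) s))) := by
  have hs' : 3 / 2 < ((starRingEnd ℂ) s).re := by rwa [Complex.conj_re]
  have h2 := VV_prodh hX h hs'
  have h3 := h2.map (starRingEnd ℂ) Complex.continuous_conj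
  refine h3.congr_fun fun v => ?_
  simp only [Function.comp_apply]
  have h4 := (conj_HH (ι := ι) X s v).symm
  have hr' : (fun I => (starRingEnd ℂ) (X I)) = X := funext hr
  rw [hr'] at h4
  exact h4

end cj

section lc
variable {k F : Type} [Field k] [NumberField k] [Field F] [NumberField F] [Algebra k F]
  [IsGalois k F] {d : k} {θ : F} {X : Gal(F/k) →* ℂˣ}

/-- the local factors of the twist -/
theorem hloc_tw (h : Sq d θ) (hK : GoodG k) (hNG : NG k) (hU : Unr2 F)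
    (hX : ∀ σ, σ ≠ 1 → X σ = -1) (v : HeightOneSpectrum (𝓞 k)) : ∃ ε : ℤ, (ε = 0 ∨ ε ^ 2 = 1) ∧
      XR X v.asIdeal = (ε : ℂ) ∧ aV (Ed d) v = ε * aV (E0 k) v ∧ eV (Ed d) v = ε ^ 2 * eV (E0 k) v := by
  classical
  choose w hw hfr using fun v : HeightOneSpectrum (𝓞 k) => frP_spec (K := F) v
  have hund : und0 k (w v) = v := hw v
  obtain ⟨ε, h1, h2, h3', h4⟩ := loc h hK hNG hU (w := w v) (φ := frP F v.asIdeal) (by
    intro x
    have e : Nat.card (𝓞 k ⧸ (w v).asIdeal.under (𝓞 k)) = Ideal.absNorm v.asIdeal := by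
      have : (w v).asIdeal.under (𝓞 k) = v.asIdeal := congrArg HeightOneSpectrum.asIdeal (hw v)
      rw [this, Ideal.absNorm_apply, Submodule.cardQuot_apply]
    rw [e]
    exact hfr v x)
  rw [hund] at h3' h4
  refine ⟨ε, h1, ?_, h3', h4⟩
  rw [← h2]
  unfold ep
  by_cases hI : (w v).asIdeal.inertia Gal(F/k) = ⊥
  · rw [if_pos hI, sg_apply]
    have hnr : ¬ Rm k (w v) := by
      rintro ⟨σ, hσ, hin⟩
      apply hσ
      have h5 : σ ∈ (w v).asIdeal.inertia Gal(F/k) := hin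
      rw [hI] at h5
      exact h5
    have hnS : v ∉ SR k F := by
      rintro ⟨w', hw', hwv⟩
      exact inert_all (by rw [hw v, hwv]) hnr hw'
    rw [XR_neg (fun h => hnS (SR_iff.1 h)), XX_prime _ (Ideal.prime_of_isPrime v.ne_bot v.isPrime)]
    split_ifs with h6
    · rw [h6, map_one, Units.val_one]
    · rw [hX _ h6, Units.val_neg, Units.val_one]
  · rw [if_neg hI]
    have hr : Rm k (w v) := by
      obtain ⟨⟨σ, hσ⟩, hne⟩ := Subgroup.ne_bot_iff_exists_ne_one.1 hI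
      exact ⟨σ, fun h => hne (Subtype.ext h), hσ⟩
    exact XR_pos (SR_iff.2 ⟨w v, hr, hw v⟩)

end lc

section fib
variable {K₀ K : Type} [Field K₀] [NumberField K₀] [Field K] [NumberField K] [Algebra K₀ K]
  {ι : eis →+* 𝓞 K} {τ : K ≃ₐ[K₀] K}

/-- the fibre over a prime of the small field, with a character -/
theorem fib_tw (Q : Qe K₀ ι τ) (v : HeightOneSpectrum (𝓞 K₀)) (s : ℂ) {z : HeightOneSpectrum (𝓞 K) → ℂ}
    {ε : ℂ} (hz3 : ∀ w, (3 : 𝓞 K) ∈ w.asIdeal → z w = 0)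
    (hz1 : ∀ w, (3 : 𝓞 K) ∉ w.asIdeal → und0 K₀ w = v → nK w = nK v → z w = ε)
    (hz2 : ∀ w, (3 : 𝓞 K) ∉ w.asIdeal → und0 K₀ w = v → nK w = nK v ^ 2 → z w = ε ^ 2) :
    HasProd (fun w : {w : HeightOneSpectrum (𝓞 K) // und0 K₀ w = v} => HH ι w.1 (z w.1) s)
      (1 - (ε * aV (E0 K₀) v) * (nK v : ℂ) ^ (-s) +
        (ε ^ 2 * eV (E0 K₀) v) * ((nK v : ℂ) ^ (-s)) ^ 2)⁻¹ := by
  classical
  by_cases h3 : (3 : 𝓞 K₀) ∈ v.asIdeal
  · obtain ⟨h1, h2⟩ := Q.three v h3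
    have hX : (1 - (ε * aV (E0 K₀) v) * (nK v : ℂ) ^ (-s) +
        (ε ^ 2 * eV (E0 K₀) v) * ((nK v : ℂ) ^ (-s)) ^ 2)⁻¹ = 1 := by
      rw [h1, h2]
      simp
    rw [hX]
    have h4 : ∀ w : {w : HeightOneSpectrum (𝓞 K) // und0 K₀ w = v}, HH ι w.1 (z w.1) s = 1 := by
      rintro ⟨w, hw⟩
      have hlo := und0_iff.1 hw
      have h5 : algebraMap (𝓞 K₀) (𝓞 K) 3 ∈ w.asIdeal := by
        have := hlo.over
        rw [this] at h3
        exact h3
      rw [map_ofNat] at h5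
      unfold Pool.Agent.Y696.HH
      simp only
      rw [hz3 w h5, zero_mul, sub_zero, inv_one]
    rw [show (fun w : {w : HeightOneSpectrum (𝓞 K) // und0 K₀ w = v} => HH ι w.1 (z w.1) s) =
      fun _ => 1 from funext h4]
    exact hasProd_one
  · have hζ : (ι omr) ^ 2 + ι omr + 1 = 0 := by
      rw [← map_pow, ← map_add, ← map_one ι, ← map_add, omr_sq, map_zero]
    have hτ : τ ((ι omr : 𝓞 K) : K) = ((ι omr : 𝓞 K) : K) ^ 2 := by
      have h5 := Q.cj omr
      rw [cj_omr, map_pow] at h5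
      have h6 := congrArg (fun z : 𝓞 K => (z : K)) h5
      exact h6
    have hw3 : ∀ w : HeightOneSpectrum (𝓞 K), w.asIdeal.LiesOver v.asIdeal →
        (3 : 𝓞 K) ∉ w.asIdeal := by
      intro w hlo h5
      apply h3
      rw [hlo.over, Ideal.under_def, Ideal.mem_comap, map_ofNat]
      exact h5
    have hcv : Nat.card (𝓞 K₀ ⧸ v.asIdeal) = nK v := Pool.Agent.Y696.card_nm v
    rcases Pool.Agent.Y900.QC.jobC Q.two (ι omr) hζ τ hτ v h3 with
      ⟨-, w, w', hne, hww, hlo, hn, hn'⟩ | ⟨hq, w, hww, hlo, hn⟩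
    · -- the split case
      have hp : ∀ u : HeightOneSpectrum (𝓞 K), und0 K₀ u = v ↔ u ∈ ({w, w'} : Finset _) := by
        intro u
        rw [und0_iff, hlo, Finset.mem_insert, Finset.mem_singleton]
      have h4 := hasProd_sub (f := fun u : HeightOneSpectrum (𝓞 K) => HH ι u (z u) s) _ hp
      rw [Finset.prod_pair hne] at h4
      have hwv : w.asIdeal.LiesOver v.asIdeal := (hlo w).2 (Or.inl rfl)
      have hwv' : w'.asIdeal.LiesOver v.asIdeal := (hlo w').2 (Or.inr rfl)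
      have hnw : nK v = nK w := by rw [← Pool.Agent.Y696.card_nm, ← Pool.Agent.Y696.card_nm, hn]
      have hnw' : nK w' = nK w := by
        rw [← Pool.Agent.Y696.card_nm, ← Pool.Agent.Y696.card_nm, hn, hn']
      have hw3' := hw3 w hwv
      obtain ⟨a1, a2⟩ := aV_eq h3 hw3' hnw
      obtain ⟨b1, b2, b3⟩ := pw_valN ι hw3'
      obtain ⟨c1, c2⟩ := psi_cj (Q.bel_cj hww) (P := bel ι w) (P' := bel ι w')
        (by rw [mem_bel, map_ofNat]; exact hw3')
      obtain ⟨f, -, hf⟩ := deg_base ι w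
      have hf' : nK w' = Nat.card (eis ⧸ (bel ι w').asIdeal) ^ f := by rw [hnw', c2, hf]
      have hpw : pw ι w' = (starRingEnd ℂ) (pw ι w) := by
        unfold Pool.Agent.Y696.pw
        rw [fd_of hf, fd_of hf', c1, map_pow]
      have hz : z w = ε := hz1 w hw3' (und0_iff.2 hwv) hnw.symm
      have hz' : z w' = ε := hz1 w' (hw3 w' hwv') (und0_iff.2 hwv') (by rw [hnw', hnw])
      have hX : (1 - (ε * aV (E0 K₀) v) * (nK v : ℂ) ^ (-s) +
        (ε ^ 2 * eV (E0 K₀) v) * ((nK v : ℂ) ^ (-s)) ^ 2)⁻¹ = HH ι w (z w) s * HH ι w' (z w') s := by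
        unfold Pool.Agent.Y696.HH
        rw [hz, hz', a1, a2, b1, b2, hpw, hnw', hnw, ← mul_inv]
        congr 1
        linear_combination -ε ^ 2 * ((nK w : ℂ) ^ (-s)) ^ 2 * b3
      rw [hX]
      exact h4
    · have hp : ∀ u : HeightOneSpectrum (𝓞 K), und0 K₀ u = v ↔ u ∈ ({w} : Finset _) := by
        intro u
        rw [und0_iff, hlo, Finset.mem_singleton]
      have h4 := hasProd_sub (f := fun u : HeightOneSpectrum (𝓞 K) => HH ι u (z u) s) _ hp
      rw [Finset.prod_singleton] at h4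
      have hwv : w.asIdeal.LiesOver v.asIdeal := (hlo w).2 rfl
      have hw3' := hw3 w hwv
      rw [hcv] at hq
      obtain ⟨a1, a2⟩ := aV_inert h3 hq
      obtain ⟨t, t1, t2, t3⟩ := psi_self (P := bel ι w) (Q.bel_cj hww)
        (by rw [mem_bel, map_ofNat]; exact hw3')
      obtain ⟨f, -, hf⟩ := deg_base ι w
      have hnw : nK w = nK v ^ 2 := by rw [← Pool.Agent.Y696.card_nm, hn, hcv]
      have h5 : ((nK v : ℕ) : ℤ) ^ 2 = (t ^ 2) ^ f := by
        rw [← t3]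
        rw [hnw] at hf
        exact_mod_cast hf
      have h6 := pow_mod_aux t2 hq h5
      have hpw : pw ι w = -(nK v : ℂ) := by
        unfold Pool.Agent.Y696.pw
        rw [fd_of hf, t1]
        exact_mod_cast h6
      have hz : z w = ε ^ 2 := hz2 w hw3' (und0_iff.2 hwv) hnw
      have hX : (1 - (ε * aV (E0 K₀) v) * (nK v : ℂ) ^ (-s) +
        (ε ^ 2 * eV (E0 K₀) v) * ((nK v : ℂ) ^ (-s)) ^ 2)⁻¹ = HH ι w (z w) s := by
        unfold Pool.Agent.Y696.HH
        rw [hz, a1, a2, hpw, hnw]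
        congr 1
        have e : (((nK v ^ 2 : ℕ) : ℕ) : ℂ) ^ (-s) = ((nK v : ℂ) ^ (-s)) ^ 2 := by
          push_cast
          rw [← Complex.natCast_cpow_natCast_mul, Complex.cpow_nat_mul]
        rw [e]
        push_cast
        ring
      rw [hX]
      exact h4

end fib

section real

/-- Euler products with real coefficients -/
lemma real_prod {K₀ : Type} [Field K₀] [NumberField K₀] {A B : HeightOneSpectrum (𝓞 K₀) → ℤ} {L : ℂ → ℂ}
    (h : ∀ s : ℂ, 3 / 2 < s.re → HasProd (fun v : HeightOneSpectrum (𝓞 K₀) =>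
      (1 - (A v : ℂ) * (nK v : ℂ) ^ (-s) + (B v : ℂ) * ((nK v : ℂ) ^ (-s)) ^ 2)⁻¹) (L s)) {s : ℂ}
    (hs : 3 / 2 < s.re) : (starRingEnd ℂ) (L ((starRingEnd ℂ) s)) = L s := by
  have hs' : 3 / 2 < ((starRingEnd ℂ) s).re := by rwa [Complex.conj_re]
  have h1 := (h _ hs').map (starRingEnd ℂ) Complex.continuous_conj
  refine h1.unique ((h s hs).congr_fun fun v => ?_)
  simp only [Function.comp_apply]
  have h2 := Complex.cpow_conj ((nK v : ℕ) : ℂ) (-s) (by
    have : ((nK v : ℕ) : ℂ) = (((nK v : ℕ) : ℝ) : ℂ) := by push_cast; rfl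
    rw [this, Complex.arg_ofReal_of_nonneg (Nat.cast_nonneg _)]
    exact Real.pi_pos.ne)
  rw [map_natCast, map_neg] at h2
  rw [map_inv₀, map_add, map_sub, map_one, map_mul, map_mul, map_intCast, map_intCast, map_pow,
    h2, Complex.conj_conj]

end real

/-- the trivial extension -/
lemma gd_self (F : Type) [Field F] [NumberField F] : Gd F F :=
  Pool.Agent.K7.H56.P.gd_of fun w hw h3 α hα => by
    obtain ⟨σ, hσ, -⟩ := hw
    exact absurd (Subsingleton.elim σ 1) hσ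

/-- **the leading coefficient over the rational numbers** -/
theorem lead_Q {d : ℤ} (hd : Dd d) {m : ℕ} {c : ℂ} (hB : BaseLead d m c) :
    Ldc (Ed (d : ℚ)) m c ∧ (starRingEnd ℂ) c = c := by
  have hFp : Fact d.natAbs.Prime := ⟨hd.pr⟩
  have hcyc : IsCyclotomicExtension {3} ℚ (CyclotomicField 3 ℚ) :=
    CyclotomicField.isCyclotomicExtension 3 ℚ
  obtain ⟨F, hF1, hF2, hF3⟩ : ∃ (F : Type) (_ : Field F) (_ : NumberField F),
      IsCyclotomicExtension {3} ℚ F := ⟨CyclotomicField 3 ℚ, inferInstance, inferInstance, hcyc⟩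
  obtain ⟨ι'⟩ := exists_iota (N := F) (gz3 F).om
  set ι : Pool.Agent.Y688.RR →+* 𝓞 F :=
    ι'.comp (RingEquiv.subringCongr RR_eis : Pool.Agent.Y688.RR →+* eis) with hι
  have hp := pd_base hd F ι
  obtain ⟨D, _, _, _, h2D, r, hr⟩ := exists_qd hd F hp
  have hgD : IsGalois F D := gal2' h2D
  have hUF : Unr2 F := (gz3 F).two
  have hUD : Unr2 D := unr2_d hd hp h2D hr hUF
  have hdF : Module.finrank ℚ F = 2 * 1 := fr3 F
  obtain ⟨f, hf⟩ := exists_VV ι hdF hUF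
  have hf1 := ne_of_base (Pool.Agent.K7.H73.L3.base3 F ι) hf
  obtain ⟨fD, hfD⟩ := exists_VV ((algebraMap (𝓞 F) (𝓞 D)).comp ι) (d := 2) (by
    rw [← Module.finrank_mul_finrank ℚ F D, fr3 F, h2D]) hUD
  have hm := hB.2 F D ι h2D ⟨r, hr⟩ fD f hfD hf
  -- the function of the twist
  obtain ⟨X, hX, hX2⟩ := exists_sgn (N := F) (K := D) h2D
  obtain ⟨a, ha⟩ := exists_rt ι
  obtain ⟨n0, hn0, hnr0⟩ := exists_odd (F := F) (K := D) hUD
  set n : ℕ := 3 * n0 with hndef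
  have hn : Odd n := Odd.mul (by decide) hn0
  have h3n : 3 ∣ n := ⟨n0, rfl⟩
  have hnr : ∀ w : HeightOneSpectrum (𝓞 D), Rm F w → (n : 𝓞 F) ∈ (dn F w).asIdeal := by
    intro w hw
    rw [hndef, Nat.cast_mul]
    exact Ideal.mul_mem_left _ _ (hnr0 w hw)
  have hU' : ∀ v : HeightOneSpectrum (𝓞 F), (2 : 𝓞 F) ∈ v.asIdeal →
      v.valuation F 2 = WithZero.exp (-1 : ℤ) := fun v hv => hUF v (by exact_mod_cast hv)
  have iX : IH n (fun I : Ideal (𝓞 F) => X0 3 I * XR X I) := XR3_ih ha hdF hU' hX2 hn h3n hnr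
  obtain ⟨g, -, hg, -, -⟩ := core_gen2 F ι 1 hdF hUF n _ _ iX iX hn
  have h2P : ∀ w : HeightOneSpectrum (𝓞 D), Rm F w → (2 : 𝓞 F) ∉ (dn F w).asIdeal := by
    intro w hw h2w
    obtain ⟨j, hj⟩ := hn
    apply (dn F w).isPrime.ne_top
    rw [Ideal.eq_top_iff_one]
    have : (1 : 𝓞 F) = (n : 𝓞 F) - 2 * (j : 𝓞 F) := by
      rw [hj]
      push_cast
      ring
    rw [this]
    exact Ideal.sub_mem _ (hnr w hw) (Ideal.mul_mem_right _ _ h2w)
  have e1 := L_prod_ev h2D hX h2P hfD hf iX hg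
  have l1 : LC g m c := by
    have := hm.div_left hf.an hf1 e1
    rwa [mul_div_cancel_left₀ _ hf1] at this
  have hreal : ∀ I : Ideal (𝓞 F), (starRingEnd ℂ) (X0 3 I * XR X I) = X0 3 I * XR X I := by
    intro I
    rcases sgn_XR hX2 I with h | h
    · simp only at h
      rw [h, map_zero]
    · rcases h with h | h
      · simp only at h
        rw [h, map_one]
      · simp only at h
        rw [h, map_neg, map_one]
  -- the rational numbers
  have hG0 : GoodG ℚ := good3 (M := F) (K := F) ⟨0, by rw [Module.finrank_self, pow_zero]⟩ (gd_self F)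
  have hNG0 : NG ℚ := ngs3 (F := F) (K := F) ⟨0, by rw [Module.finrank_self, pow_zero]⟩
  have hA0 : Add3 ℚ := add3_of_ng hNG0
  have hU0 : Unr2 ℚ := unr2_down (F := ℚ) (K := F) hUF
  have hp0 : Pd d ℚ := d_down (N := ℚ) hd hp
  obtain ⟨D0, _, _, _, h2D0, r0, hr0⟩ := exists_qd hd ℚ hp0
  have hgD0 : IsGalois ℚ D0 := gal2' h2D0
  have hUD0 : Unr2 D0 := unr2_d hd hp0 h2D0 hr0 hU0
  obtain ⟨Y, hY, hY2⟩ := exists_sgn (N := ℚ) (K := D0) h2D0
  have hSq : Sq (d : ℚ) r0 := by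
    refine ⟨d_neF hd, ?_, ?_⟩
    · rw [hr0, map_intCast]
    · intro σ hσ
      exact d_one hd hp0 h2D0 hr0 hσ
  choose ε h1 h2 h3' h4 using hloc_tw hSq hG0 hNG0 hUD0 hY
  have hbd' : ∀ v : HeightOneSpectrum (𝓞 ℚ), HBd (aV (Ed (d : ℚ)) v) (eV (Ed (d : ℚ)) v) (nK v) := by
    intro v
    rw [h3' v, h4 v]
    exact hbd_mul (hbd hG0 v) (h1 v)
  have hns : ∀ x : ℚ, x ^ 2 ≠ -3 := fun x hx => by nlinarith [sq_nonneg x]
  obtain ⟨τ, Q⟩ := mkQe (K₀ := ℚ) (K := F) hdF hA0 hns (iE ι)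
  have hL : ∀ s : ℂ, 3 / 2 < s.re → HasProd (fun v : HeightOneSpectrum (𝓞 ℚ) =>
      (1 - (aV (Ed (d : ℚ)) v : ℂ) * (nK v : ℂ) ^ (-s) +
        (eV (Ed (d : ℚ)) v : ℂ) * ((nK v : ℂ) ^ (-s)) ^ 2)⁻¹) ((Ed (d : ℚ)).LSeries s) := fun s hs =>
    (LSeries_hasProd' (Ed (d : ℚ)) hbd' hs).2
  have hΦ : ∀ s : ℂ, 3 / 2 < s.re →
      (starRingEnd ℂ) (g ((starRingEnd ℂ) s)) = (Ed (d : ℚ)).LSeries s := by
    intro s hs
    have k3 := conj_prodh iX hreal hg hs
    have k4 := (Equiv.sigmaFiberEquiv (und0 ℚ (K := F))).hasProd_iff.2 k3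
    have k5 := k4.sigma (g := fun v => (1 - (aV (Ed (d : ℚ)) v : ℂ) * (nK v : ℂ) ^ (-s) +
        (eV (Ed (d : ℚ)) v : ℂ) * ((nK v : ℂ) ^ (-s)) ^ 2)⁻¹) fun v => by
      have hX0 : ∀ w : HeightOneSpectrum (𝓞 F), (3 : 𝓞 F) ∉ w.asIdeal →
          X0 3 w.asIdeal * XR X w.asIdeal =
            ((quadraticChar (ZMod d.natAbs) ((nK w : ℕ) : ZMod d.natAbs) : ℤ) : ℂ) := by
        intro w hw3
        have h31 : X0 3 w.asIdeal = 1 := X0_pos (by
          rw [prime_cop_iff]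
          exact_mod_cast hw3)
        rw [h31, one_mul, XR_d hd hp h2D hr hX w]
        rfl
      have hε : (ε v : ℂ) =
          ((quadraticChar (ZMod d.natAbs) ((nK v : ℕ) : ZMod d.natAbs) : ℤ) : ℂ) := by
        rw [← h2 v, XR_d hd hp0 h2D0 hr0 hY v]
        rfl
      have k6 := fib_tw Q v s (z := fun w => X0 3 w.asIdeal * XR X w.asIdeal) (ε := (ε v : ℂ))
        (fun w hw => by
          rw [X0_neg, zero_mul]
          rw [prime_cop_iff, not_not]
          exact_mod_cast hw)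
        (fun w hw3 _ hn => by rw [hX0 w hw3, hn, hε])
        (fun w hw3 _ hn => by
          rw [hX0 w hw3, hn, hε, Nat.cast_pow, map_pow]
          push_cast
          rfl)
      have e : ((ε v : ℂ) * (aV (E0 ℚ) v : ℂ)) = ((aV (Ed (d : ℚ)) v : ℤ) : ℂ) := by
        rw [h3' v]
        push_cast
        rfl
      have e' : ((ε v : ℂ) ^ 2 * (eV (E0 ℚ) v : ℂ)) = ((eV (Ed (d : ℚ)) v : ℤ) : ℂ) := by
        rw [h4 v]
        push_cast
        rfl
      rw [e, e'] at k6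
      exact k6
    exact k5.unique (hL s hs)
  have l2 : LC (fun s => (starRingEnd ℂ) (g ((starRingEnd ℂ) s))) m ((starRingEnd ℂ) c) := l1.conj
  have hmc : MeromorphicOn (fun s => (starRingEnd ℂ) (g ((starRingEnd ℂ) s))) Set.univ :=
    mero_conj hg.mero
  have hev : g =ᶠ[𝓝 1] (fun s => (starRingEnd ℂ) (g ((starRingEnd ℂ) s))) := by
    refine mero_ev hg.mero hmc (fun s hs => ?_) hg.an (an_conj (by rw [map_one]; exact hg.an))
    have hs' : 3 / 2 < ((starRingEnd ℂ) s).re := by rwa [Complex.conj_re]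
    rw [hΦ s hs]
    have h5 := hΦ _ hs'
    rw [Complex.conj_conj] at h5
    have h6 := real_prod hL hs
    rw [← h5, Complex.conj_conj] at h6
    exact h6
  have hc : c = (starRingEnd ℂ) c := ((l2.congr hev).uniq l1).2.symm
  refine ⟨?_, hc.symm⟩
  rw [← hc] at l2
  exact ldc_of hmc (fun s hs => ⟨(LSeries_hasProd' (Ed (d : ℚ)) hbd' hs).1, hΦ s hs⟩) l2

end Pool.Agent.H98.W
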