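import Pool.Agent.H98.W.Td

/-!
# The Tamagawa number at the prime where the curve is twisted, over the rational numbers
-/

set_option autoImplicit false
set_option linter.unusedSectionVars false
set_option linter.unusedVariables false

open NumberField IsDedekindDomain WeierstrassCurve WithZero
open scoped Classical

namespace Pool.Agent.H98.W

open Pool.Agent.Y682 (vv vv_coe norm_le_iff exists_approx)
open Pool.Agent.Y696 (IsPeriods period)
open Pool.Agent.Y700 (VR)
open Pool.Agent.Y655.XT (vr_of_smul)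
open Pool.Agent.K7.H73.L3
open Pool.Agent.K7.H73.T2
open Pool.Agent.K7.H70.TW (Ed Ed_eq Wtn)
open Pool.Agent.K7.H70.SM (NG)
open Pool.Agent.H98.R
open Pool.Agent.H98.Q

section
variable {K : Type} [Field K] [NumberField K] {v : HeightOneSpectrum (𝓞 K)}
  {t : v.adicCompletion K}

/-- a small point is close to the point of order two -/
lemma small_root2 (h5 : vv v t = exp (-1 : ℤ)) (h2 : vv v 2 = 1) (h3 : vv v 3 = 1)
    (hnw : ∀ w : v.adicCompletion K, w ^ 2 + w + 1 ≠ 0) {x y x₀ : v.adicCompletion K}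
    (hxy : y ^ 2 = x ^ 3 + 16 * t ^ 3) (hx : vv v x < 1) (h₀ : (0 : v.adicCompletion K) ^ 2 =
      x₀ ^ 3 + 16 * t ^ 3) (hx₀ : vv v x₀ < 1) : vv v (x - x₀) ≤ exp (-2 : ℤ) := by
  have hvx := small_x h5 h2 hxy hx
  have hvx0 := small_x h5 h2 h₀ hx₀
  have hx00 : x₀ ≠ 0 := by
    rintro rfl
    rw [map_zero] at hvx0
    exact exp_ne_zero hvx0.symm
  obtain ⟨s, hs⟩ : ∃ s, s = x / x₀ := ⟨_, rfl⟩
  have hxs : x = s * x₀ := by
    rw [hs]
    field_simp
  have hvs : vv v s = 1 := by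
    rw [hs, map_div₀, hvx, hvx0, div_self exp_ne_zero]
  have key : vv v (s ^ 2 + s + 1) = 1 := by
    have hle : vv v (s ^ 2 + s + 1) ≤ 1 := by
      refine (Valuation.map_add _ _ _).trans (max_le ((Valuation.map_add _ _ _).trans
        (max_le ?_ hvs.le)) (by rw [map_one]))
      rw [map_pow, hvs, one_pow]
    by_contra hne
    have hlt := lt_of_le_of_ne hle hne
    have hd : vv v (2 * s + 1) = 1 := by
      have h6 : vv v ((2 * s + 1) ^ 2) = 1 := by
        have e : (2 * s + 1) ^ 2 = -3 + 2 ^ 2 * (s ^ 2 + s + 1) := by ring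
        rw [e, Valuation.map_add_eq_of_lt_left (vv v), Valuation.map_neg, h3]
        rw [Valuation.map_neg, h3, map_mul, map_pow, h2, one_pow, one_mul]
        exact hlt
      rw [map_pow] at h6
      exact (pow_eq_one_iff_of_nonneg zero_le two_ne_zero).1 h6
    obtain ⟨z, hz⟩ := hensel_cubic v (g₀ := s ^ 2 + s + 1) (g₁ := 2 * s + 1) (g₂ := 1) (g₃ := 0)
      hlt hd (by rw [map_one]) (by rw [map_zero]; exact zero_le)
    exact hnw (s + z) (by linear_combination hz)
  have h6 := (small_y h5 h2 hxy hx).1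
  have h7 : vv v (x - x₀) * exp (-2 : ℤ) = vv v (y ^ 2) := by
    have e : (x - x₀) * (x₀ ^ 2 * (s ^ 2 + s + 1)) = y ^ 2 := by
      rw [hxs] at hxy ⊢
      linear_combination -hxy + h₀
    rw [← e, map_mul, map_mul, key, mul_one, map_pow, hvx0, ← exp_nsmul]
    rfl
  rw [← h7] at h6
  have e4 : exp (-4 : ℤ) = exp (-2 : ℤ) * exp (-2 : ℤ) := by
    rw [← exp_add]
    rfl
  rw [e4] at h6
  exact le_of_mul_le_mul_right h6 (zero_lt_iff.2 exp_ne_zero)

/-- the points of order two -/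
lemma tors_iff2 [NeZero t] [CharZero (v.adicCompletion K)]
    {x y : v.adicCompletion K} (hxy : y ^ 2 = x ^ 3 + 16 * t ^ 3) :
    pt hxy + pt hxy = 0 ↔ y = 0 := by
  constructor
  · intro h
    by_contra hy
    obtain ⟨l, x3, y3, hxy3, e1, e2, e3, e4, e5⟩ := add_pt hxy hxy (by
      rintro ⟨-, h6⟩
      apply hy
      have : (2 : v.adicCompletion K) * y = 0 := by linear_combination h6
      exact (mul_eq_zero.1 this).resolve_left two_ne_zero)
    rw [e5] at h
    exact pt_ne _ h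
  · intro hy
    exact add_zero_iff hxy hxy ⟨rfl, by rw [hy, neg_zero]⟩

/-- **the index is two** -/
theorem idx_two (h5 : vv v t = exp (-1 : ℤ)) (h2 : vv v 2 = 1) (h3 : vv v 3 = 1)
    {r : v.adicCompletion K} (hr : r ^ 3 = 2) (hnw : ∀ w : v.adicCompletion K, w ^ 2 + w + 1 ≠ 0) :
    (ns (vv v) (Ed t)).index = 2 := by
  have hcz : CharZero (v.adicCompletion K) :=
    charZero_of_injective_algebraMap (algebraMap K (v.adicCompletion K)).injective
  have ht0 : t ≠ 0 := by
    rintro rfl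
    rw [map_zero] at h5
    exact exp_ne_zero h5.symm
  have hne : NeZero t := ⟨ht0⟩
  have hr0 : r ≠ 0 := by
    rintro rfl
    norm_num at hr
  have h20 : (2 : v.adicCompletion K) ≠ 0 := two_ne_zero
  set x₀ : v.adicCompletion K := -(2 * r * t) with hx₀
  have hx₀0 : x₀ ≠ 0 := neg_ne_zero.2 (mul_ne_zero (mul_ne_zero h20 hr0) ht0)
  have hx3 : x₀ ^ 3 = -(16 * t ^ 3) := by
    rw [hx₀]
    linear_combination (-8 * t ^ 3) * hr
  have hT : (0 : v.adicCompletion K) ^ 2 = x₀ ^ 3 + 16 * t ^ 3 := by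
    rw [hx3]
    ring
  have hvr : vv v r = 1 := by
    have h6 := congrArg (vv v) hr
    rw [map_pow, h2] at h6
    exact (pow_eq_one_iff_of_nonneg zero_le three_ne_zero).1 h6
  have hvx : vv v x₀ < 1 := by
    rw [hx₀, Valuation.map_neg, map_mul, map_mul, h2, hvr,
      h5, one_mul, one_mul, ← exp_zero, exp_lt_exp]
    norm_num
  -- the doubling
  set δ : (Ed t).toAffine.Point →+ (Ed t).toAffine.Point := nsmulAddMonoidHom 2 with hδ
  have hδ2 : ∀ P, δ P = P + P := fun P => two_nsmul P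
  have hns : ns (vv v) (Ed t) = δ.range := by
    have hg : gens (vv v) (Ed t) = δ.range := by
      ext P
      rw [gens_eq h5 h2 h3 P, AddMonoidHom.coe_range, Set.mem_range]
      constructor
      · rintro ⟨Q, rfl⟩
        exact ⟨Q, hδ2 Q⟩
      · rintro ⟨Q, rfl⟩
        exact ⟨Q, hδ2 Q⟩
    unfold ns
    rw [hg, AddSubgroup.closure_eq]
  have hbig : ∀ (x y : v.adicCompletion K) (hxy : y ^ 2 = x ^ 3 + 16 * t ^ 3), 1 ≤ vv v x →
      pt hxy ∈ δ.range := by
    intro x y hxy hx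
    rw [← hns]
    apply AddSubgroup.subset_closure
    intro x' y' hn he
    have he' : pt hxy = pt (eqn_iff.1 hn.1) := he
    rw [pt_inj] at he'
    obtain ⟨rfl, rfl⟩ := he'
    right
    have e2' : 3 * x ^ 2 + 2 * (Ed t).a₂ * x + (Ed t).a₄ - (Ed t).a₁ * y = 3 * x ^ 2 := by
      show 3 * x ^ 2 + 2 * 0 * x + 0 - 0 * y = _
      ring
    rw [e2', map_mul, map_pow, h3, one_mul]
    exact one_le_pow₀ hx
  have hsm : ∀ (x y : v.adicCompletion K) (hxy : y ^ 2 = x ^ 3 + 16 * t ^ 3), pt hxy ∈ δ.range →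
      y = 0 → False := by
    intro x y hxy hm hy
    have h6 : pt hxy ∈ gens (vv v) (Ed t) := by
      rw [gens_eq h5 h2 h3]
      obtain ⟨Q, hQ⟩ := hm
      exact ⟨Q, by rw [← hQ, hδ2]⟩
    have h := h6 x y (ns_of hxy) rfl
    have e1 : 2 * y + (Ed t).a₁ * x + (Ed t).a₃ = 0 := by
      show 2 * y + 0 * x + 0 = _
      rw [hy]
      ring
    have e2 : 3 * x ^ 2 + 2 * (Ed t).a₂ * x + (Ed t).a₄ - (Ed t).a₁ * y = 3 * x ^ 2 := by
      show 3 * x ^ 2 + 2 * 0 * x + 0 - 0 * y = _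
      ring
    rw [e1, e2, map_zero, map_mul, map_pow, h3, one_mul] at h
    have hx3' : vv v x ^ 3 = exp (-3 : ℤ) := by
      have e : x ^ 3 = -(16 * t ^ 3) := by
        rw [hy] at hxy
        linear_combination -hxy
      rw [← map_pow, e, Valuation.map_neg, v16 h5 h2]
    rcases h with h | h
    · exact absurd h (not_le.2 zero_lt_one)
    · have h7 : 1 ≤ vv v x := by
        by_contra hcon
        push Not at hcon
        exact absurd h (not_le.2 (pow_lt_one₀ zero_le hcon two_ne_zero))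
      have h8 : 1 ≤ vv v x ^ 3 := one_le_pow₀ h7
      rw [hx3', ← exp_zero, exp_le_exp] at h8
      omega
  -- the kernel
  have hker : (δ.ker : Set (Ed t).toAffine.Point) = {0, pt hT} := by
    ext P
    simp only [SetLike.mem_coe, AddMonoidHom.mem_ker, Set.mem_insert_iff, Set.mem_singleton_iff,
      hδ2]
    constructor
    · intro hP
      rcases pt_cases P with rfl | ⟨x, y, hxy, rfl⟩
      · exact Or.inl rfl
      · right
        have hy := (tors_iff2 hxy).1 hP
        have hx : (x - x₀) * (x ^ 2 + x * x₀ + x₀ ^ 2) = 0 := by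
          have e : (x - x₀) * (x ^ 2 + x * x₀ + x₀ ^ 2) = x ^ 3 - x₀ ^ 3 := by ring
          rw [e, hx3]
          rw [hy] at hxy
          linear_combination -hxy
        rcases mul_eq_zero.1 hx with h | h
        · rw [pt_inj]
          exact ⟨sub_eq_zero.1 h, hy⟩
        · exfalso
          apply hnw (x / x₀)
          field_simp
          linear_combination h
    · rintro (rfl | rfl)
      · exact add_zero 0
      · exact (tors_iff2 _).2 rfl
  have hcard : Nat.card δ.ker = 2 := by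
    have h6 : Nat.card δ.ker = Set.ncard (δ.ker : Set (Ed t).toAffine.Point) := rfl
    rw [h6, hker, Set.ncard_pair]
    exact (pt_ne _).symm
  -- the index
  rw [hns, ← hcard]
  refine (Nat.card_congr (Equiv.ofBijective
    (fun T : δ.ker => (QuotientAddGroup.mk (T : (Ed t).toAffine.Point) :
      (Ed t).toAffine.Point ⧸ δ.range)) ⟨?_, ?_⟩)).symm
  · rintro ⟨S, hS⟩ ⟨T, hT'⟩ h
    have h6 : -S + T ∈ δ.range := QuotientAddGroup.eq.1 h
    have h7 : -S + T ∈ δ.ker := δ.ker.add_mem (δ.ker.neg_mem hS) hT'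
    have h8 : -S + T = 0 := by
      rcases pt_cases (-S + T) with h0 | ⟨x, y, hxy, h0⟩
      · exact h0
      · exfalso
        rw [h0] at h6 h7
        rw [AddMonoidHom.mem_ker, hδ2] at h7
        exact hsm x y hxy h6 ((tors_iff2 hxy).1 h7)
    apply Subtype.ext
    show S = T
    rw [neg_add_eq_zero] at h8
    exact h8
  · intro q
    obtain ⟨P, rfl⟩ := QuotientAddGroup.mk_surjective q
    rcases pt_cases P with rfl | ⟨x, y, hxy, rfl⟩
    · exact ⟨⟨0, δ.ker.zero_mem⟩, rfl⟩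
    · by_cases hx : 1 ≤ vv v x
      · refine ⟨⟨0, δ.ker.zero_mem⟩, ?_⟩
        show (QuotientAddGroup.mk 0 : (Ed t).toAffine.Point ⧸ δ.range) = QuotientAddGroup.mk (pt hxy)
        rw [QuotientAddGroup.eq, neg_zero, zero_add]
        exact hbig x y hxy hx
      · rw [not_le] at hx
        have hi := small_root2 h5 h2 h3 hnw hxy hx hT hvx
        have hTk : pt hT ∈ δ.ker := by
          rw [AddMonoidHom.mem_ker, hδ2]
          exact (tors_iff2 hT).2 rfl
        refine ⟨⟨pt hT, hTk⟩, ?_⟩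
        show (QuotientAddGroup.mk (pt hT) : (Ed t).toAffine.Point ⧸ δ.range) =
          QuotientAddGroup.mk (pt hxy)
        rw [QuotientAddGroup.eq]
        have hneg : -pt hT = pt hT := by
          have h7 : pt hT + pt hT = 0 := (tors_iff2 hT).2 rfl
          exact neg_eq_of_add_eq_zero_left h7
        rw [hneg, add_comm]
        by_cases hc : x = x₀ ∧ y = -0
        · rw [add_zero_iff hxy hT hc]
          exact δ.range.zero_mem
        · obtain ⟨l, x3, y3, hxy3, e1, e2, e3, e4, e5⟩ := add_pt hxy hT hc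
          rw [e5]
          apply hbig
          rw [e3]
          exact big_add h5 h2 h3 hxy hx hT hvx hi e2

end

section p
variable {K : Type} [Field K] [NumberField K] {d : ℤ}

/-- **the Tamagawa number at the prime `d`** -/
theorem cc_d2 (hd : Dd d) (hp : Pd d K)
    (hnw : ∀ w : (pd hd hp).adicCompletion K, w ^ 2 + w + 1 ≠ 0) {W : WeierstrassCurve K}
    {C : VariableChange K} (hW : W = C • Ed (d : K)) : cc W (pd hd hp) = 2 := by
  set v := pd hd hp with hv
  have hcz : CharZero (v.adicCompletion K) :=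
    charZero_of_injective_algebraMap (algebraMap K (v.adicCompletion K)).injective
  have h2 : vv v 2 = 1 := by
    have e : (2 : v.adicCompletion K) = algebraMap K (v.adicCompletion K) 2 := by rw [map_ofNat]
    rw [e, vv_coe]
    exact vd_two hd hp
  have h3 : vv v 3 = 1 := by
    have e : (3 : v.adicCompletion K) = algebraMap K (v.adicCompletion K) 3 := by rw [map_ofNat]
    rw [e, vv_coe]
    exact vd_three hd hp
  obtain ⟨t, ht⟩ : ∃ t : v.adicCompletion K, t = algebraMap K (v.adicCompletion K) (d : K) := ⟨_, rfl⟩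
  have h5 : vv v t = exp (-1 : ℤ) := by
    rw [ht, vv_coe]
    exact vd_d hd hp
  have hE : (Ed (d : K)).baseChange (v.adicCompletion K) = Ed t := by
    show (Ed (d : K)).map (algebraMap K (v.adicCompletion K)) = _
    unfold Ed WeierstrassCurve.map
    simp only [map_zero, map_pow, map_mul, map_ofNat, ht]
  obtain ⟨x0, hx0⟩ := bad_pd hd hp
  obtain ⟨r, hr⟩ := exists_cbrt v h2 h3 hx0
  have h4 := idx_two h5 h2 h3 hr hnw
  have ht0 : t ≠ 0 := by
    rintro rfl
    rw [map_zero] at h5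
    exact exp_ne_zero h5.symm
  have hne : NeZero t := ⟨ht0⟩
  obtain ⟨C1, hC1⟩ : ∃ C1 : VariableChange (v.adicCompletion K),
    C1 = Cv W v * C.map (algebraMap K (v.adicCompletion K)) := ⟨_, rfl⟩
  have hC : C1 • Ed t = mineq W v := by
    rw [hC1, mul_smul, ← hE, ← bc_smul, mineq_eq, hW]
  have hΔ : (Ed t).Δ = -(2 ^ 12 * 3 ^ 3 * t ^ 6) := by
    simp [WeierstrassCurve.Δ, WeierstrassCurve.b₂, WeierstrassCurve.b₄, WeierstrassCurve.b₆,
      WeierstrassCurve.b₈]
    ring
  have hvΔ : vv v (Ed t).Δ = exp (-6 : ℤ) := by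
    rw [hΔ, Valuation.map_neg, map_mul, map_mul, map_pow, map_pow, map_pow, h2, h3, h5, one_pow,
      one_pow, one_mul, one_mul, ← exp_nsmul]
    rfl
  have hI : WeierstrassCurve.IsIntegral (v.adicCompletionIntegers K) (Ed t) := by
    refine ⟨⟨⟨0, 0, 0, 0, ⟨16 * t ^ 3, ?_⟩⟩, ?_⟩⟩
    · show vv v (16 * t ^ 3) ≤ 1
      rw [v16 h5 h2, ← exp_zero, exp_le_exp]
      norm_num
    · unfold Ed
      simp only [WeierstrassCurve.baseChange, WeierstrassCurve.map, map_zero]
      rfl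
  have hu := minimal_u12 hC hI (by
    rw [show (Valued.v (Ed t).Δ : ℤᵐ⁰) = exp (-6 : ℤ) from hvΔ, exp_lt_exp]
    norm_num) (min_mineq _ v)
  have hVW := vr_of_smul hC
  have hitg : Itg (vv v) (mineq W v) := by
    have h9 := min_mineq W v
    exact itg_of v inferInstance
  have hs : vv v C1.s ≤ 1 := by
    have h4 := hVW.e1
    have h5 : (Ed t).a₁ = 0 := rfl
    rw [h5, zero_add] at h4
    have h6 := congrArg (vv v) h4
    rw [map_mul, map_mul, h2, one_mul, show vv v _ = 1 from hu, one_mul] at h6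
    rw [← h6]
    exact hitg.a1
  have hD : (mineq W v).Δ ≠ 0 := by
    intro h0
    apply Et_Δ (t := t)
    rw [hVW.delta, h0, mul_zero]
  unfold cc
  rw [ns_index hVW hD hu hs]
  exact h4

end p

section
variable {k : Type} [Field k] [NumberField k] {v : HeightOneSpectrum (𝓞 k)}

/-- **the product of the local terms** -/
theorem CE_valN {W : WeierstrassCurve k} (hD : W.Δ ≠ 0) {p : HeightOneSpectrum (𝓞 k)}
    {n₀ : ℕ} (hn₀ : n₀ ≠ 0) (hp : cc W p = n₀) (hodd : ∀ v : HeightOneSpectrum (𝓞 k), v ≠ p → Odd (cc W v))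
    (h2 : ∀ v : HeightOneSpectrum (𝓞 k), (2 : 𝓞 k) ∈ v.asIdeal → Valued.v (mineq W v).Δ = 1) :
    0 < CE W ∧ ∀ (Γ : Type) [LinearOrderedCommGroupWithZero Γ]
      (v : Valuation ℂ Γ), v 2 < 1 →
        v ((CE W : ℝ) : ℂ) ^ 12 = v (n₀ : ℂ) ^ 12 * v (((Algebra.norm ℚ W.Δ : ℚ) : ℂ)) := by
  have hbf := bad_finite hD
  have f1 : (Function.mulSupport fun v : HeightOneSpectrum (𝓞 k) => ((cc W v : ℕ) : ℝ)).Finite := by
    refine hbf.subset fun v hv => ?_
    by_contra h3
    refine hv ?_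
    show ((cc W v : ℕ) : ℝ) = 1
    rw [(off_bad h3).2.1, Nat.cast_one]
  have f2 : (Function.mulSupport fun v : HeightOneSpectrum (𝓞 k) => mf W v).Finite := by
    refine hbf.subset fun v hv => ?_
    by_contra h3
    exact hv (off_bad h3).2.2
  have f3 : (Function.mulSupport fun v : HeightOneSpectrum (𝓞 k) => cc W v).Finite := by
    refine hbf.subset fun v hv => ?_
    by_contra h3
    exact hv (off_bad h3).2.1
  have f4 : (Function.mulSupport fun v : HeightOneSpectrum (𝓞 k) => ‖(mineq W v).Δ‖).Finite := by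
    refine hbf.subset fun v hv => ?_
    by_contra h3
    exact hv (norm_one_of (off_bad h3).1)
  have f5 : (Function.mulSupport fun v : HeightOneSpectrum (𝓞 k) =>
      ‖algebraMap k (v.adicCompletion k) W.Δ‖).Finite := by
    refine hbf.subset fun v hv => ?_
    by_contra h3
    refine hv (norm_one_of ?_)
    rw [Pool.Agent.H723R3.valued_algebraMap]
    exact (not_not.1 h3).2.2.2.2.2
  have h4 : ((∏ᶠ v : HeightOneSpectrum (𝓞 k), cc W v : ℕ) : ℝ) =
      ∏ᶠ v : HeightOneSpectrum (𝓞 k), ((cc W v : ℕ) : ℝ) :=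
    (Nat.castRingHom ℝ).toMonoidHom.map_finprod f3
  set c : ℕ := ∏ᶠ v : HeightOneSpectrum (𝓞 k), cc W v with hc
  obtain ⟨c1, hco, hc1⟩ : ∃ c1 : ℕ, Odd c1 ∧ c = n₀ * c1 := by
    refine ⟨∏ᶠ v : HeightOneSpectrum (𝓞 k), if v = p then 1 else cc W v, ?_, ?_⟩
    · refine finprod_induction (fun n : ℕ => Odd n) odd_one (fun _ _ ha hb => ha.mul hb) fun v => ?_
      by_cases hv : v = p
      · rw [if_pos hv]
        exact odd_one
      · rw [if_neg hv]
        exact hodd v hv
    · have e1 : ∀ v : HeightOneSpectrum (𝓞 k), cc W v =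
          (if v = p then n₀ else 1) * (if v = p then 1 else cc W v) := by
        intro v
        by_cases hv : v = p
        · rw [if_pos hv, if_pos hv, hv, hp, mul_one]
        · rw [if_neg hv, if_neg hv, one_mul]
      rw [hc, finprod_congr e1, finprod_mul_distrib, finprod_eq_single _ p]
      · rw [if_pos rfl]
      · intro v hv
        rw [if_neg hv]
      · refine (Set.finite_singleton p).subset fun v hv => ?_
        by_contra hcon
        exact hv (if_neg hcon)
      · refine f3.subset fun v hv h0 => hv ?_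
        have h0' : cc W v = 1 := h0
        show (if v = p then 1 else cc W v) = 1
        by_cases hvp : v = p
        · rw [if_pos hvp]
        · rw [if_neg hvp]
          exact h0'
  set P : ℝ := ∏ᶠ v : HeightOneSpectrum (𝓞 k), mf W v with hP
  have hCE : CE W = c * P := by
    unfold CE
    rw [finprod_mul_distrib f1 f2, ← h4]
  have hmf : ∀ v : HeightOneSpectrum (𝓞 k), 0 < mf W v := by
    intro v
    rw [mf_eq hD]
    have hN : (0 : ℝ) < (Ideal.absNorm v.asIdeal : ℝ) := by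
      exact_mod_cast Nat.pos_of_ne_zero fun h => v.ne_bot (Ideal.absNorm_eq_zero_iff.1 h)
    positivity
  have hP0 : 0 < P := finprod_induction (fun x : ℝ => 0 < x) one_pos
    (fun _ _ ha hb => mul_pos ha hb) fun v => hmf v
  obtain ⟨M, hM, hMe⟩ : ∃ M : ℕ, Odd M ∧
      ∏ᶠ v : HeightOneSpectrum (𝓞 k), ‖(mineq W v).Δ‖ = ((M : ℕ) : ℝ)⁻¹ := by
    refine finprod_induction (fun x : ℝ => ∃ M : ℕ, Odd M ∧ x = ((M : ℕ) : ℝ)⁻¹)
      ⟨1, odd_one, by simp⟩ ?_ fun v => norm_min W hD (h2 v)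
    rintro _ _ ⟨a, ha, rfl⟩ ⟨b, hb, rfl⟩
    exact ⟨a * b, ha.mul hb, by push_cast; rw [mul_inv]⟩
  have hP12 : P ^ 12 = ((M : ℕ) : ℝ)⁻¹ * |((Algebra.norm ℚ W.Δ : ℚ) : ℝ)| := by
    rw [hP, finprod_pow f2]
    have e : ∀ v : HeightOneSpectrum (𝓞 k), mf W v ^ 12 =
        ‖(mineq W v).Δ‖ / ‖algebraMap k (v.adicCompletion k) W.Δ‖ := by
      intro v
      have e : (W.baseChange (v.adicCompletion k)).Δ = algebraMap k (v.adicCompletion k) W.Δ :=
        WeierstrassCurve.map_Δ _ _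
      rw [mf_pow, e]
    rw [finprod_congr e, finprod_div_distrib f4 f5, hMe, prod_disc hD, div_inv_eq_mul]
  refine ⟨?_, ?_⟩
  · rw [hCE]
    refine mul_pos ?_ hP0
    exact_mod_cast Nat.pos_of_ne_zero fun h0 => by
      rw [h0] at hc1
      have h1 : c1 = 0 := (Nat.mul_eq_zero.1 hc1.symm).resolve_left hn₀
      rw [h1] at hco
      exact absurd hco (by decide)
  · intro Γ _ v hv
    have hv1 : ∀ n : ℕ, Odd n → v (n : ℂ) = 1 := fun n hn => by
      have := Pool.Agent.Y688.v_odd hv (n := (n : ℤ)) (by exact_mod_cast hn)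
      exact_mod_cast this
    have h7 : ((P : ℝ) : ℂ) ^ 12 = ((M : ℕ) : ℂ)⁻¹ *
        ((|((Algebra.norm ℚ W.Δ : ℚ) : ℝ)| : ℝ) : ℂ) := by
      rw [← Complex.ofReal_pow, hP12]
      push_cast
      rfl
    rw [hCE, hc1]
    push_cast
    rw [map_mul, map_mul, hv1 c1 hco, mul_one, mul_pow]
    congr 1
    rw [← map_pow, h7, map_mul, map_inv₀, hv1 M hM, inv_one, one_mul]
    rcases abs_choice ((Algebra.norm ℚ W.Δ : ℚ) : ℝ) with h8 | h8
    · rw [h8]
      norm_cast
    · rw [h8]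
      push_cast
      rw [Valuation.map_neg]

/-- **the square of the product of the local terms** -/
theorem CE_sqN {W : WeierstrassCurve k} {δ : k} (h4 : W.c₄ = 0) (h6 : W.c₆ = -216 * δ ^ 3)
    (hδ : δ ≠ 0) {p : HeightOneSpectrum (𝓞 k)}
    {n₀ : ℕ} (hn₀ : n₀ ≠ 0) (hp : cc W p = n₀) (hodd : ∀ v : HeightOneSpectrum (𝓞 k), v ≠ p → Odd (cc W v))
    (h2 : ∀ v : HeightOneSpectrum (𝓞 k), (2 : 𝓞 k) ∈ v.asIdeal → Valued.v (mineq W v).Δ = 1) :
    0 < CE W ∧ ∀ (Γ : Type) [LinearOrderedCommGroupWithZero Γ]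
      (v : Valuation ℂ Γ), v 2 < 1 →
        v ((CE W : ℝ) : ℂ) ^ 2 = v (n₀ : ℂ) ^ 2 * v (((Algebra.norm ℚ δ : ℚ) : ℂ)) := by
  have hΔ := disc_eq h4 h6
  have hD : W.Δ ≠ 0 := by
    rw [hΔ]
    exact mul_ne_zero (by norm_num) (pow_ne_zero 6 hδ)
  obtain ⟨h0, h7⟩ := CE_valN hD hn₀ hp hodd h2
  refine ⟨h0, ?_⟩
  intro Γ _ v hv
  have h8 := h7 Γ v hv
  have h27 : v (27 : ℂ) = 1 := by
    have := Pool.Agent.Y688.v_odd hv (n := 27) (by decide)
    exact_mod_cast this
  have e27 : Algebra.norm ℚ (-27 : k) = (-27) ^ Module.finrank ℚ k := by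
    have : (-27 : k) = algebraMap ℚ k (-27) := by rw [map_neg, map_ofNat]
    rw [this, Algebra.norm_algebraMap]
  rw [hΔ, map_mul, map_pow, e27] at h8
  push_cast at h8
  rw [map_mul, map_pow, Valuation.map_neg, h27, one_pow, one_mul, map_pow] at h8
  have h9 : (v ((CE W : ℝ) : ℂ) ^ 2) ^ 6 = (v (n₀ : ℂ) ^ 2 * v (((Algebra.norm ℚ δ : ℚ) : ℂ))) ^ 6 := by
    rw [← pow_mul, mul_pow, ← pow_mul]
    exact h8
  exact (pow_left_inj₀ zero_le zero_le (by norm_num : (6 : ℕ) ≠ 0)).1 h9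

end

section pl
variable {K : Type} [Field K] [NumberField K] {d : ℤ}

/-- **the periods and the Tamagawa numbers** -/
theorem om_ce2 (hd : Dd d) (hp : Pd d K) (hNG : NG K)
    (hnw : ∀ w : (pd hd hp).adicCompletion K, w ^ 2 + w + 1 ≠ 0)
    {W : WeierstrassCurve K} {C : VariableChange K} (hC : C • W = Ed (d : K)) :
    0 < Om W ∧ 0 < CE W ∧ ∀ (Λ : PeriodPair) (w : ℝ), IsPeriods Λ w →
      ∀ (Γ : Type) [LinearOrderedCommGroupWithZero Γ] (v : Valuation ℂ Γ), v 2 < 1 →
        v ((Om W : ℝ) : ℂ) * v ((CE W : ℝ) : ℂ) = v 2 * v (period K Λ w) := by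
  have hd0 : (d : K) ≠ 0 := d_neF hd
  have hW : W = C⁻¹ • Ed (d : K) := by rw [← hC, inv_smul_smul]
  obtain ⟨h4, h6⟩ := form_inv hC
  set δ : K := 4 * (C.u : K) ^ 2 * d with hδd
  have hδ : δ ≠ 0 := by
    rw [hδd]
    exact mul_ne_zero (mul_ne_zero (by norm_num) (pow_ne_zero 2 (Units.ne_zero _))) hd0
  have hcc := cc_d2 hd hp hnw hW
  have hodd : ∀ v : HeightOneSpectrum (𝓞 K), v ≠ pd hd hp → Odd (cc W v) := by
    intro v hv
    rcases places hd hp hNG hW hv with h | ⟨h, h'⟩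
    · rw [(good_place h).2]
      exact odd_one
    · exact odd_place hd0 hW h h'
  have h2 : ∀ v : HeightOneSpectrum (𝓞 K), (2 : 𝓞 K) ∈ v.asIdeal →
      Valued.v (mineq W v).Δ = 1 := by
    intro v hv
    have h5 : v.valuation K (algebraMap (𝓞 K) K 2) < 1 :=
      (HeightOneSpectrum.valuation_lt_one_iff_mem (K := K) v 2).2 hv
    have e : (algebraMap (𝓞 K) K) 2 = 2 := map_ofNat (algebraMap (𝓞 K) K) 2
    rw [e] at h5
    have hvp : v ≠ pd hd hp := by
      rintro rfl
      have h6 : vd hd hp (2 : K) = 1 := vd_two hd hp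
      rw [show (pd hd hp).valuation K (2 : K) = vd hd hp (2 : K) from rfl, h6] at h5
      exact lt_irrefl _ h5
    rcases places hd hp hNG hW hvp with h | ⟨h, -⟩
    · exact (good_place h).1
    · exfalso
      rw [← vv_coe, map_ofNat, h] at h5
      exact lt_irrefl _ h5
  obtain ⟨hC0, hC1⟩ := CE_sqN h4 h6 hδ two_ne_zero hcc hodd h2
  have hOm0 : 0 < Om W := by
    obtain ⟨Λ, ω, p1, p2, p3⟩ := Pool.Agent.Y696.exists_real
    exact (Om_val h4 h6 hδ ⟨p1, p2, p3⟩).1
  refine ⟨hOm0, hC0, ?_⟩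
  intro Λ ω hΛ Γ _ v hv
  have e1 := (Om_val h4 h6 hδ hΛ).2 Γ v hv
  have e2 := hC1 Γ v hv
  rw [Nat.cast_ofNat] at e2
  have e3 : (v ((Om W : ℝ) : ℂ) * v ((CE W : ℝ) : ℂ)) ^ 2 =
      (v 2 * v (period K Λ ω)) ^ 2 := by
    rw [mul_pow, e2, mul_pow, ← e1]
    simp only [mul_assoc, mul_comm, mul_left_comm]
  exact (pow_left_inj₀ zero_le zero_le two_ne_zero).1 e3

end pl

section rat
variable {d : ℤ}

/-- divisibility in the rational integers -/
lemma dvd_Q {n : ℤ} (h : (d : 𝓞 ℚ) ∣ (n : 𝓞 ℚ)) : d ∣ n := by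
  obtain ⟨c, hc⟩ := h
  have := congrArg Rat.ringOfIntegersEquiv hc
  rw [map_mul, map_intCast, map_intCast] at this
  exact ⟨_, by exact_mod_cast this⟩

/-- there is no cube root of unity in the completion of the rational numbers -/
lemma no_w (hd : Dd d) (hp : Pd d ℚ) {v : HeightOneSpectrum (𝓞 ℚ)} (hv : v = pd hd hp)
    (w : v.adicCompletion ℚ) : w ^ 2 + w + 1 ≠ 0 := by
  intro hw
  have hFp : Fact d.natAbs.Prime := ⟨hd.pr⟩
  have hw3 : w ^ 3 = 1 := by linear_combination (w - 1) * hw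
  have hvw : vv v w = 1 := by
    have h6 := congrArg (vv v) hw3
    rw [map_pow, map_one] at h6
    exact (pow_eq_one_iff_of_nonneg zero_le three_ne_zero).1 h6
  obtain ⟨x, hx⟩ := exists_approx v w 1 one_ne_zero
  obtain ⟨X, hX⟩ : ∃ X : v.adicCompletion ℚ, X = algebraMap ℚ (v.adicCompletion ℚ) x := ⟨_, rfl⟩
  rw [← hX] at hx
  have hX1 : vv v X ≤ 1 := by
    have e : X = (X - w) + w := by ring
    rw [e]
    exact (Valuation.map_add _ _ _).trans (max_le hx.le hvw.le)
  have h1 : vv v (X ^ 2 + X + 1) < 1 := by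
    have e : X ^ 2 + X + 1 = (X - w) * (X + w + 1) := by linear_combination hw
    rw [e, map_mul]
    refine mul_lt_one_of_nonneg_of_lt_one_left zero_le hx ?_
    exact (Valuation.map_add _ _ _).trans (max_le ((Valuation.map_add _ _ _).trans
      (max_le hX1 hvw.le)) (by rw [map_one]))
  -- numerator and denominator
  set a := x.num with ha
  set b : ℤ := (x.den : ℤ) with hb
  have hb0 : (b : ℚ) ≠ 0 := by
    rw [hb]
    exact_mod_cast x.den_ne_zero
  have hxab : x * b = a := by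
    rw [hb, ha]
    exact_mod_cast Rat.mul_den_eq_num x
  have hvz : ∀ n : ℤ, v.valuation ℚ (n : ℚ) < 1 → d ∣ n := by
    intro n hn
    have e : (n : ℚ) = algebraMap (𝓞 ℚ) ℚ (n : 𝓞 ℚ) := by rw [map_intCast]
    rw [e] at hn
    have h3 : (n : 𝓞 ℚ) ∈ v.asIdeal := (HeightOneSpectrum.valuation_lt_one_iff_mem (K := ℚ) v _).1 hn
    rw [hv, mem_pd] at h3
    exact dvd_Q h3
  have hvle : ∀ n : ℤ, v.valuation ℚ (n : ℚ) ≤ 1 := by
    intro n
    have e : (n : ℚ) = algebraMap (𝓞 ℚ) ℚ (n : 𝓞 ℚ) := by rw [map_intCast]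
    rw [e]
    exact v.valuation_le_one _
  have hvx : v.valuation ℚ x ≤ 1 := by
    rw [← vv_coe, ← hX]
    exact hX1
  have hvx2 : v.valuation ℚ (x ^ 2 + x + 1) < 1 := by
    rw [← vv_coe]
    have e : algebraMap ℚ (v.adicCompletion ℚ) (x ^ 2 + x + 1) = X ^ 2 + X + 1 := by
      rw [map_add, map_add, map_pow, map_one, ← hX]
    rw [e]
    exact h1
  have h4 : d ∣ a ^ 2 + a * b + b ^ 2 := by
    apply hvz
    have e : (((a ^ 2 + a * b + b ^ 2 : ℤ)) : ℚ) = (b : ℚ) ^ 2 * (x ^ 2 + x + 1) := by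
      push_cast
      rw [← hxab]
      ring
    rw [e, map_mul]
    refine lt_of_le_of_lt (mul_le_of_le_one_left' ?_) hvx2
    rw [map_pow]
    exact pow_le_one' (hvle b) 2
  have h5 : ¬ d ∣ b := by
    intro hdb
    have h6 : d ∣ a ^ 2 := by
      have h7 : d ∣ a * b + b ^ 2 := dvd_add (Dvd.dvd.mul_left hdb _) (Dvd.dvd.pow hdb two_ne_zero)
      have h8 := dvd_sub h4 h7
      have e : a ^ 2 + a * b + b ^ 2 - (a * b + b ^ 2) = a ^ 2 := by ring
      rwa [e] at h8
    have hdp : Prime d := Int.prime_iff_natAbs_prime.2 hd.pr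
    have h7 : d ∣ a := hdp.dvd_of_dvd_pow h6
    have hcop : IsCoprime a b := by
      rw [Int.isCoprime_iff_nat_coprime, ha, hb, Int.natAbs_natCast]
      exact x.reduced
    exact hdp.not_isUnit (hcop.isUnit_of_dvd' h7 hdb)
  -- in the prime field
  have hz : ∀ n : ℤ, ((n : ℤ) : ZMod d.natAbs) = 0 ↔ d ∣ n := by
    intro n
    rw [ZMod.intCast_zmod_eq_zero_iff_dvd, Int.natAbs_dvd]
  have hb1 : ((b : ℤ) : ZMod d.natAbs) ≠ 0 := fun h => h5 ((hz b).1 h)
  have hab : ((a : ℤ) : ZMod d.natAbs) ^ 2 + (a : ℤ) * (b : ℤ) + ((b : ℤ) : ZMod d.natAbs) ^ 2 = 0 := by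
    have := (hz _).2 h4
    push_cast at this
    exact this
  obtain ⟨c, hc⟩ : ∃ c : ZMod d.natAbs, c = (a : ZMod d.natAbs) / (b : ZMod d.natAbs) := ⟨_, rfl⟩
  have hcc : c ^ 2 + c + 1 = 0 := by
    rw [hc]
    field_simp
    linear_combination hab
  have hc3 : c ^ 3 = 1 := by linear_combination (c - 1) * hcc
  have hc0 : c ≠ 0 := by
    rintro h0
    rw [h0] at hcc
    norm_num at hcc
  have hc1 : c ≠ 1 := by
    intro h1'
    rw [h1'] at hcc
    have h33 : ((3 : ℤ) : ZMod d.natAbs) = 0 := by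
      push_cast
      linear_combination hcc
    have h34 := (hz 3).1 h33
    have h35 : d.natAbs ∣ 3 := by
      have := Int.natAbs_dvd_natAbs.2 h34
      simpa using this
    have h36 := (Nat.prime_dvd_prime_iff_eq hd.pr Nat.prime_three).1 h35
    have := hd.m3
    rw [h36] at this
    norm_num at this
  have hF3 : Fact (Nat.Prime 3) := ⟨Nat.prime_three⟩
  have hord : orderOf c = 3 := orderOf_eq_prime hc3 hc1
  have h6 : 3 ∣ d.natAbs - 1 := by
    rw [← hord]
    exact orderOf_dvd_of_pow_eq_one (ZMod.pow_card_sub_one_eq_one hc0)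
  have h7 := hd.m3
  have h8 := hd.pr.two_le
  omega

/-- **the periods and the Tamagawa numbers over the rational numbers** -/
theorem om_ce_Q (hd : Dd d) (hp : Pd d ℚ) (hNG : NG ℚ)
    {W : WeierstrassCurve ℚ} {C : VariableChange ℚ} (hC : C • W = Ed (d : ℚ)) :
    0 < Om W ∧ 0 < CE W ∧ ∀ (Λ : PeriodPair) (w : ℝ), IsPeriods Λ w →
      ∀ (Γ : Type) [LinearOrderedCommGroupWithZero Γ] (v : Valuation ℂ Γ), v 2 < 1 →
        v ((Om W : ℝ) : ℂ) * v ((CE W : ℝ) : ℂ) = v 2 * v (period ℚ Λ w) :=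
  om_ce2 hd hp hNG (no_w hd hp rfl) hC

end rat

end Pool.Agent.H98.W
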