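import Mathlib

/-!
Heights and extensions of number fields.
-/

set_option autoImplicit false
set_option linter.unusedSectionVars false

namespace Pool.Agent.H98.W.Ht

open Module NumberField Height IsDedekindDomain Ideal

section

variable {K L : Type} [Field K] [NumberField K] [Field L] [NumberField L] [Algebra K L]

open Classical in
theorem card_ext (ψ : K →+* ℂ) :
    (Finset.univ.filter fun φ : L →+* ℂ => φ.comp (algebraMap K L) = ψ).card = finrank K L := by
  letI : Algebra K ℂ := ψ.toAlgebra
  rw [← AlgHom.card K L ℂ, ← Fintype.card_subtype]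
  refine (Fintype.card_congr ?_).symm
  refine ⟨fun f => ⟨(f : L →+* ℂ), ?_⟩, fun φ => ⟨φ.1, ?_⟩, ?_, ?_⟩
  · ext x
    exact f.commutes x
  · intro x
    exact RingHom.congr_fun φ.2 x
  · intro f
    ext x
    rfl
  · intro φ
    ext x
    rfl

open Classical in
theorem prod_emb (g : InfinitePlace K → ℝ) :
    ∏ v : InfinitePlace K, g v ^ v.mult = ∏ φ : K →+* ℂ, g (InfinitePlace.mk φ) := by
  rw [← Finset.prod_fiberwise (s := (Finset.univ : Finset (K →+* ℂ)))
    (g := fun φ => InfinitePlace.mk φ)]
  refine Finset.prod_congr rfl fun v _ => ?_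
  have h1 : ∀ φ ∈ Finset.univ.filter (fun φ : K →+* ℂ => InfinitePlace.mk φ = v),
      g (InfinitePlace.mk φ) = g v := fun φ hφ => by rw [(Finset.mem_filter.1 hφ).2]
  rw [Finset.prod_congr rfl h1, Finset.prod_const, InfinitePlace.card_filter_mk_eq]

theorem prod_inf (g : InfinitePlace K → ℝ) :
    ∏ w : InfinitePlace L, g (w.comap (algebraMap K L)) ^ w.mult =
      (∏ v : InfinitePlace K, g v ^ v.mult) ^ finrank K L := by
  classical
  rw [prod_emb (fun w : InfinitePlace L => g (w.comap (algebraMap K L))), prod_emb g]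
  rw [← Finset.prod_fiberwise (s := (Finset.univ : Finset (L →+* ℂ)))
    (g := fun φ => φ.comp (algebraMap K L)), ← Finset.prod_pow]
  refine Finset.prod_congr rfl fun ψ _ => ?_
  have h1 : ∀ φ ∈ Finset.univ.filter (fun φ : L →+* ℂ => φ.comp (algebraMap K L) = ψ),
      g ((InfinitePlace.mk φ).comap (algebraMap K L)) = g (InfinitePlace.mk ψ) := by
    intro φ hφ
    rw [InfinitePlace.comap_mk, (Finset.mem_filter.1 hφ).2]
  rw [Finset.prod_congr rfl h1, Finset.prod_const, card_ext]

theorem mulHeight_ext {ι : Type} [Finite ι] (x : ι → 𝓞 K) (hx : x ≠ 0) :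
    mulHeight (fun i => algebraMap K L (x i : K)) =
      mulHeight (fun i => (x i : K)) ^ finrank K L := by
  have hx' : (fun i => (x i : K)) ≠ 0 := by
    intro h
    apply hx
    funext i
    have h0 : (x i : K) = 0 := congrFun h i
    exact_mod_cast h0
  set y : ι → 𝓞 L := fun i => algebraMap (𝓞 K) (𝓞 L) (x i) with hy
  have hyx : ∀ i, ((y i : 𝓞 L) : L) = algebraMap K L (x i : K) := fun i => rfl
  have hyne : y ≠ 0 := by
    intro h
    apply hx
    funext i
    have h1 := congrFun h i
    have h2 : algebraMap K L (x i : K) = 0 := by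
      rw [← hyx, h1]
      simp
    have h3 : (x i : K) = 0 := (map_eq_zero _).1 h2
    exact_mod_cast h3
  have hyne' : (fun i => ((y i : 𝓞 L) : L)) ≠ 0 := by
    intro h
    apply hyne
    funext i
    have h0 : ((y i : 𝓞 L) : L) = 0 := congrFun h i
    exact_mod_cast h0
  have e1 : (fun i => algebraMap K L (x i : K)) = fun i => ((y i : 𝓞 L) : L) := rfl
  rw [e1, NumberField.mulHeight_eq hx', NumberField.mulHeight_eq hyne', mul_pow]
  have fK := NumberField.absNorm_mul_finprod_finitePlace_eq_one hx
  have fL := NumberField.absNorm_mul_finprod_finitePlace_eq_one hyne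
  have hspan : Ideal.span (Set.range y) = (Ideal.span (Set.range x)).map
      (algebraMap (𝓞 K) (𝓞 L)) := by
    rw [Ideal.map_span, ← Set.range_comp]
    rfl
  have hfin : finrank (𝓞 K) (𝓞 L) = finrank K L :=
    (IsFractionRing.finrank_eq (𝓞 K) K (𝓞 L) L).symm
  rw [hspan, Ideal.absNorm_algebraMap, hfin] at fL
  have hN : ((Ideal.span (Set.range x)).absNorm : ℝ) ≠ 0 := by
    intro h
    rw [h, zero_mul] at fK
    exact zero_ne_one fK
  have h2 : (∏ᶠ v : FinitePlace L, ⨆ i, v ((y i : 𝓞 L) : L)) =
      (∏ᶠ v : FinitePlace K, ⨆ i, v (x i : K)) ^ finrank K L := by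
    have h3 : (∏ᶠ v : FinitePlace K, ⨆ i, v (x i : K)) =
        ((Ideal.span (Set.range x)).absNorm : ℝ)⁻¹ := by
      apply eq_inv_of_mul_eq_one_left
      rw [mul_comm]
      exact fK
    rw [h3, inv_pow]
    apply eq_inv_of_mul_eq_one_left
    rw [mul_comm]
    push_cast at fL
    exact fL
  rw [h2]
  congr 1
  rw [← prod_inf (L := L) fun v => ⨆ i, v (x i : K)]
  rfl

theorem mulHeight₁_ext (x : K) :
    mulHeight₁ (algebraMap K L x) = mulHeight₁ x ^ finrank K L := by
  obtain ⟨a, b, hb, rfl⟩ := IsFractionRing.div_surjective (A := 𝓞 K) x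
  have hb0 : b ≠ 0 := nonZeroDivisors.ne_zero hb
  rw [map_div₀, mulHeight₁_div_eq_mulHeight, mulHeight₁_div_eq_mulHeight]
  have h := mulHeight_ext (L := L) ![a, b] (by
    intro h
    exact hb0 (congrFun h 1))
  convert h using 2
  · funext i
    fin_cases i <;> rfl
  · congr 1
    funext i
    fin_cases i <;> rfl

theorem logHeight₁_ext (x : K) :
    logHeight₁ (algebraMap K L x) = finrank K L * logHeight₁ x := by
  rw [logHeight₁_eq_log_mulHeight₁, logHeight₁_eq_log_mulHeight₁, mulHeight₁_ext, Real.log_pow]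

theorem logHeight₁_equiv (σ : K ≃+* L) (x : K) : logHeight₁ (σ x) = logHeight₁ x := by
  letI : Algebra K L := σ.toRingHom.toAlgebra
  have h := logHeight₁_ext (L := L) x
  have h1 : finrank K L = 1 := by
    have e : K ≃ₗ[K] L :=
      { toFun := σ
        invFun := σ.symm
        map_add' := σ.map_add
        map_smul' := fun c x => σ.map_mul c x
        left_inv := σ.left_inv
        right_inv := σ.right_inv }
    rw [← e.finrank_eq, finrank_self]
  rw [h1, Nat.cast_one, one_mul] at h
  exact h

end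

end Pool.Agent.H98.W.Ht
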