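import Pool.Agent.H98.W.Rg
import Pool.Agent.H98.W.Ht
import Pool.Agent.H98.V.Mn

/-!
# The canonical heights and the regulators of `y² = x³ + 16 d³` in the extensions
-/

set_option autoImplicit false
set_option linter.unusedSectionVars false
set_option linter.unusedVariables false

namespace Pool.Agent.H98.W

open WeierstrassCurve NumberField Height Filter Topology
open scoped Classical
open Pool.Agent.K7.H70.TW (Ed)
open Pool.Agent.TH942 Pool.Agent.TH910.LS
open Pool.Agent.H98.R
open Pool.Agent.H98.Q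

/-- transport of points -/
noncomputable def eqv {K : Type} [Field K] {W W' : WeierstrassCurve.Affine K} (h : W = W') :
    W.Point ≃+ W'.Point := by
  subst h
  exact AddEquiv.refl _

lemma eqv_some {K : Type} [Field K] {W W' : WeierstrassCurve.Affine K}
    (h : W = W') {x y : K} (hh : W.Nonsingular x y) :
    eqv h (.some x y hh) = .some x y (h ▸ hh) := by
  subst h
  rfl

lemma base_Q (d : ℤ) (K : Type) [Field K] [CharZero K] :
    (Ed (d : K)).toAffine = ((Ed (d : ℚ)).baseChange K).toAffine := by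
  have h : Ed (d : K) = (Ed (d : ℚ)).baseChange K := by
    ext
    · simp
    · simp
    · simp
    · simp
    · show 16 * (d : K) ^ 3 = algebraMap ℚ K (16 * (d : ℚ) ^ 3)
      rw [map_mul, map_pow, map_intCast, map_ofNat]
  rw [h]

section emb
variable (d : ℤ) {F K L : Type} [Field F] [Field K] [Field L] [CharZero F] [CharZero K] [CharZero L]

/-- the homomorphism `E(F) → E(K)` -/
noncomputable def emb (f : F →ₐ[ℚ] K) :
    (Ed (d : F)).toAffine.Point →+ (Ed (d : K)).toAffine.Point :=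
  ((eqv (base_Q d K).symm).toAddMonoidHom.comp
    (Affine.Point.map (W' := Ed (d : ℚ)) (R := ℚ) (S := ℚ) f)).comp (eqv (base_Q d F)).toAddMonoidHom

lemma emb_some (f : F →ₐ[ℚ] K) {x y : F} (h : (Ed (d : F)).toAffine.Nonsingular x y) :
    ∃ h' : (Ed (d : K)).toAffine.Nonsingular (f x) (f y),
      emb d f (.some x y h) = .some (f x) (f y) h' := by
  refine ⟨?_, ?_⟩
  swap
  · simp only [emb, AddMonoidHom.comp_apply, AddEquiv.coe_toAddMonoidHom]
    rw [eqv_some, Affine.Point.map_some, eqv_some]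

lemma emb_inj (f : F →ₐ[ℚ] K) : Function.Injective (emb d f) := by
  simp only [emb, AddMonoidHom.coe_comp]
  refine (AddEquiv.injective _).comp ((Affine.Point.map_injective (W' := Ed (d : ℚ)) f).comp
    (AddEquiv.injective _))

lemma emb_comp (f : F →ₐ[ℚ] K) (g : K →ₐ[ℚ] L) (P : (Ed (d : F)).toAffine.Point) :
    emb d g (emb d f P) = emb d (g.comp f) P := by
  match P with
  | 0 => rw [map_zero, map_zero, map_zero]
  | .some x y h =>
    obtain ⟨h1, e1⟩ := emb_some d f h
    obtain ⟨h2, e2⟩ := emb_some d g h1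
    obtain ⟨h3, e3⟩ := emb_some d (g.comp f) h
    rw [e1, e2, e3]
    rfl

end emb

section hts
variable {d : ℤ} {F K : Type} [Field F] [NumberField F] [Field K] [NumberField K]

lemma sht_some {a b x y : K} (h : (sw a b).toAffine.Nonsingular x y) :
    sht (a := a) (b := b) (.some x y h) = logHeight₁ x := by
  rw [sht, Affine.Point.xRep_some, ← logHeight₁_eq_logHeight]

/-- the naive height in an extension -/
lemma sht_emb (f : F →ₐ[ℚ] K) {n : ℕ} (hn : Module.finrank ℚ K = n * Module.finrank ℚ F)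
    (P : (Ed (d : F)).toAffine.Point) :
    sht (a := (0 : K)) (b := 16 * (d : K) ^ 3) (emb d f P) =
      n * sht (a := (0 : F)) (b := 16 * (d : F) ^ 3) P := by
  let _ : Algebra F K := f.toRingHom.toAlgebra
  have hst : IsScalarTower ℚ F K := IsScalarTower.of_algebraMap_eq fun x => (f.commutes x).symm
  have hF : Module.finrank F K = n := by
    have h1 := Module.finrank_mul_finrank ℚ F K
    have h2 : 0 < Module.finrank ℚ F := Module.finrank_pos
    rw [hn, mul_comm] at h1
    exact Nat.eq_of_mul_eq_mul_right h2 h1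
  match P with
  | 0 =>
    have e0 : emb d f (0 : (Ed (d : F)).toAffine.Point) = 0 := map_zero _
    have e1 : sht (a := (0 : K)) (b := 16 * (d : K) ^ 3) (emb d f (0 : (Ed (d : F)).toAffine.Point)) =
        0 := by
      rw [e0]
      exact sht_zero
    have e2 : sht (a := (0 : F)) (b := 16 * (d : F) ^ 3) (0 : (Ed (d : F)).toAffine.Point) = 0 :=
      sht_zero
    rw [e1, e2, mul_zero]
  | .some x y h =>
    obtain ⟨h', e⟩ := emb_some d f h
    have e1 : sht (a := (0 : K)) (b := 16 * (d : K) ^ 3) (emb d f (.some x y h)) =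
        logHeight₁ (f x) := by
      rw [e]
      exact sht_some _
    have e2 : sht (a := (0 : F)) (b := 16 * (d : F) ^ 3) (.some x y h) = logHeight₁ x := sht_some _
    have e3 : logHeight₁ (f x) = n * logHeight₁ x := by
      rw [← hF]
      exact Pool.Agent.H98.W.Ht.logHeight₁_ext (K := F) (L := K) x
    refine e1.trans (e3.trans ?_)
    exact congrArg (fun t : ℝ => (n : ℝ) * t) e2.symm

omit [Field K] [NumberField K] [Field F] [NumberField F] in
lemma hD_of (hd : Dd d) (K' : Type) [Field K'] [NumberField K'] :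
    4 * (0 : K') ^ 3 + 27 * (16 * (d : K') ^ 3) ^ 2 ≠ 0 := by
  have h1 : (d : K') ≠ 0 := d_neF hd
  have e : 4 * (0 : K') ^ 3 + 27 * (16 * (d : K') ^ 3) ^ 2 = 6912 * (d : K') ^ 6 := by ring
  rw [e]
  exact mul_ne_zero (by norm_num) (pow_ne_zero 6 h1)

/-- the canonical height of the curve `y² = x³ + 16 d³` -/
noncomputable def ch (d : ℤ) (K : Type) [Field K] [NumberField K]
    (P : (Ed (d : K)).toAffine.Point) : ℝ := chat (a := (0 : K)) (b := 16 * (d : K) ^ 3) P

lemma ch_spec (hd : Dd d) (K : Type) [Field K] [NumberField K] :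
    (∀ P : (Ed (d : K)).toAffine.Point,
      Tendsto (fun k : ℕ => sht (a := (0 : K)) (b := 16 * (d : K) ^ 3) ((2 ^ k : ℕ) • P) / 4 ^ k)
        atTop (𝓝 (ch d K P))) ∧
    (∀ P, 0 ≤ ch d K P) ∧
    (∀ P Q, ch d K (P + Q) + ch d K (P - Q) = 2 * (ch d K P + ch d K Q)) ∧
    ∀ B : ℝ, {P | ch d K P ≤ B}.Finite := by
  obtain ⟨h1, h2, h3, -⟩ := chat_spec (hD_of hd K)
  exact ⟨h1, h2, h3, chat_fin (hD_of hd K)⟩

/-- **the canonical height in an extension** -/
theorem ch_emb (hd : Dd d) (f : F →ₐ[ℚ] K) {n : ℕ}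
    (hn : Module.finrank ℚ K = n * Module.finrank ℚ F) (P : (Ed (d : F)).toAffine.Point) :
    ch d K (emb d f P) = n * ch d F P := by
  have h1 := (ch_spec hd K).1 (emb d f P)
  have h2 := ((ch_spec hd F).1 P).const_mul (n : ℝ)
  refine tendsto_nhds_unique h1 (h2.congr fun k => ?_)
  rw [← map_nsmul, sht_emb f hn, mul_div_assoc]

end hts

section desc
variable {d : ℤ} {F M L : Type} [Field F] [NumberField F] [Field M] [NumberField M] [Field L]
  [NumberField L] [Algebra M L] [IsGalois M L]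

/-- no points of order two -/
lemma no_two_pt (hd : Dd d) {K : Type} [Field K] [NumberField K] (h3 : ∀ x : K, x ^ 3 ≠ 2)
    (P : (Ed (d : K)).toAffine.Point) (hP : P + P = 0) : P = 0 := by
  have hd0 : (d : K) ≠ 0 := d_neF hd
  have hne : NeZero (d : K) := ⟨hd0⟩
  rcases pt_cases P with rfl | ⟨x, y, hxy, rfl⟩
  · rfl
  · exfalso
    by_cases hy : y = 0
    · apply h3 (-x / (2 * d))
      have h20 : (2 : K) ≠ 0 := two_ne_zero
      rw [hy] at hxy
      field_simp
      linear_combination hxy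
    · obtain ⟨l, x3, y3, hxy3, e1, e2, e3, e4, e5⟩ := add_pt hxy hxy (by
        rintro ⟨-, h6⟩
        apply hy
        have : (2 : K) * y = 0 := by linear_combination h6
        exact (mul_eq_zero.1 this).resolve_left two_ne_zero)
      rw [e5] at hP
      exact pt_ne _ hP

/-- torsion points are divisible by two -/
lemma tor_half {A : Type} [AddCommGroup A] (h2 : ∀ P : A, P + P = 0 → P = 0) {P : A}
    (hP : IsOfFinAddOrder P) : ∃ Q, P = Q + Q := by
  obtain ⟨n, hn, h⟩ := isOfFinAddOrder_iff_nsmul_eq_zero.1 hP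
  have hodd : ∀ n : ℕ, 0 < n → n • P = 0 → ∃ m : ℕ, Odd m ∧ m • P = 0 := by
    intro n
    induction n using Nat.strong_induction_on with
    | _ n ih =>
      intro hn h
      rcases Nat.even_or_odd n with ⟨m, hm⟩ | ho
      · have h3 : m • P + m • P = 0 := by rw [← add_smul, ← hm, h]
        exact ih m (by omega) (by omega) (h2 _ h3)
      · exact ⟨n, ho, h⟩
  obtain ⟨m, ⟨j, hj⟩, h4⟩ := hodd n hn h
  refine ⟨-(j • P), ?_⟩
  have h5 : (2 * j + 1) • P = 0 := by rw [← hj, h4]
  rw [add_smul, one_smul, two_mul, add_smul] at h5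
  have h6 : P = -(j • P + j • P) := eq_neg_of_add_eq_zero_right h5
  rw [neg_add] at h6
  exact h6

/-- **descent of divisibility by two** -/
theorem desc (hd : Dd d) (h3 : ∀ x : L, x ^ 3 ≠ 2) (f : F →ₐ[ℚ] L) (e : F ≃+* M)
    (he : ∀ x, f x = algebraMap M L (e x)) (P : (Ed (d : F)).toAffine.Point)
    {Q : (Ed (d : L)).toAffine.Point} (hQ : emb d f P = Q + Q) :
    ∃ R : (Ed (d : F)).toAffine.Point, P = R + R := by
  have hneL : NeZero (d : L) := ⟨d_neF hd⟩
  have hneF : NeZero (d : F) := ⟨d_neF hd⟩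
  have h2 := no_two_pt hd h3
  have hfix : ∀ σ : L ≃ₐ[M] L, emb d ((σ : L ≃ₐ[M] L).restrictScalars ℚ : L →ₐ[ℚ] L) Q = Q := by
    intro σ
    set τ : L →ₐ[ℚ] L := ((σ : L ≃ₐ[M] L).restrictScalars ℚ : L →ₐ[ℚ] L) with hτ
    have h4 : emb d τ (emb d f P) = emb d f P := by
      rw [emb_comp]
      congr 2
      apply AlgHom.ext
      intro x
      show σ (f x) = f x
      rw [he, AlgEquiv.commutes]
    rw [hQ, map_add] at h4
    have h5 : (emb d τ Q - Q) + (emb d τ Q - Q) = 0 := by
      have : (emb d τ Q - Q) + (emb d τ Q - Q) = (emb d τ Q + emb d τ Q) - (Q + Q) := by abel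
      rw [this, h4, sub_self]
    exact sub_eq_zero.1 (h2 _ h5)
  rcases pt_cases Q with rfl | ⟨x, y, hxy, rfl⟩
  · refine ⟨0, ?_⟩
    rw [add_zero]
    apply emb_inj d f
    rw [hQ, add_zero, map_zero]
  · have hx : ∀ σ : L ≃ₐ[M] L, σ x = x ∧ σ y = y := by
      intro σ
      have h4 := hfix σ
      obtain ⟨h', e'⟩ := emb_some d (((σ : L ≃ₐ[M] L).restrictScalars ℚ : L →ₐ[ℚ] L)) (ns_of hxy)
      have h5 : emb d (((σ : L ≃ₐ[M] L).restrictScalars ℚ : L →ₐ[ℚ] L)) (pt hxy) =
          .some _ _ h' := e'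
      rw [h5] at h4
      have h6 : pt (eqn_iff.1 h'.1) = pt hxy := h4
      rw [pt_inj] at h6
      exact h6
    obtain ⟨x0, hx0⟩ := IntermediateField.mem_bot.1 ((IsGalois.mem_bot_iff_fixed x).2 fun σ => (hx σ).1)
    obtain ⟨y0, hy0⟩ := IntermediateField.mem_bot.1 ((IsGalois.mem_bot_iff_fixed y).2 fun σ => (hx σ).2)
    have hfx : f (e.symm x0) = x := by rw [he, RingEquiv.apply_symm_apply, hx0]
    have hfy : f (e.symm y0) = y := by rw [he, RingEquiv.apply_symm_apply, hy0]
    have hR : (e.symm y0) ^ 2 = (e.symm x0) ^ 3 + 16 * (d : F) ^ 3 := by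
      apply f.toRingHom.injective
      show f _ = f _
      rw [map_pow, map_add, map_mul, map_pow, map_pow, map_ofNat, map_intCast, hfx, hfy, hxy]
    refine ⟨pt hR, ?_⟩
    apply emb_inj d f
    rw [hQ, map_add]
    have h7 : emb d f (pt hR) = pt hxy := by
      obtain ⟨h', e'⟩ := emb_some d f (ns_of hR)
      have h5 : emb d f (pt hR) = .some _ _ h' := e'
      rw [h5]
      show pt (eqn_iff.1 h'.1) = pt hxy
      rw [pt_inj]
      exact ⟨hfx, hfy⟩
    rw [h7]

/-- **the regulators** -/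
theorem reg_all (hd : Dd d) {K : Type} [Field K] [NumberField K] (h3 : ∀ x : L, x ^ 3 ≠ 2)
    (f : F →ₐ[ℚ] K) (g : K →ₐ[ℚ] L) (e : F ≃+* M) (he : ∀ x, g (f x) = algebraMap M L (e x)) {n : ℕ}
    (hn : Module.finrank ℚ K = n * Module.finrank ℚ F) {r : ℕ}
    {b : Fin r → (Ed (d : K)).toAffine.Point} (hb : IsBasisModTors b)
    {b0 : Fin r → (Ed (d : F)).toAffine.Point} (hb0 : IsBasisModTors b0) :
    ∃ N : ℤ, Odd N ∧ (n : ℝ) ^ r * (Pool.Agent.TH942.gram (ch d F) b0).det =
      (N : ℝ) ^ 2 * (Pool.Agent.TH942.gram (ch d K) b).det := by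
  have h3K : ∀ x : K, x ^ 3 ≠ 2 := by
    intro x hx
    apply h3 (g x)
    rw [← map_pow, hx, map_ofNat]
  refine reg_cmp (ch_spec hd K).2.2.1 (emb d f) (ch_emb hd f hn) hb hb0
    (fun P hP => tor_half (no_two_pt hd h3K) hP) ?_
  rintro P ⟨Q, hQ⟩
  refine desc hd h3 (g.comp f) e he P (Q := emb d g Q) ?_
  rw [← emb_comp, hQ, map_add]

lemma reg_pos (hd : Dd d) {K : Type} [Field K] [NumberField K] {r : ℕ}
    {b : Fin r → (Ed (d : K)).toAffine.Point} (hb : IsBasisModTors b) :
    0 < (Pool.Agent.TH942.gram (ch d K) b).det := by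
  obtain ⟨-, h1, h2, h3⟩ := ch_spec hd K
  exact gram_pos h1 h2 h3 hb

end desc

end Pool.Agent.H98.W
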