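import Pool.Agent.H98.W.Qg
import Pool.Agent.H98.W.Pt

/-!
# The points of `y² = x³ + 16 d³` over the rational numbers and over `ℚ(√-3)`
-/

set_option autoImplicit false
set_option linter.unusedSectionVars false
set_option linter.unusedVariables false

namespace Pool.Agent.H98.W

open WeierstrassCurve NumberField Height Filter Topology
open scoped Classical
open Pool.Agent.K7.H70.TW (Ed)
open Pool.Agent.TH942 Pool.Agent.TH910.LS
open Pool.Agent.H98.R
open Pool.Agent.H98.Q

section rot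
variable {K : Type} [Field K] [CharZero K] {t : K} [ht : NeZero t] {z : K}

omit [CharZero K] in
lemma w3' (hw : z ^ 2 + z + 1 = 0) : z ^ 3 = 1 := by linear_combination (z - 1) * hw

lemma rot_eq (hz : z ^ 3 = 1) {x y : K} (h : y ^ 2 = x ^ 3 + 16 * t ^ 3) :
    y ^ 2 = (z * x) ^ 3 + 16 * t ^ 3 := by rw [mul_pow, hz, one_mul, h]

/-- multiplication by a cube root of unity -/
noncomputable def rotF (hz : z ^ 3 = 1) : (Ed t).toAffine.Point → (Ed t).toAffine.Point
  | 0 => 0
  | .some _ _ h => pt (rot_eq hz (eqn_iff.1 h.1))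

lemma rotF_zero (hz : z ^ 3 = 1) : rotF (t := t) hz 0 = 0 := rfl

lemma rotF_pt (hz : z ^ 3 = 1) {x y : K} (h : y ^ 2 = x ^ 3 + 16 * t ^ 3) :
    rotF hz (pt h) = pt (rot_eq hz h) := rfl

/-- multiplication by a cube root of unity, as a homomorphism -/
noncomputable def rot (hz : z ^ 3 = 1) : (Ed t).toAffine.Point →+ (Ed t).toAffine.Point where
  toFun := rotF hz
  map_zero' := rfl
  map_add' := by
    intro P Q
    have hz0 : z ≠ 0 := by
      rintro rfl
      rw [zero_pow three_ne_zero] at hz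
      exact zero_ne_one hz
    rcases pt_cases P with rfl | ⟨x₁, y₁, h₁, rfl⟩
    · rw [rotF_zero, zero_add, zero_add]
    rcases pt_cases Q with rfl | ⟨x₂, y₂, h₂, rfl⟩
    · rw [rotF_zero, add_zero, add_zero]
    by_cases hne : x₁ = x₂ ∧ y₁ = -y₂
    · rw [add_zero_iff h₁ h₂ hne, rotF_pt, rotF_pt, rotF_zero,
        add_zero_iff (rot_eq hz h₁) (rot_eq hz h₂) ⟨by rw [hne.1], hne.2⟩]
    · obtain ⟨l, x₃, y₃, h₃, e1, e2, e3, e4, e5⟩ := add_pt h₁ h₂ hne
      rw [e5, rotF_pt, rotF_pt, rotF_pt]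
      refine (add_pt' (rot_eq hz h₁) (rot_eq hz h₂) (rot_eq hz h₃) ?_ (l := l * z ^ 2) ?_ ?_ ?_ ?_).symm
      · rintro ⟨h4, h5⟩
        exact hne ⟨mul_left_cancel₀ hz0 h4, h5⟩
      · linear_combination (z ^ 3) * e1 + (y₁ - y₂) * hz
      · linear_combination z ^ 2 * e2
      · rw [e3]
        linear_combination (-(l ^ 2 * z)) * hz
      · rw [e4]
        linear_combination (-(l * (x₁ - x₃))) * hz

lemma rot_pt (hz : z ^ 3 = 1) {x y : K} (h : y ^ 2 = x ^ 3 + 16 * t ^ 3) :
    rot hz (pt h) = pt (rot_eq hz h) := rfl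

/-- the minimal polynomial -/
lemma rot_sum (hw : z ^ 2 + z + 1 = 0) (P : (Ed t).toAffine.Point) :
    P + rot (w3' hw) P + rot (w3' hw) (rot (w3' hw) P) = 0 := by
  have hz := w3' hw
  rcases pt_cases P with rfl | ⟨x, y, h, rfl⟩
  · simp
  · rw [rot_pt, rot_pt]
    have hx3 : (-y) ^ 2 = (z * (z * x)) ^ 3 + 16 * t ^ 3 := by
      rw [neg_pow_two]
      exact rot_eq hz (rot_eq hz h)
    have hne : ¬(x = z * x ∧ y = -y) := by
      rintro ⟨h1, h2⟩
      have h3 : (2 : K) * y = 0 := by linear_combination h2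
      have h4 : y = 0 := (mul_eq_zero.1 h3).resolve_left two_ne_zero
      have h5 : (z - 1) * x = 0 := by linear_combination -h1
      have hz1 : z - 1 ≠ 0 := by
        intro h6
        have h7 : z = 1 := sub_eq_zero.1 h6
        rw [h7] at hw
        norm_num at hw
      have h6 : x = 0 := (mul_eq_zero.1 h5).resolve_left hz1
      rw [h4, h6] at h
      have h7 : (16 : K) * t ^ 3 = 0 := by linear_combination -h
      exact mul_ne_zero (by norm_num) (pow_ne_zero 3 ht.out) h7
    have e := add_pt' h (rot_eq hz h) hx3 hne (l := 0) (by ring)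
      (by linear_combination (-x ^ 2) * hw) (by linear_combination x * hw) (by ring)
    rw [e]
    exact add_zero_iff hx3 (rot_eq hz (rot_eq hz h)) ⟨rfl, rfl⟩

end rot

section height
variable {d : ℤ} {K : Type} [Field K] [NumberField K]

lemma sht_rot (hd : Dd d) [NeZero (d : K)] {z : K} (hz : z ^ 3 = 1)
    (P : (Ed (d : K)).toAffine.Point) :
    sht (a := (0 : K)) (b := 16 * (d : K) ^ 3) (rot hz P) =
      sht (a := (0 : K)) (b := 16 * (d : K) ^ 3) P := by
  rcases pt_cases P with rfl | ⟨x, y, h, rfl⟩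
  · rw [map_zero]
  · have e1 : sht (a := (0 : K)) (b := 16 * (d : K) ^ 3) (pt h) = logHeight₁ x := sht_some _
    have e2 : sht (a := (0 : K)) (b := 16 * (d : K) ^ 3) (rot hz (pt h)) = logHeight₁ (z * x) :=
      sht_some _
    rw [e1, e2]
    have h3 : (3 : ℕ) * logHeight₁ (z * x) = (3 : ℕ) * logHeight₁ x := by
      rw [← logHeight₁_pow, ← logHeight₁_pow, mul_pow, hz, one_mul]
    exact mul_left_cancel₀ (by norm_num) h3

lemma ch_rot (hd : Dd d) [NeZero (d : K)] {z : K} (hz : z ^ 3 = 1)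
    (P : (Ed (d : K)).toAffine.Point) : ch d K (rot hz P) = ch d K P := by
  have h1 := (ch_spec hd K).1 (rot hz P)
  have h2 := (ch_spec hd K).1 P
  refine tendsto_nhds_unique h1 (h2.congr fun k => ?_)
  rw [← map_nsmul, sht_rot hd]

end height

section semi
variable {d : ℤ} {Q F : Type} [Field Q] [NumberField Q] [Field F] [NumberField F] [Algebra Q F]
  [IsGalois Q F]

/-- the homomorphism of algebras over the rational numbers -/
noncomputable def inc (Q F : Type) [Field Q] [NumberField Q] [Field F] [NumberField F] [Algebra Q F] :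
    Q →ₐ[ℚ] F := RingHom.toRatAlgHom (algebraMap Q F)

/-- an automorphism as a homomorphism of algebras over the rational numbers -/
noncomputable def aut (τ : Gal(F/Q)) : F →ₐ[ℚ] F := RingHom.toRatAlgHom (τ : F →+* F)

/-- **the points over a field and over a quadratic extension with the cube roots of unity** -/
theorem semi_pts (hd : Dd d) [NeZero (d : F)] (h2 : Module.finrank Q F = 2) {z : F}
    (hw : z ^ 2 + z + 1 = 0) (hzQ : ∀ x : Q, algebraMap Q F x ≠ z) : ∃ τ : F →ₐ[ℚ] F,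
      Semi (emb d (inc Q F)) (emb d τ) (rot (t := (d : F)) (w3' hw)) := by
  have hneQ : NeZero (d : Q) := ⟨d_neF hd⟩
  have hcard : Nat.card Gal(F/Q) = 2 := by rw [IsGalois.card_aut_eq_finrank, h2]
  obtain ⟨τ, hτ⟩ : ∃ τ : Gal(F/Q), τ ≠ 1 := by
    by_contra hcon
    push Not at hcon
    have : Subsingleton Gal(F/Q) := ⟨fun a b => by rw [hcon a, hcon b]⟩
    rw [Nat.card_eq_one_iff_unique.2 ⟨this, ⟨1⟩⟩] at hcard
    exact absurd hcard (by norm_num)
  have hττ : τ * τ = 1 := by
    have h3 : τ ^ Nat.card Gal(F/Q) = 1 := pow_card_eq_one'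
    rwa [hcard, pow_two] at h3
  have hall : ∀ σ : Gal(F/Q), σ = 1 ∨ σ = τ := by
    intro σ
    obtain ⟨a, b, hab, hU⟩ := Nat.card_eq_two_iff.1 hcard
    have hm : ∀ s : Gal(F/Q), s = a ∨ s = b := fun s => by
      have : s ∈ ({a, b} : Set _) := by rw [hU]; trivial
      simpa using this
    rcases hm 1 with h1 | h1 <;> rcases hm τ with h3 | h3 <;> rcases hm σ with h4 | h4
    · exact Or.inl (h4.trans h1.symm)
    · exact absurd (h3.trans h1.symm) hτ
    · exact Or.inl (h4.trans h1.symm)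
    · exact Or.inr (h4.trans h3.symm)
    · exact Or.inr (h4.trans h3.symm)
    · exact Or.inl (h4.trans h1.symm)
    · exact absurd (h3.trans h1.symm) hτ
    · exact Or.inl (h4.trans h1.symm)
  have hfx : ∀ w : F, τ w = w → ∃ u : Q, algebraMap Q F u = w := by
    intro w hw'
    have h7 : w ∈ (⊥ : IntermediateField Q F) := by
      rw [IsGalois.mem_bot_iff_fixed]
      intro σ
      rcases hall σ with rfl | rfl
      · rfl
      · exact hw'
    exact IntermediateField.mem_bot.1 h7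
  have hτz : τ z = z ^ 2 := by
    have h3 : (τ z) ^ 2 + τ z + 1 = 0 := by
      have := congrArg τ hw
      rwa [map_add, map_add, map_pow, map_one, map_zero] at this
    have h4 : (τ z - z) * (τ z - z ^ 2) = 0 := by
      have hz3 := w3' hw
      linear_combination h3 - τ z * hw + hz3
    rcases mul_eq_zero.1 h4 with h5 | h5
    · exfalso
      obtain ⟨x, hx⟩ := hfx z (sub_eq_zero.1 h5)
      exact hzQ x hx
    · exact sub_eq_zero.1 h5
  have hinv : ∀ x : F, τ (τ x) = x := fun x => by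
    have := congrArg (fun σ : Gal(F/Q) => σ x) hττ
    exact this
  refine ⟨aut τ, emb_inj d _, ?_, ?_, rot_sum hw, ?_, ?_⟩
  · intro b
    rw [emb_comp]
    congr 2
    exact AlgHom.ext fun x => τ.commutes x
  · intro a ha
    rcases pt_cases a with rfl | ⟨x, y, hxy, rfl⟩
    · exact ⟨0, map_zero _⟩
    · obtain ⟨h', e'⟩ := emb_some d (aut τ) (ns_of hxy)
      have h5 : emb d (aut τ) (pt hxy) = .some _ _ h' := e'
      rw [h5] at ha
      have h6 : pt (eqn_iff.1 h'.1) = pt hxy := ha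
      rw [pt_inj] at h6
      obtain ⟨x0, hx0⟩ := hfx x h6.1
      obtain ⟨y0, hy0⟩ := hfx y h6.2
      have hR : y0 ^ 2 = x0 ^ 3 + 16 * (d : Q) ^ 3 := by
        apply (algebraMap Q F).injective
        rw [map_pow, map_add, map_mul, map_pow, map_pow, map_ofNat, map_intCast, hx0, hy0, hxy]
      refine ⟨pt hR, ?_⟩
      obtain ⟨h', e'⟩ := emb_some d (inc Q F) (ns_of hR)
      have h5 : emb d (inc Q F) (pt hR) = .some _ _ h' := e'
      rw [h5]
      show pt (eqn_iff.1 h'.1) = pt hxy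
      rw [pt_inj]
      exact ⟨hx0, hy0⟩
  · intro a
    rcases pt_cases a with rfl | ⟨x, y, hxy, rfl⟩
    · simp
    · rw [rot_pt]
      obtain ⟨h', e'⟩ := emb_some d (aut τ) (ns_of hxy)
      have h5 : emb d (aut τ) (pt hxy) = pt (eqn_iff.1 h'.1) := e'
      obtain ⟨h'', e''⟩ := emb_some d (aut τ) (ns_of (rot_eq (w3' hw) hxy))
      have h6 : emb d (aut τ) (pt (rot_eq (w3' hw) hxy)) = pt (eqn_iff.1 h''.1) := e''
      rw [h5, h6, rot_pt, rot_pt, pt_inj]
      refine ⟨?_, rfl⟩
      show τ (z * x) = z * (z * τ x)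
      rw [map_mul, hτz]
      ring
  · intro a
    rw [emb_comp]
    have e : (aut τ).comp (aut τ) = AlgHom.id ℚ F := AlgHom.ext hinv
    rw [e]
    rcases pt_cases a with rfl | ⟨x, y, hxy, rfl⟩
    · simp
    · obtain ⟨h', e'⟩ := emb_some d (AlgHom.id ℚ F) (ns_of hxy)
      exact e'

/-- **the ranks and the regulators** -/
theorem reg_quad (hd : Dd d) (h2 : Module.finrank Q F = 2) {z : F}
    (hw : z ^ 2 + z + 1 = 0) (hzQ : ∀ x : Q, algebraMap Q F x ≠ z)
    (hA : AddGroup.FG (Ed (d : F)).toAffine.Point)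
    (hr : Module.finrank ℤ (Ed (d : F)).toAffine.Point = 2) :
    (∀ {r : ℕ} {u : Fin r → (Ed (d : Q)).toAffine.Point}, IsBasisModTors u → r = 1) ∧
    ∀ {g : Fin 2 → (Ed (d : F)).toAffine.Point}, IsBasisModTors g →
      ∀ {u : Fin 1 → (Ed (d : Q)).toAffine.Point}, IsBasisModTors u →
        ∃ N : ℤ, Odd N ∧ 3 * (gram (ch d Q) u).det ^ 2 = (N : ℝ) ^ 2 * (gram (ch d F) g).det := by
  have hne : NeZero (d : F) := ⟨d_neF hd⟩
  obtain ⟨τ, S⟩ := semi_pts (Q := Q) hd h2 hw hzQ
  refine ⟨fun hu => S.rank_one hA hr hu, fun hg _ hu => ?_⟩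
  have hfr : Module.finrank ℚ F = 2 * Module.finrank ℚ Q := by
    rw [← Module.finrank_mul_finrank ℚ Q F, h2, mul_comm]
  refine S.reg (ch_spec hd F).2.2.1 (ch_rot hd (w3' hw)) (fun P => ?_) (ch_spec hd Q).2.2.1 hg hu
  have := ch_emb hd (inc Q F) hfr P
  rw [this]
  norm_num

end semi

end Pool.Agent.H98.W
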