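import Pool.Agent.H98.W.Qr
import Pool.Graph.R_pool_sql_team_seeded_35f281b4.K7.H56.X.B

/-!
# The Tate-Shafarevich group over the rational numbers
-/

set_option autoImplicit false
set_option linter.unusedSectionVars false
set_option linter.unusedVariables false

open WeierstrassCurve IsDedekindDomain NumberField WithZero
open scoped Classical

namespace Pool.Agent.H98.W

open Pool.Agent.Y696
open Pool.Agent.TH841.SH.D
open Pool.Agent.Y664.QA (tr_ex' res res_apply res_mul res_cont locTriv_up conj_ex act_id compl_tower)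
open Pool.Agent.K7.H56.X
open Pool.Agent.K7.H70.TW (Ed)
open Pool.Agent.H98.Q (Dd Pd d_neF)

section rotP
variable {k : Type} [Field k] [CharZero k] {t : k}

lemma ed_bc (t : k) (L : Type) [Field L] [Algebra k L] :
    ((Ed t).baseChange L).toAffine = (Ed (algebraMap k L t)).toAffine := by
  have h : (Ed t).baseChange L = Ed (algebraMap k L t) := by
    show (Ed t).map (algebraMap k L) = _
    unfold Ed WeierstrassCurve.map
    simp only [map_zero, map_pow, map_mul, map_ofNat]
  rw [h]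

variable {L : Type} [Field L] [CharZero L] [Algebra k L] [NeZero (algebraMap k L t)] {z : L}

/-- multiplication by a cube root of unity -/
noncomputable def rotP (t : k) [NeZero (algebraMap k L t)] (hz : z ^ 3 = 1) :
    Pt (Ed t) L →+ Pt (Ed t) L :=
  ((eqv (ed_bc t L).symm).toAddMonoidHom.comp (rot (t := algebraMap k L t) hz)).comp
    (eqv (ed_bc t L)).toAddMonoidHom

lemma rotP_mk (hz : z ^ 3 = 1) {x y : L} (hx : ((Ed t).baseChange L).toAffine.Nonsingular x y) :
    ∃ hx' : ((Ed t).baseChange L).toAffine.Nonsingular (z * x) y,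
      rotP t hz (mkp hx) = mkp hx' := by
  have h1 : (Ed (algebraMap k L t)).toAffine.Nonsingular x y := ed_bc t L ▸ hx
  have h2 : (Ed (algebraMap k L t)).toAffine.Nonsingular (z * x) y :=
    Pool.Agent.H98.R.ns_of (rot_eq hz (Pool.Agent.H98.R.eqn_iff.1 h1.1))
  have h3 : ((Ed t).baseChange L).toAffine.Nonsingular (z * x) y := (ed_bc t L).symm ▸ h2
  refine ⟨h3, ?_⟩
  have e1 : eqv (ed_bc t L) (.some x y hx) = .some x y h1 := eqv_some _ hx
  have e2 : rot (t := algebraMap k L t) hz (.some x y h1) = .some (z * x) y h2 := rfl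
  have e3 : eqv (ed_bc t L).symm (.some (z * x) y h2) = .some (z * x) y h3 := eqv_some _ h2
  show eqv (ed_bc t L).symm (rot (t := algebraMap k L t) hz (eqv (ed_bc t L) (.some x y hx))) = _
  rw [e1, e2, e3]
  rfl

lemma rotP_sum (hz : z ^ 3 = 1) (hw : z ^ 2 + z + 1 = 0) (P : Pt (Ed t) L) :
    P + rotP t hz P + rotP t hz (rotP t hz P) = 0 := by
  let ψ : Pt (Ed t) L ≃+ (Ed (algebraMap k L t)).toAffine.Point := eqv (ed_bc t L)
  apply ψ.injective
  have h1 : ∀ Q, ψ (rotP t hz Q) = rot (t := algebraMap k L t) hz (ψ Q) := by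
    intro Q
    show eqv (ed_bc t L) (eqv (ed_bc t L).symm _) = _
    have h2 : ∀ R : (Ed (algebraMap k L t)).toAffine.Point,
        eqv (ed_bc t L) (eqv (ed_bc t L).symm R) = R := by
      intro R
      match R with
      | 0 => rw [map_zero, map_zero]
      | .some x y h => rw [eqv_some, eqv_some]
    exact h2 _
  rw [map_add ψ, map_add ψ, map_zero ψ, h1, h1, h1]
  exact rot_sum hw _

end rotP

section inj
variable {k K : Type} [Field k] [CharZero k] [Field K] [CharZero K] [Algebra k K] [Normal k K] {t : k}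
  [NeZero (algebraMap k (AlgebraicClosure k) t)]
  (j : AlgebraicClosure k ≃ₐ[k] AlgebraicClosure K)

/-- **the restriction to a quadratic extension with the cube roots of unity is injective** -/
theorem res_inj {z : K} (hw : z ^ 2 + z + 1 = 0) (hgen : IntermediateField.adjoin k {z} = ⊤)
    {g : Coch (Ed t)} (hg : IsCoc (Ed t) g) (h : IsCob ((Ed t).baseChange K) (rst (Ed t) j g)) :
    IsCob (Ed t) g := by
  obtain ⟨P, hP⟩ := h
  obtain ⟨T₀, hT₀⟩ := tr_surj0 (K := K) (Ed t) j P
  have inj := tr_inj0 (K := K) (Ed t) j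
  let b : Coch (Ed t) := fun s : Gal k => act (Ed t) s.toAlgHom T₀ - T₀
  let g₁ : Coch (Ed t) := g - b
  have hg₁ : ∀ s, g₁ s = g s - (act (Ed t) s.toAlgHom T₀ - T₀) := fun _ => rfl
  have hc : IsCoc (Ed t) g₁ := by
    have hb : IsCoc (Ed t) b := coc_of_pt (Ed t) T₀
    have : IsCoc (Ed t) (g + -b) := coc_add hg (coc_neg hb)
    rw [← sub_eq_add_neg] at this
    exact this
  have hN : ∀ σ : Gal K, g₁ (res j σ) = 0 := by
    intro σ
    apply inj
    rw [hg₁, map_sub, map_sub, map_sub, map_sub, tr_act_res, hT₀, ← rst_apply, hP σ, sub_self]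
  have key : ∀ (σ : Gal K) (s : Gal k), act (Ed t) (res j σ).toAlgHom (g₁ s) = g₁ s := by
    intro σ s
    obtain ⟨σ', hσ'⟩ := conj_ex j σ s
    have a := hc.2 (res j σ) s
    have b := hc.2 s (res j σ')
    rw [hN, zero_add] at a
    rw [hN, map_zero, add_zero] at b
    rw [← a, hσ', b]
  -- the cube root of unity
  set ζ : AlgebraicClosure k := j.symm (algebraMap K (AlgebraicClosure K) z) with hζ
  have hζw : ζ ^ 2 + ζ + 1 = 0 := by
    rw [hζ, ← map_pow, ← map_pow, ← map_add, ← map_add, ← map_one j.symm, ← map_one (algebraMap K _),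
      ← map_add, ← map_add, hw, map_zero, map_zero]
  have hζ3 : ζ ^ 3 = 1 := by linear_combination (ζ - 1) * hζw
  have hfix : ∀ s : Gal k, s ζ = ζ → ∃ σ : Gal K, res j σ = s := by
    intro s hs
    have hall : ∀ x : K, s (j.symm (algebraMap K (AlgebraicClosure K) x)) =
        j.symm (algebraMap K (AlgebraicClosure K) x) := by
      intro x
      have hx : x ∈ IntermediateField.adjoin k {z} := by rw [hgen]; exact IntermediateField.mem_top
      induction hx using IntermediateField.adjoin_induction with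
      | mem y hy =>
        rw [Set.mem_singleton_iff.1 hy]
        exact hs
      | algebraMap y =>
        have e : j.symm (algebraMap K (AlgebraicClosure K) (algebraMap k K y)) =
            algebraMap k (AlgebraicClosure k) y := by
          rw [← IsScalarTower.algebraMap_apply, AlgEquiv.commutes]
        rw [e, AlgEquiv.commutes]
      | add y w _ _ h1 h2 => rw [map_add, map_add, map_add, h1, h2]
      | inv y _ h1 => rw [map_inv₀, map_inv₀, map_inv₀, h1]
      | mul y w _ _ h1 h2 => rw [map_mul, map_mul, map_mul, h1, h2]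
    let σ : Gal K := AlgEquiv.ofRingEquiv (f := ((j.symm.trans s).trans j).toRingEquiv) (by
      intro x
      show j (s (j.symm (algebraMap K (AlgebraicClosure K) x))) = _
      rw [hall, AlgEquiv.apply_symm_apply])
    refine ⟨σ, AlgEquiv.ext fun x => ?_⟩
    apply j.injective
    rw [res_apply]
    show j (s (j.symm (j x))) = _
    rw [AlgEquiv.symm_apply_apply]
  have hzero : ∀ s : Gal k, s ζ = ζ → g₁ s = 0 := by
    intro s hs
    obtain ⟨σ, rfl⟩ := hfix s hs
    exact hN σ
  have hdich : ∀ s : Gal k, s ζ = ζ ∨ s ζ = ζ ^ 2 := by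
    intro s
    have h3 : (s ζ) ^ 2 + s ζ + 1 = 0 := by
      have := congrArg s hζw
      rwa [map_add, map_add, map_pow, map_one, map_zero] at this
    have h4 : (s ζ - ζ) * (s ζ - ζ ^ 2) = 0 := by
      linear_combination h3 - s ζ * hζw + hζ3
    rcases mul_eq_zero.1 h4 with h5 | h5
    · exact Or.inl (sub_eq_zero.1 h5)
    · exact Or.inr (sub_eq_zero.1 h5)
  have hne : ζ ^ 2 ≠ ζ := by
    intro h0
    have h1 : ζ * (ζ - 1) = 0 := by linear_combination h0
    rcases mul_eq_zero.1 h1 with h2 | h2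
    · rw [h2] at hζw
      norm_num at hζw
    · have h3 : ζ = 1 := sub_eq_zero.1 h2
      rw [h3] at hζw
      norm_num at hζw
  have hcob : ∀ T : Pt (Ed t) (AlgebraicClosure k),
      (∀ s : Gal k, g₁ s = act (Ed t) s.toAlgHom T - T) → IsCob (Ed t) g := by
    intro T hT
    refine ⟨T + T₀, fun s => ?_⟩
    have h5 := hT s
    rw [hg₁] at h5
    have h6 : g s = (act (Ed t) s.toAlgHom T - T) + (act (Ed t) s.toAlgHom T₀ - T₀) := by
      rw [← h5]; abel
    rw [h6, map_add]
    abel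
  by_cases hex : ∃ s : Gal k, s ζ = ζ ^ 2
  · obtain ⟨s₀, hs₀⟩ := hex
    set R := g₁ s₀ with hR
    -- the values
    have hRfix : ∀ s : Gal k, s ζ = ζ → act (Ed t) s.toAlgHom R = R := by
      intro s hs
      obtain ⟨σ, rfl⟩ := hfix s hs
      exact key σ s₀
    have hval : ∀ s : Gal k, s ζ = ζ ^ 2 → g₁ s = R ∧ act (Ed t) s.toAlgHom R = -R := by
      intro s hs
      have e1 : (s * s₀⁻¹) ζ = ζ := by
        show s (s₀⁻¹ ζ) = ζ
        have h1 : s₀⁻¹ (ζ ^ 2) = ζ := by
          rw [← hs₀]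
          show s₀.symm (s₀ ζ) = ζ
          exact s₀.symm_apply_apply ζ
        have h2 : s₀⁻¹ ζ = ζ ^ 2 := by
          have h3 : (s₀⁻¹ ζ) ^ 2 = ζ := by rw [← map_pow]; exact h1
          have h4 : s₀⁻¹ ζ = (s₀⁻¹ ζ) ^ 4 := by
            have h5 : (s₀⁻¹ ζ) ^ 3 = 1 := by rw [← map_pow, hζ3, map_one]
            linear_combination (-(s₀⁻¹ ζ)) * h5
          rw [h4, show (s₀⁻¹ ζ) ^ 4 = ((s₀⁻¹ ζ) ^ 2) ^ 2 by ring, h3]
        rw [h2, map_pow, hs]
        linear_combination ζ * hζ3
      have e2 : s = (s * s₀⁻¹) * s₀ := by group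
      have e3 := hc.2 (s * s₀⁻¹) s₀
      rw [← e2, hzero _ e1, zero_add] at e3
      have e4 : g₁ s = R := by
        rw [e3]
        exact hRfix _ e1
      refine ⟨e4, ?_⟩
      have e5 : (s * s) ζ = ζ := by
        show s (s ζ) = ζ
        rw [hs, map_pow, hs]
        linear_combination ζ * hζ3
      have e6 := hc.2 s s
      rw [hzero _ e5, e4] at e6
      exact (neg_eq_of_add_eq_zero_right e6.symm).symm
    have hsemi : ∀ (s : Gal k) (Q : Pt (Ed t) (AlgebraicClosure k)) (hs3 : (s ζ) ^ 3 = 1),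
        act (Ed t) s.toAlgHom (rotP t hζ3 Q) = rotP t hs3 (act (Ed t) s.toAlgHom Q) := by
      intro s Q hs3
      rcases pt_cases Q with rfl | ⟨x, y, hx, rfl⟩
      · simp
      · obtain ⟨h1, e1⟩ := rotP_mk (t := t) hζ3 hx
        rw [e1, act_mk, act_mk]
        obtain ⟨h2, e2⟩ := rotP_mk (t := t) hs3
          ((Affine.baseChange_nonsingular (Ed t) s.toAlgHom.injective ..).mpr hx)
        rw [e2]
        refine mk_ext.2 ⟨?_, rfl⟩
        exact map_mul s ζ x
    have hrot2 : ∀ (Q : Pt (Ed t) (AlgebraicClosure k)) (h6 : (ζ ^ 2) ^ 3 = 1),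
        rotP t h6 Q = rotP t hζ3 (rotP t hζ3 Q) := by
      intro Q h6
      rcases pt_cases Q with rfl | ⟨x, y, hx, rfl⟩
      · simp
      · obtain ⟨h1, e1⟩ := rotP_mk (t := t) hζ3 hx
        obtain ⟨h2, e2⟩ := rotP_mk (t := t) hζ3 h1
        obtain ⟨h3, e3⟩ := rotP_mk (t := t) h6 hx
        rw [e1, e2, e3]
        exact mk_ext.2 ⟨by ring, rfl⟩
    refine hcob (rotP t hζ3 R) fun s => ?_
    have hs3 : (s ζ) ^ 3 = 1 := by rw [← map_pow, hζ3, map_one]
    rw [hsemi s R hs3]
    rcases hdich s with hs | hs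
    · rw [hzero s hs, hRfix s hs]
      have e : rotP t hs3 R = rotP t hζ3 R := by
        congr 2
      rw [e, sub_self]
    · obtain ⟨v1, v2⟩ := hval s hs
      rw [v1, v2]
      have h6 : (ζ ^ 2) ^ 3 = 1 := by linear_combination (ζ ^ 3 + 1) * hζ3
      have e : rotP t hs3 (-R) = rotP t h6 (-R) := by
        congr 2
      rw [e, hrot2, map_neg, map_neg]
      have e7 := rotP_sum (t := t) hζ3 hζw R
      have e8 : R = -rotP t hζ3 (rotP t hζ3 R) - rotP t hζ3 R := by
        rw [eq_comm, ← sub_eq_zero, ← neg_eq_zero, ← e7]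
        abel
      exact e8
  · push Not at hex
    refine hcob 0 fun s => ?_
    rw [map_zero, sub_zero]
    exact hzero s ((hdich s).resolve_right (hex s))

end inj

/-- a multiple of a class is zero -/
lemma smul_cob {F : Type} [Field F] [NumberField F] {W : WeierstrassCurve F} {f : Coch W}
    (hf : f ∈ Pool.Agent.TH841.NF.D.shaCoc W) (n : ℕ) :
    n • (QuotientAddGroup.mk ⟨f, hf⟩ : Pool.Agent.TH841.NF.D.Sha W) = 0 ↔ IsCob W (n • f) := by
  have e : n • (QuotientAddGroup.mk ⟨f, hf⟩ : Pool.Agent.TH841.NF.D.Sha W) =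
      QuotientAddGroup.mk (n • (⟨f, hf⟩ : Pool.Agent.TH841.NF.D.shaCoc W)) := rfl
  rw [e]
  refine (QuotientAddGroup.eq_zero_iff (n • (⟨f, hf⟩ : Pool.Agent.TH841.NF.D.shaCoc W))).trans ?_
  rw [AddSubgroup.mem_addSubgroupOf, AddSubgroup.coe_nsmul]
  rfl

/-- **descent of the triviality of the 2-part of the Tate-Shafarevich group** -/
theorem sha_quad {k K : Type} [Field k] [NumberField k] [Field K] [NumberField K] [Algebra k K]
    [Normal k K] {z : K} (hw : z ^ 2 + z + 1 = 0) (hgen : IntermediateField.adjoin k {z} = ⊤)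
    {d : ℤ} (hd : Dd d)
    (hsha : ∀ (y : Pool.Agent.TH841.NF.D.Sha (Ed (d : K))) (n : ℕ), 2 ^ n • y = 0 → y = 0)
    (x : Pool.Agent.TH841.NF.D.Sha (Ed (d : k))) {n : ℕ} (hx : 2 ^ n • x = 0) : x = 0 := by
  have hcl : IsAlgClosure k (AlgebraicClosure K) :=
    ⟨inferInstance, Algebra.IsAlgebraic.trans k K (AlgebraicClosure K)⟩
  let j : AlgebraicClosure k ≃ₐ[k] AlgebraicClosure K :=
    IsAlgClosure.equiv k (AlgebraicClosure k) (AlgebraicClosure K)
  have hne : NeZero (algebraMap k (AlgebraicClosure k) (d : k)) := ⟨by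
    rw [Ne, map_eq_zero]
    exact d_neF hd⟩
  have hE : (Ed (d : k)).baseChange K = Ed (d : K) := by
    show (Ed (d : k)).map (algebraMap k K) = _
    unfold Ed WeierstrassCurve.map
    simp only [map_zero, map_pow, map_mul, map_ofNat, map_intCast]
  have hsha' : ∀ (y : Pool.Agent.TH841.NF.D.Sha ((Ed (d : k)).baseChange K)) (n : ℕ),
      2 ^ n • y = 0 → y = 0 := by
    rw [hE]
    exact hsha
  obtain ⟨⟨f, hf⟩, rfl⟩ := QuotientAddGroup.mk_surjective x
  obtain ⟨Q, hQ⟩ := (smul_cob hf (2 ^ n)).1 hx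
  have hf' : Pool.Agent.TH841.NF.D.IsShaCoc (Ed (d : k)) f := hf
  have hrc : IsCoc ((Ed (d : k)).baseChange K) (rst (Ed (d : k)) j f) := rst_coc (Ed (d : k)) j hf'.1
  have hmem : rst (Ed (d : k)) j f ∈ Pool.Agent.TH841.NF.D.shaCoc ((Ed (d : k)).baseChange K) :=
    ⟨hrc, rst_fin (Ed (d : k)) j hf'.2.1, rst_inf (Ed (d : k)) j hf'.2.2⟩
  have hz := hsha' (QuotientAddGroup.mk ⟨rst (Ed (d : k)) j f, hmem⟩) n
    ((smul_cob hmem (2 ^ n)).2 (by
      refine ⟨tr (Ed (d : k)) K (AlgebraicClosure K) (act (Ed (d : k)) (j : _ →ₐ[k] _) Q),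
        fun σ => ?_⟩
      have h2 : (2 ^ n • rst (Ed (d : k)) j f) σ = 2 ^ n • rst (Ed (d : k)) j f σ := rfl
      have h3 : 2 ^ n • f (res j σ) = act (Ed (d : k)) (res j σ).toAlgHom Q - Q := hQ (res j σ)
      rw [h2, rst_apply, ← map_nsmul, ← map_nsmul, h3, map_sub, map_sub, tr_act_res]))
  have hcob : IsCob ((Ed (d : k)).baseChange K) (rst (Ed (d : k)) j f) := by
    have h4 := (smul_cob hmem 1).1 (by rw [one_smul]; exact hz)
    rwa [one_smul] at h4
  have h5 := (smul_cob hf 1).2 (by rw [one_smul]; exact res_inj j hw hgen hf'.1 hcob)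
  rwa [one_smul] at h5

end Pool.Agent.H98.W
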