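import Pool.Agent.H98.W.Fin
import Pool.Agent.H98.W.Qa
import Pool.Agent.H98.W.Qr
import Pool.Agent.H98.W.Qp
import Pool.Agent.H98.W.Qs

/-!
# The rational numbers
-/

set_option autoImplicit false
set_option linter.unusedSectionVars false
set_option linter.unusedVariables false

open Complex NumberField IsDedekindDomain Filter Topology WeierstrassCurve
open scoped Classical

namespace Pool.Agent.H98.W

open Pool.Agent.K7.H56
open Pool.Agent.K7.H56.P
open Pool.Agent.K7.H56.M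
open Pool.Agent.Y696 (IsPeriods period Cur v_period v_period_conj)
open Pool.Agent.K7.H70.AS
open Pool.Agent.K7.H70.SM (NG Gz no_cube_of_two)
open Pool.Agent.K7.H73.L3 (gz3 ngs3 fr3 CE)
open Pool.Agent.K7.H73.T2 (Om)
open Pool.Agent.K7.H70.TW (Ed)
open Pool.Agent.TH942 Pool.Agent.TH910.LS
open Pool.Agent.H98.R
open Pool.Agent.H98.Q
open Pool.Agent.TH841.NF.D (Sha)

/-- the facts over the smaller field -/
structure Low (d : ℤ) (Q F : Type) [Field Q] [NumberField Q] [Field F] [NumberField F] : Prop where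
  fg : AddGroup.FG (Ed (d : Q)).toAffine.Point
  tor : ∀ P : (Ed (d : Q)).toAffine.Point, P + P = 0 → P = 0
  zero : Tw d F → Module.finrank ℤ (Ed (d : Q)).toAffine.Point = 0
  one : ¬ Tw d F → Module.finrank ℤ (Ed (d : Q)).toAffine.Point = 1
  sha : ¬ Tw d F → ∀ (x : Sha (Ed (d : Q))) (n : ℕ), 2 ^ n • x = 0 → x = 0
  reg : ¬ Tw d F → ∀ u : Fin 1 → (Ed (d : Q)).toAffine.Point, IsBasisModTors u →
    0 < (gram (ch d Q) u).det ∧
    ∀ g : Fin 2 → (Ed (d : F)).toAffine.Point, IsBasisModTors g →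
      ∃ N : ℤ, Odd N ∧ 3 * (gram (ch d Q) u).det ^ 2 = (N : ℝ) ^ 2 * (gram (ch d F) g).det

section low
variable {Q F : Type} [Field Q] [NumberField Q] [Field F] [NumberField F] [Algebra Q F]
  [IsGalois Q F] {d : ℤ}

theorem low_of (hd : Dd d) (h2 : Module.finrank Q F = 2) {z : F}
    (hw : z ^ 2 + z + 1 = 0) (hzQ : ∀ x : Q, algebraMap Q F x ≠ z) (hF : Gz F) (hp : Pd d F)
    (h3 : ∀ x : Q, x ^ 3 ≠ 2) : Low d Q F := by
  have hne : NeZero (d : F) := ⟨d_neF hd⟩
  have hA : AddGroup.FG (Ed (d : F)).toAffine.Point := fgd F d hd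
  have hq : AddGroup.FG (Ed (d : Q)).toAffine.Point := fgd Q d hd
  have hgen : IntermediateField.adjoin Q {z} = ⊤ := by
    have hpr : (Module.finrank Q F).Prime := by rw [h2]; exact Nat.prime_two
    have hs : IsSimpleOrder (IntermediateField Q F) :=
      IntermediateField.isSimpleOrder_of_finrank_prime Q F hpr
    rcases hs.eq_bot_or_eq_top (IntermediateField.adjoin Q {z}) with h | h
    · exfalso
      rw [IntermediateField.adjoin_simple_eq_bot_iff, IntermediateField.mem_bot] at h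
      obtain ⟨x, hx⟩ := h
      exact hzQ x hx
    · exact h
  have h2F : ¬ Tw d F → Module.finrank ℤ (Ed (d : F)).toAffine.Point = 2 := (rank_of hd hF hp).2
  refine ⟨hq, no_two_pt hd h3, fun hT => ?_, fun hT => ?_, fun hT x n hx => ?_, fun hT u hu => ?_⟩
  · have hfin : Finite (Ed (d : F)).toAffine.Point := fin_of_dbl hA hT
    have hf : Finite (Ed (d : Q)).toAffine.Point := Finite.of_injective _ (emb_inj d (inc Q F))
    exact Pool.Agent.Y688.finrank_fin _
  · obtain ⟨r, u, hu⟩ := exists_basis hq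
    have h1 := (reg_quad hd h2 hw hzQ hA (h2F hT)).1 hu
    subst h1
    rw [card_basis hu, Fintype.card_fin]
  · exact sha_quad hw hgen hd (fun y n hy => Pool.Agent.H98.V.sha_of_rank hF hd hp hT y hy) x hx
  · exact ⟨reg_pos hd hu, fun g hg => (reg_quad hd h2 hw hzQ hA (h2F hT)).2 hg hu⟩

end low

/-- **the rational numbers** -/
theorem low_Q {d : ℤ} (hd : Dd d) (F : Type) [Field F] [NumberField F]
    [IsCyclotomicExtension {3} ℚ F] : Low d ℚ F := by
  have hp : Pd d F := Pool.Agent.H98.V.pd_cyc hd F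
  obtain ⟨z, hz⟩ := (gz3 F).om
  have hg : IsGalois ℚ F := IsCyclotomicExtension.isGalois {3} ℚ F
  have hU : Unr2 ℚ := unr2_down (F := ℚ) (K := F) (gz3 F).two
  refine low_of (Q := ℚ) (F := F) hd (fr3 F) hz (fun x hx => ?_) (gz3 F) hp (no_cube_of_two hU)
  have h1 : algebraMap ℚ F (x ^ 2 + x + 1) = 0 := by
    rw [map_add, map_add, map_pow, map_one, hx]
    exact hz
  have h2 : x ^ 2 + x + 1 = 0 := by
    apply (algebraMap ℚ F).injective
    rw [h1, map_zero]
  nlinarith [sq_nonneg (2 * x + 1)]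

/-- **the periods and the Tamagawa numbers** -/
theorem per_Q {d : ℤ} (hd : Dd d) {W : WeierstrassCurve ℚ} {C : VariableChange ℚ}
    (hC : C • W = Ed (d : ℚ)) {Λ : PeriodPair} {w : ℝ} (hΛ : IsPeriods Λ w) {Ω : ℂ}
    (hCur : Cur Λ Ω) : Unr2 ℚ ∧ 0 < Om W ∧ 0 < CE W ∧
      ∀ (Γ : Type) [LinearOrderedCommGroupWithZero Γ] (v : Valuation ℂ Γ), v 2 < 1 →
        v ((Om W : ℝ) : ℂ) * v ((CE W : ℝ) : ℂ) = v 2 * v Ω := by
  have hcyc : IsCyclotomicExtension {3} ℚ (CyclotomicField 3 ℚ) :=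
    CyclotomicField.isCyclotomicExtension 3 ℚ
  obtain ⟨F, hF1, hF2, hF3⟩ : ∃ (F : Type) (_ : Field F) (_ : NumberField F),
      IsCyclotomicExtension {3} ℚ F := ⟨CyclotomicField 3 ℚ, inferInstance, inferInstance, hcyc⟩
  have hp : Pd d F := Pool.Agent.H98.V.pd_cyc hd F
  have hp0 : Pd d ℚ := d_down (N := ℚ) hd hp
  have hNG0 : NG ℚ := ngs3 (F := F) (K := F) ⟨0, by rw [Module.finrank_self, pow_zero]⟩
  have hU : Unr2 ℚ := unr2_down (F := ℚ) (K := F) (gz3 F).two
  obtain ⟨o1, o2, o3⟩ := om_ce_Q hd hp0 hNG0 hC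
  refine ⟨hU, o1, o2, fun Γ _ v hv => ?_⟩
  rw [o3 Λ w hΛ Γ v hv, (per_val hΛ hCur hv ℚ).1, Module.finrank_self, pow_one]

end Pool.Agent.H98.W
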