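import Pool.Agent.H98.B.Concl

/-!
# Leading coefficients
-/

set_option autoImplicit false
set_option linter.unusedSectionVars false
set_option linter.unusedVariables false

open Complex NumberField IsDedekindDomain Filter Topology

namespace Pool.Agent.H98.W

open Pool.Agent.K7.H56
open Pool.Agent.K7.H56.P
open Pool.Agent.R430
open Pool.Agent.Y696 Pool.Agent.W192.HK Pool.Agent.TH936.CM H667R3
open Pool.Agent.K7.H56.M
open Pool.Agent.TH936.PU
open Pool.Agent.K7.H70.AS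
open Pool.Agent.K7.H70.SM
open Pool.Agent.H98.B

/-- the order at one is `m` and the leading coefficient is `c` -/
def LC (h : ℂ → ℂ) (m : ℕ) (c : ℂ) : Prop :=
  c ≠ 0 ∧ ∃ u : ℂ → ℂ, AnalyticAt ℂ u 1 ∧ u 1 = c ∧ ∀ᶠ z in 𝓝 (1 : ℂ), h z = (z - 1) ^ m * u z

section
variable {f g h : ℂ → ℂ} {m n : ℕ} {c e : ℂ}

lemma LC.congr (H : LC g m c) (he : f =ᶠ[𝓝 1] g) : LC f m c := by
  obtain ⟨h0, u, h1, h2, h3⟩ := H
  refine ⟨h0, u, h1, h2, ?_⟩
  filter_upwards [he, h3] with z hz hz'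
  rw [hz, hz']

lemma LC.mul (H : LC f m c) (H' : LC g n e) : LC (fun s => f s * g s) (m + n) (c * e) := by
  obtain ⟨h0, u, h1, h2, h3⟩ := H
  obtain ⟨k0, w, k1, k2, k3⟩ := H'
  refine ⟨mul_ne_zero h0 k0, fun s => u s * w s, h1.mul k1, by simp only [h2, k2], ?_⟩
  filter_upwards [h3, k3] with z hz hz'
  rw [hz, hz', pow_add]
  ring

lemma lc_zero (hf : AnalyticAt ℂ f 1) (h : f 1 ≠ 0) : LC f 0 (f 1) :=
  ⟨h, f, hf, rfl, by filter_upwards with z; rw [pow_zero, one_mul]⟩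

lemma LC.an (H : LC f m c) : AnalyticAt ℂ f 1 := by
  obtain ⟨h0, u, h1, h2, h3⟩ := H
  have h4 : AnalyticAt ℂ (fun z : ℂ => (z - 1) ^ m * u z) 1 :=
    ((analyticAt_id.sub analyticAt_const).pow m).mul h1
  exact h4.congr (EventuallyEq.symm h3)

lemma LC.order (H : LC f m c) : analyticOrderAt f 1 = m := by
  have ha := H.an
  obtain ⟨h0, u, h1, h2, h3⟩ := H
  rw [ha.analyticOrderAt_eq_natCast]
  exact ⟨u, h1, by rw [h2]; exact h0, by simpa only [smul_eq_mul] using h3⟩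

lemma lc_of_order (hf : AnalyticAt ℂ f 1) (h : analyticOrderAt f 1 = m) : ∃ c, LC f m c := by
  obtain ⟨u, hu, hu1, he⟩ := hf.analyticOrderAt_eq_natCast.1 h
  exact ⟨u 1, hu1, u, hu, rfl, by simpa only [smul_eq_mul] using he⟩

lemma LC.tendsto (H : LC f m c) : Tendsto (fun s => f s / (s - 1) ^ m) (𝓝[≠] 1) (𝓝 c) := by
  obtain ⟨h0, u, h1, h2, h3⟩ := H
  have h4 : Tendsto u (𝓝[≠] 1) (𝓝 c) := by
    have := h1.continuousAt.tendsto
    rw [h2] at this
    exact this.mono_left nhdsWithin_le_nhds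
  refine h4.congr' ?_
  have h5 : ∀ᶠ z in 𝓝[≠] (1 : ℂ), z ≠ 1 := eventually_mem_nhdsWithin
  filter_upwards [h5, nhdsWithin_le_nhds h3] with z hz hz'
  rw [hz', mul_div_cancel_left₀]
  exact pow_ne_zero _ (sub_ne_zero.2 hz)

lemma LC.uniq (H : LC f m c) (H' : LC f n e) : m = n ∧ c = e := by
  have h1 : m = n := by
    have := H.order.symm.trans H'.order
    exact_mod_cast this
  subst h1
  exact ⟨rfl, tendsto_nhds_unique H.tendsto H'.tendsto⟩

lemma LC.div_left (hf : AnalyticAt ℂ f 1) (hf1 : f 1 ≠ 0) (H : LC h m c)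
    (he : h =ᶠ[𝓝 1] fun s => f s * g s) : LC g m (c / f 1) := by
  have hi : AnalyticAt ℂ (fun s => (f s)⁻¹) 1 := hf.inv hf1
  have h1 := (lc_zero hi (inv_ne_zero hf1)).mul H
  rw [zero_add, mul_comm, ← div_eq_mul_inv] at h1
  refine h1.congr ?_
  have h2 : ∀ᶠ z in 𝓝 (1 : ℂ), f z ≠ 0 := hf.continuousAt.eventually_ne hf1
  filter_upwards [he, h2] with z hz hz'
  rw [hz, inv_mul_cancel_left₀ hz']

lemma LC.mul_left (hf : AnalyticAt ℂ f 1) (hf1 : f 1 ≠ 0) (H : LC g m c)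
    (he : h =ᶠ[𝓝 1] fun s => f s * g s) : LC h m (f 1 * c) := by
  have h1 := (lc_zero hf hf1).mul H
  rw [zero_add] at h1
  exact h1.congr he

lemma LC.conj (H : LC g m c) :
    LC (fun s => (starRingEnd ℂ) (g ((starRingEnd ℂ) s))) m ((starRingEnd ℂ) c) := by
  obtain ⟨h0, u, h1, h2, h3⟩ := H
  refine ⟨(map_ne_zero _).2 h0, fun s => (starRingEnd ℂ) (u ((starRingEnd ℂ) s)),
    an_conj (by rw [map_one]; exact h1), by simp only [map_one, h2], ?_⟩
  have h1 : Filter.Tendsto (fun s : ℂ => (starRingEnd ℂ) s) (𝓝 1) (𝓝 1) := by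
    have := Complex.continuous_conj.tendsto 1
    rwa [map_one] at this
  filter_upwards [h1.eventually h3] with s hs
  rw [hs, map_mul, map_pow, map_sub, map_one, Complex.conj_conj]

lemma LC.lam (H : LC g m c) : LC (Lam g) (2 * m) (c * (starRingEnd ℂ) c) := by
  have h1 := H.mul H.conj
  rw [← two_mul] at h1
  exact h1

end

section
variable {N : Type} [Field N] [NumberField N]
variable {n : ℕ} {X : Ideal (𝓞 N) → ℂ} {ι : Pool.Agent.Y688.RR →+* 𝓞 N} {f g : ℂ → ℂ}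

/-- removing Euler factors -/
lemma rem_lc {S : Finset (HeightOneSpectrum (𝓞 N))} (hS : ∀ P ∈ S, (n : 𝓞 N) ∈ P.asIdeal)
    (hX : IH n X) (hf : VV ι X f) (hg : VV ι (fun I => ind S I * X I) g) {m : ℕ} {c : ℂ}
    (H : LC f m c) : LC g m ((∏ P ∈ S, (1 - gI ι X 1 P.asIdeal)) * c) := by
  have hd : Differentiable ℂ (fun s => ∏ P ∈ S, (1 - gI ι X s P.asIdeal)) :=
    Differentiable.fun_finsetProd fun v _ => (differentiable_const _).sub (gI_diff _ v)
  exact H.mul_left (f := fun s => ∏ P ∈ S, (1 - gI ι X s P.asIdeal)) (hd.analyticAt 1)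
    (Finset.prod_ne_zero_iff.2 fun P _ => one_sub_gI_ne hX P (by rw [Complex.one_re]))
    (rem_ev hS hX hf hg)

end

end Pool.Agent.H98.W
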