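import Pool.Agent.H98.W.Fin2

/-!
# The order of vanishing and the leading coefficient
-/

set_option autoImplicit false

open Complex NumberField IsDedekindDomain Filter Topology

namespace Pool.Agent.H98.W

open Pool.Agent.H98.B (Bsd)

lemma order_of_tendsto {Φ : ℂ → ℂ} (ha : AnalyticAt ℂ Φ 1) {m : ℕ} {c : ℂ} (hc : c ≠ 0)
    (ht : Tendsto (fun s => Φ s / (s - 1) ^ m) (𝓝[≠] 1) (𝓝 c)) : analyticOrderAt Φ 1 = m := by
  have hid : AnalyticAt ℂ (fun s : ℂ => s - 1) 1 := analyticAt_id.sub analyticAt_const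
  have h1 : MeromorphicAt (fun s : ℂ => Φ s / (s - 1) ^ m) 1 :=
    ha.meromorphicAt.div (hid.pow m).meromorphicAt
  have h2 : meromorphicOrderAt (fun s : ℂ => Φ s / (s - 1) ^ m) 1 = 0 :=
    (tendsto_ne_zero_iff_meromorphicOrderAt_eq_zero h1).1 ⟨c, hc, ht⟩
  have h3 : meromorphicOrderAt (fun s : ℂ => (s - 1) ^ m * (Φ s / (s - 1) ^ m)) 1 =
      meromorphicOrderAt Φ 1 := by
    apply meromorphicOrderAt_congr
    filter_upwards [self_mem_nhdsWithin] with s hs
    have : (s - 1) ^ m ≠ 0 := pow_ne_zero m (sub_ne_zero.2 hs)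
    field_simp
  have h4 : meromorphicOrderAt (fun s : ℂ => (s - 1) ^ m) 1 = (m : ℤ) := by
    refine (meromorphicOrderAt_eq_int_iff (f := fun s : ℂ => (s - 1) ^ m) (x := 1)
      (hid.pow m).meromorphicAt).2 ?_
    refine ⟨fun _ => 1, analyticAt_const, one_ne_zero, ?_⟩
    filter_upwards with s
    simp
  have h5 : meromorphicOrderAt (fun s : ℂ => (s - 1) ^ m * (Φ s / (s - 1) ^ m)) 1 = (m : ℤ) := by
    have := meromorphicOrderAt_mul (hid.pow m).meromorphicAt h1
    rw [h2, add_zero] at this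
    rw [← h4]
    exact this
  rw [h3, ha.meromorphicOrderAt_eq] at h5
  have key : ∀ a : ℕ∞, ENat.map (Nat.cast : ℕ → ℤ) a = ((m : ℤ) : WithTop ℤ) → a = m := by
    intro a h
    induction a using ENat.recTopCoe with
    | top => exact absurd h (by simp)
    | coe n =>
      have h' : ((n : ℤ) : WithTop ℤ) = ((m : ℤ) : WithTop ℤ) := h
      have : (n : ℤ) = m := by exact_mod_cast h'
      exact_mod_cast this
  exact key _ h5

/-- the order of vanishing of a function with a leading coefficient -/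
theorem Ldc.bsd {k : Type} [Field k] [NumberField k] {W : WeierstrassCurve k} {m : ℕ} {c : ℂ}
    (h : Ldc W m c) : Bsd W m := by
  obtain ⟨U, Φ, h1, h2, h3, h4, h5, h6, h7, h8⟩ := h
  have ha : AnalyticAt ℂ Φ 1 := h5 1 h4
  have ho := order_of_tendsto ha h7 h8
  refine ⟨U, Φ, h1, h2, h3, h4, h5, h6, ?_, fun h0 => ?_⟩
  · exact (natCast_le_analyticOrderAt_iff_iteratedDeriv_eq_zero ha).1 ho.ge
  · have h1 : ((m + 1 : ℕ) : ℕ∞) ≤ analyticOrderAt Φ 1 := by
      rw [natCast_le_analyticOrderAt_iff_iteratedDeriv_eq_zero ha]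
      intro i hi
      rcases Nat.lt_succ_iff_lt_or_eq.1 hi with h | h
      · exact (natCast_le_analyticOrderAt_iff_iteratedDeriv_eq_zero ha).1 ho.ge i h
      · rw [h, h0]
    rw [ho] at h1
    have h2 : m + 1 ≤ m := by exact_mod_cast h1
    omega

end Pool.Agent.H98.W
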