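import Pool.Agent.H98.W.Rg

/-!
# A group with an action of the ring of Eisenstein integers and a semilinear involution
-/

set_option autoImplicit false
set_option linter.unusedSectionVars false
set_option linter.unusedVariables false

open Matrix

namespace Pool.Agent.H98.W

open Pool.Agent.TH942 Pool.Agent.TH910.LS

/-- the data -/
structure Semi {A B : Type} [AddCommGroup A] [AddCommGroup B] (φ : B →+ A) (τ ρ : A →+ A) : Prop where
  inj : Function.Injective φ
  fix : ∀ b, τ (φ b) = φ b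
  desc : ∀ a, τ a = a → ∃ b, φ b = a
  sum : ∀ a, a + ρ a + ρ (ρ a) = 0
  comm : ∀ a, τ (ρ a) = ρ (ρ (τ a))
  inv : ∀ a, τ (τ a) = a

section
variable {A B : Type} [AddCommGroup A] [AddCommGroup B] {φ : B →+ A} {τ ρ : A →+ A}

lemma Semi.two (S : Semi φ τ ρ) (a : A) : ρ (ρ a) = -a - ρ a := by
  have := S.sum a
  rw [add_comm] at this
  rw [eq_neg_of_add_eq_zero_left this]
  abel

lemma Semi.three (S : Semi φ τ ρ) (a : A) : ρ (ρ (ρ a)) = a := by
  rw [S.two (ρ a), S.two a]
  abel

/-- three times an element -/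
lemma Semi.triple (S : Semi φ τ ρ) (a : A) : ∃ b₁ b₂ : B, (3 : ℤ) • a = φ b₁ + ρ (φ b₂) := by
  obtain ⟨u, hu⟩ := S.desc (a + τ a) (by rw [map_add, S.inv, add_comm])
  obtain ⟨w, hw⟩ := S.desc (ρ a + ρ (ρ (τ a))) (by
    rw [map_add, S.comm, S.comm (ρ (τ a)), S.comm (τ a), S.inv]
    rw [S.three, add_comm])
  refine ⟨u - w, -(w + w + u), ?_⟩
  have h1 : ρ (τ a) = ρ (φ u) - ρ a := by
    rw [hu, map_add]
    abel
  have h2 : ρ (ρ (τ a)) = -φ u - ρ (φ u) + a + ρ a := by
    have := S.two (τ a)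
    rw [this, h1, hu]
    abel
  rw [h2] at hw
  have e : ρ (φ w) = ρ (-φ u - ρ (φ u) + a + ρ a + ρ a) := by
    rw [hw]
    congr 1
    abel
  simp only [map_add, map_sub, map_neg] at e
  rw [S.two, S.two] at e
  rw [map_sub, map_neg, map_neg, map_add, map_add, map_add, map_add]
  rw [e, hw]
  simp only [show (3 : ℤ) • a = a + a + a by rw [show (3 : ℤ) = 1 + 1 + 1 from rfl, add_smul, add_smul, one_smul]]
  abel

lemma tors_smul {a : A} {n : ℤ} (hn : n ≠ 0) (h : IsOfFinAddOrder (n • a)) : IsOfFinAddOrder a := by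
  obtain ⟨m, hm, h1⟩ := isOfFinAddOrder_iff_nsmul_eq_zero.1 h
  refine isOfFinAddOrder_iff_zsmul_eq_zero.2 ⟨m * n, mul_ne_zero (by exact_mod_cast hm.ne') hn, ?_⟩
  rw [mul_smul, natCast_zsmul]
  exact h1

lemma tors_map (f : A →+ B) {a : A} (h : IsOfFinAddOrder a) : IsOfFinAddOrder (f a) := by
  obtain ⟨m, hm, h1⟩ := isOfFinAddOrder_iff_nsmul_eq_zero.1 h
  exact isOfFinAddOrder_iff_nsmul_eq_zero.2 ⟨m, hm, by rw [← map_nsmul, h1, map_zero]⟩

lemma tors_neg {a : A} (h : IsOfFinAddOrder a) : IsOfFinAddOrder (-a) := by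
  obtain ⟨m, hm, h1⟩ := isOfFinAddOrder_iff_nsmul_eq_zero.1 h
  exact isOfFinAddOrder_iff_nsmul_eq_zero.2 ⟨m, hm, by rw [smul_neg, h1, neg_zero]⟩

lemma tors_sub {a b : A} (h : IsOfFinAddOrder a) (h' : IsOfFinAddOrder b) :
    IsOfFinAddOrder (a - b) := by
  rw [sub_eq_add_neg]
  exact h.add (tors_neg h')

lemma Semi.tors_inj (S : Semi φ τ ρ) {b : B} (h : IsOfFinAddOrder (φ b)) : IsOfFinAddOrder b := by
  obtain ⟨m, hm, h1⟩ := isOfFinAddOrder_iff_nsmul_eq_zero.1 h
  refine isOfFinAddOrder_iff_nsmul_eq_zero.2 ⟨m, hm, ?_⟩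
  apply S.inj
  rw [map_nsmul, h1, map_zero]

/-- independence -/
lemma Semi.indep (S : Semi φ τ ρ) {b₁ b₂ : B} (h : IsOfFinAddOrder (φ b₁ + ρ (φ b₂))) :
    IsOfFinAddOrder b₁ ∧ IsOfFinAddOrder b₂ := by
  have h1 := tors_map τ h
  rw [map_add, S.fix, S.comm, S.fix] at h1
  have h2 := tors_sub h h1
  have h3 := tors_map ρ h2
  have h4 : IsOfFinAddOrder (φ b₂) := by
    have h5 := tors_sub h3 (tors_map ρ h3)
    refine tors_smul (n := -3) (by norm_num) ?_
    have e : (-3 : ℤ) • φ b₂ = ρ (φ b₁ + ρ (φ b₂) - (φ b₁ + ρ (ρ (φ b₂)))) -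
        ρ (ρ (φ b₁ + ρ (φ b₂) - (φ b₁ + ρ (ρ (φ b₂))))) := by
      simp only [map_add, map_sub]
      rw [S.three (φ b₂)]
      have e1 := S.two (φ b₂)
      have e2 : ρ (ρ (φ b₁)) = -φ b₁ - ρ (φ b₁) := S.two _
      simp only [e1, e2]
      rw [show (-3 : ℤ) • φ b₂ = -(φ b₂ + φ b₂ + φ b₂) by
        rw [neg_smul, show (3 : ℤ) = 1 + 1 + 1 from rfl, add_smul, add_smul, one_smul]]
      abel
    rw [e]
    exact h5
  have h5 : IsOfFinAddOrder (φ b₁) := by
    have e : φ b₁ = (φ b₁ + ρ (φ b₂)) - ρ (φ b₂) := by abel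
    rw [e]
    exact tors_sub h (tors_map ρ h4)
  exact ⟨S.tors_inj h5, S.tors_inj h4⟩

lemma basis_zero {r : ℕ} {u : Fin r → B} (hu : IsBasisModTors u) {c : Fin r → ℤ}
    (h : IsOfFinAddOrder (∑ i, c i • u i)) : c = 0 := by
  obtain ⟨l, -, hl⟩ := hu (∑ i, c i • u i)
  have h1 : c = l := hl c (by
    show IsOfFinAddOrder (∑ i, c i • u i - ∑ i, c i • u i)
    rw [sub_self]
    exact IsOfFinAddOrder.zero)
  have h2 : (0 : Fin r → ℤ) = l := hl 0 (by
    show IsOfFinAddOrder (∑ i, c i • u i - ∑ i, (0 : Fin r → ℤ) i • u i)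
    simpa using h)
  exact h1.trans h2.symm

/-- **the ranks** -/
theorem Semi.rank_one (S : Semi φ τ ρ) (hA : AddGroup.FG A) (hA2 : Module.finrank ℤ A = 2) {r : ℕ}
    {u : Fin r → B} (hu : IsBasisModTors u) : r = 1 := by
  have hfin : Module.Finite ℤ A := Module.Finite.iff_addGroup_fg.2 hA
  have h1 : r ≠ 0 := by
    rintro rfl
    have hB : ∀ b : B, IsOfFinAddOrder b := by
      intro b
      obtain ⟨n, hn, -⟩ := hu b
      simpa using hn
    have hAt : ∀ a : A, IsOfFinAddOrder a := by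
      intro a
      obtain ⟨b₁, b₂, hb⟩ := S.triple a
      refine tors_smul (n := 3) (by norm_num) ?_
      rw [hb]
      exact (tors_map φ (hB b₁)).add (tors_map ρ (tors_map φ (hB b₂)))
    obtain ⟨s, g, hg⟩ := exists_basis hA
    have h2 := card_basis hg
    rw [hA2, Fintype.card_fin] at h2
    subst h2
    have h3 := basis_zero hg (c := fun _ => 1) (hAt _)
    have := congrFun h3 0
    simp at this
  have h2 : 2 * r ≤ 2 := by
    have hli : LinearIndependent ℤ (Sum.elim (fun i => φ (u i)) (fun i => ρ (φ (u i))) :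
        Fin r ⊕ Fin r → A) := by
      rw [Fintype.linearIndependent_iff]
      intro c hc
      rw [Fintype.sum_sum_type] at hc
      simp only [Sum.elim_inl, Sum.elim_inr] at hc
      have e1 : φ (∑ i, c (Sum.inl i) • u i) + ρ (φ (∑ i, c (Sum.inr i) • u i)) = 0 := by
        rw [← hc, map_sum, map_sum, map_sum]
        simp only [map_zsmul]
      obtain ⟨t1, t2⟩ := S.indep (b₁ := ∑ i, c (Sum.inl i) • u i)
        (b₂ := ∑ i, c (Sum.inr i) • u i) (by rw [e1]; exact IsOfFinAddOrder.zero)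
      have z1 := basis_zero hu t1
      have z2 := basis_zero hu t2
      rintro (i | i)
      · exact congrFun z1 i
      · exact congrFun z2 i
    have h3 := hli.fintype_card_le_finrank
    rw [hA2, Fintype.card_sum, Fintype.card_fin] at h3
    omega
  omega

/-- **the regulators** -/
theorem Semi.reg (S : Semi φ τ ρ) {qA : A → ℝ}
    (hqA : ∀ P Q, qA (P + Q) + qA (P - Q) = 2 * (qA P + qA Q)) (hρ : ∀ P, qA (ρ P) = qA P)
    {qB : B → ℝ} (hφ : ∀ P, qA (φ P) = 2 * qB P)
    (hqB : ∀ P Q, qB (P + Q) + qB (P - Q) = 2 * (qB P + qB Q))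
    {g : Fin 2 → A} (hg : IsBasisModTors g) {u : Fin 1 → B} (hu : IsBasisModTors u) :
    ∃ N : ℤ, Odd N ∧ 3 * (gram qB u).det ^ 2 = (N : ℝ) ^ 2 * (gram qA g).det := by
  set P₀ : A := φ (u 0) with hP₀
  set h : Fin 2 → A := ![P₀, ρ P₀] with hh
  choose n hn hn' using fun j => hg (h j)
  have key := gram_sub (qB := qA) hqA (AddMonoidHom.id A) (c := 1) (fun P => (one_mul _).symm)
    (g := g) (h := h) (n := n) hn
  rw [one_pow, one_mul] at key
  -- the values
  have q0 : qA 0 = 0 := by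
    have := hqA 0 0
    rw [add_zero, sub_zero] at this
    linarith
  have qneg : ∀ P, qA (-P) = qA P := by
    intro P
    have := hqA 0 P
    rw [zero_add, zero_sub, q0] at this
    linarith
  have qdbl : ∀ P, qA (P + P) = 4 * qA P := by
    intro P
    have := hqA P P
    rw [sub_self, q0] at this
    linarith
  have qB0 : qB 0 = 0 := by
    have := hqB 0 0
    rw [add_zero, sub_zero] at this
    linarith
  have qBdbl : ∀ P, qB (P + P) = 4 * qB P := by
    intro P
    have := hqB P P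
    rw [sub_self, qB0] at this
    linarith
  have qs : qA (P₀ + ρ P₀) = qA P₀ := by
    have e : P₀ + ρ P₀ = -(ρ (ρ P₀)) := by
      rw [S.two]
      abel
    rw [e, qneg, hρ, hρ]
  have qs' : qA (ρ P₀ + P₀) = qA P₀ := by rw [add_comm]; exact qs
  have d1 : (gram qA h).det = 3 / 4 * qA P₀ ^ 2 := by
    rw [Matrix.det_fin_two]
    unfold Pool.Agent.TH942.gram
    simp only [Matrix.of_apply, hh, Matrix.cons_val_zero, Matrix.cons_val_one]
    rw [qdbl, qdbl, qs, qs', hρ]
    ring
  have d2 : (gram qB u).det = qB (u 0) := by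
    rw [Matrix.det_fin_one]
    unfold Pool.Agent.TH942.gram
    simp only [Matrix.of_apply]
    rw [qBdbl]
    ring
  refine ⟨(Matrix.of n).det, ?_, ?_⟩
  · -- the index divides nine
    have hm : ∀ i, ∃ m : Fin 2 → ℤ, IsOfFinAddOrder ((3 : ℤ) • g i - ∑ j, m j • h j) := by
      intro i
      obtain ⟨b₁, b₂, hb⟩ := S.triple (g i)
      obtain ⟨k₁, hk₁, -⟩ := hu b₁
      obtain ⟨k₂, hk₂, -⟩ := hu b₂
      rw [Fin.sum_univ_one] at hk₁ hk₂
      refine ⟨![k₁ 0, k₂ 0], ?_⟩
      rw [Fin.sum_univ_two]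
      simp only [hh, Matrix.cons_val_zero, Matrix.cons_val_one]
      have e : (3 : ℤ) • g i - (k₁ 0 • P₀ + k₂ 0 • ρ P₀) =
          φ (b₁ - k₁ 0 • u 0) + ρ (φ (b₂ - k₂ 0 • u 0)) := by
        rw [hb, map_sub, map_sub, map_sub, map_zsmul, map_zsmul, map_zsmul]
        abel
      rw [e]
      exact (tors_map φ hk₁).add (tors_map ρ (tors_map φ hk₂))
    choose m hm using hm
    have hprod : Matrix.of m * Matrix.of n = (3 : ℤ) • (1 : Matrix (Fin 2) (Fin 2) ℤ) := by
      ext i k
      have h5 : IsOfFinAddOrder (∑ k, (∑ j, m i j * n j k - if i = k then 3 else 0) • g k) := by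
        have e : ∑ k, (∑ j, m i j * n j k - if i = k then 3 else 0) • g k =
            -((3 : ℤ) • g i - ∑ j, m i j • h j) - ∑ j, m i j • (h j - ∑ k, n j k • g k) := by
          simp only [sub_smul, Finset.sum_sub_distrib, smul_sub, Finset.sum_smul, ite_smul, zero_smul,
            Finset.sum_ite_eq, Finset.mem_univ, if_true, Finset.smul_sum, smul_smul]
          rw [Finset.sum_comm]
          abel
        rw [e]
        refine tors_sub (tors_neg (hm i)) ?_
        have hs : ∀ s : Finset (Fin 2), IsOfFinAddOrder (∑ j ∈ s, m i j • (h j - ∑ k, n j k • g k)) := by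
          intro s
          induction s using Finset.induction_on with
          | empty =>
            rw [Finset.sum_empty]
            exact IsOfFinAddOrder.zero
          | insert x s hx ih =>
            rw [Finset.sum_insert hx]
            exact (IsOfFinAddOrder.zsmul (hn x)).add ih
        exact hs _
      have h6 := congrFun (basis_zero hg h5) k
      simp only [Pi.zero_apply] at h6
      rw [Matrix.mul_apply, Matrix.smul_apply, Matrix.one_apply]
      simp only [Matrix.of_apply]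
      rw [sub_eq_zero] at h6
      rw [h6]
      split_ifs <;> simp
    have hdet := congrArg Matrix.det hprod
    rw [Matrix.det_mul, Matrix.det_smul, Matrix.det_one, Fintype.card_fin, mul_one] at hdet
    have h9 : Odd ((Matrix.of m).det * (Matrix.of n).det) := by
      rw [hdet]
      decide
    exact (Int.odd_mul.1 h9).2
  · rw [← key, d1, d2, hφ]
    ring

end

end Pool.Agent.H98.W
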