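import Mathlib
import Pool.Graph.R_seed8.TH951.LS.Reg

/-!
# Regulators and subgroups of odd index
-/

set_option autoImplicit false
set_option linter.unusedSectionVars false
set_option linter.unusedVariables false

open Matrix

namespace Pool.Agent.H98.W

open Pool.Agent.TH942 Pool.Agent.TH910.LS

section
variable {A B : Type} [AddCommGroup A] [AddCommGroup B] {r : ℕ}

/-- the Gram matrices of a group and a subgroup -/
theorem gram_sub {qA : A → ℝ} (hqA : ∀ P Q, qA (P + Q) + qA (P - Q) = 2 * (qA P + qA Q))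
    {qB : B → ℝ} (φ : B →+ A) {c : ℝ} (hφ : ∀ P, qA (φ P) = c * qB P) {g : Fin r → A}
    {h : Fin r → B} {n : Fin r → Fin r → ℤ}
    (hn : ∀ j, IsOfFinAddOrder (φ (h j) - ∑ i, n j i • g i)) :
    c ^ r * (gram qB h).det = ((Matrix.of n).det : ℝ) ^ 2 * (gram qA g).det := by
  obtain ⟨Q, hQ1, hQ2⟩ := H437R2.Man.MW.polar qA hqA
  have hgram : ∀ a b : A, (qA (a + b) - qA a - qA b) / 2 = Q a b := by
    intro a b
    rw [← hQ1, ← hQ1, ← hQ1]
    simp only [map_add, AddMonoidHom.add_apply]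
    rw [hQ2 b a]
    ring
  have ht0 : ∀ P t, IsOfFinAddOrder t → Q P t = 0 := by
    intro P t ht
    obtain ⟨m, hm, h⟩ := isOfFinAddOrder_iff_nsmul_eq_zero.1 ht
    have h1 : Q P (m • t) = 0 := by rw [h, map_zero]
    rw [map_nsmul, smul_eq_zero] at h1
    rcases h1 with h2 | h2
    · omega
    · exact h2
  have hcmp : ∀ (P : A) (j : Fin r), Q P (φ (h j)) = ∑ i, (n j i : ℝ) * Q P (g i) := by
    intro P j
    have e : φ (h j) = (φ (h j) - ∑ i, n j i • g i) + ∑ i, n j i • g i := by abel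
    rw [e, map_add, ht0 P _ (hn j), zero_add, map_sum]
    refine Finset.sum_congr rfl fun i _ => ?_
    rw [map_zsmul, zsmul_eq_mul]
  have hent : ∀ j k, c * gram qB h j k = ∑ i, ∑ l, (n j i : ℝ) * (n k l : ℝ) * gram qA g i l := by
    intro j k
    have e1 : c * gram qB h j k = Q (φ (h j)) (φ (h k)) := by
      rw [← hgram, ← map_add, hφ, hφ, hφ]
      unfold Pool.Agent.TH942.gram
      rw [Matrix.of_apply]
      ring
    rw [e1, hcmp, Finset.sum_comm]
    refine Finset.sum_congr rfl fun l _ => ?_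
    rw [hQ2, hcmp, Finset.mul_sum]
    refine Finset.sum_congr rfl fun i _ => ?_
    unfold Pool.Agent.TH942.gram
    rw [Matrix.of_apply, hgram, hQ2 (g l)]
    ring
  have hM : c • gram qB h = (Matrix.of n).map (Int.cast : ℤ → ℝ) * gram qA g *
      ((Matrix.of n).map (Int.cast : ℤ → ℝ))ᵀ := by
    ext j k
    rw [Matrix.smul_apply, smul_eq_mul, hent, Matrix.mul_apply, Finset.sum_comm]
    refine Finset.sum_congr rfl fun l _ => ?_
    rw [Matrix.mul_apply, Finset.sum_mul]
    refine Finset.sum_congr rfl fun i _ => ?_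
    rw [Matrix.transpose_apply, Matrix.map_apply, Matrix.map_apply, Matrix.of_apply,
      Matrix.of_apply]
    ring
  have hd := congrArg Matrix.det hM
  rw [Matrix.det_smul, Matrix.det_mul, Matrix.det_mul, Matrix.det_transpose, Fintype.card_fin] at hd
  have hdet : ((Matrix.of n).map (Int.cast : ℤ → ℝ)).det = ((Matrix.of n).det : ℝ) := by
    have := (Int.castRingHom ℝ).map_det (Matrix.of n)
    exact this.symm
  rw [hd, hdet]
  ring

/-- **the regulators of a group and a subgroup of odd index** -/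
theorem reg_cmp {qA : A → ℝ} (hqA : ∀ P Q, qA (P + Q) + qA (P - Q) = 2 * (qA P + qA Q))
    {qB : B → ℝ} (φ : B →+ A) {c : ℝ} (hφ : ∀ P, qA (φ P) = c * qB P) {g : Fin r → A}
    (hg : IsBasisModTors g) {h : Fin r → B} (hh : IsBasisModTors h)
    (htor : ∀ P : A, IsOfFinAddOrder P → ∃ Q, P = Q + Q)
    (hdiv : ∀ P : B, (∃ Q, φ P = Q + Q) → ∃ R, P = R + R) :
    ∃ N : ℤ, Odd N ∧ c ^ r * (gram qB h).det = (N : ℝ) ^ 2 * (gram qA g).det := by
  choose n hn hn' using fun j => hg (φ (h j))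
  refine ⟨(Matrix.of n).det, ?_, gram_sub hqA φ hφ hn⟩
  by_contra hodd
  rw [Int.not_odd_iff_even] at hodd
  have h2 : Fact (Nat.Prime 2) := ⟨Nat.prime_two⟩
  have hd0 : ((Matrix.of n).map (Int.cast : ℤ → ZMod 2)).det = 0 := by
    have e := (Int.castRingHom (ZMod 2)).map_det (Matrix.of n)
    have e2 : (((Matrix.of n).det : ℤ) : ZMod 2) = 0 := by
      rw [ZMod.intCast_zmod_eq_zero_iff_dvd]
      exact_mod_cast hodd.two_dvd
    exact e.symm.trans e2
  obtain ⟨v, hv0, hv⟩ := Matrix.exists_vecMul_eq_zero_iff.2 hd0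
  obtain ⟨a, ha⟩ : ∃ a : Fin r → ℤ, ∀ j, ((a j : ℤ) : ZMod 2) = v j :=
    ⟨fun j => ((v j).val : ℤ), fun j => by
      rw [Int.cast_natCast, ZMod.natCast_zmod_val]⟩
  have hev : ∀ i, ∃ b : ℤ, ∑ j, a j * n j i = 2 * b := by
    intro i
    have h3 := congrFun hv i
    simp only [Matrix.vecMul, dotProduct, Matrix.map_apply, Matrix.of_apply, Pi.zero_apply] at h3
    have h4 : ((∑ j, a j * n j i : ℤ) : ZMod 2) = 0 := by
      push_cast
      rw [← h3]
      exact Finset.sum_congr rfl fun j _ => by rw [ha]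
    rw [ZMod.intCast_zmod_eq_zero_iff_dvd] at h4
    obtain ⟨b, hb⟩ := h4
    exact ⟨b, by exact_mod_cast hb⟩
  choose b hb using hev
  obtain ⟨P, hP⟩ : ∃ P : B, P = ∑ j, a j • h j := ⟨_, rfl⟩
  have htP : IsOfFinAddOrder (φ P - ∑ i, (2 * b i) • g i) := by
    have e : φ P - ∑ i, (2 * b i) • g i = ∑ j, a j • (φ (h j) - ∑ i, n j i • g i) := by
      rw [hP, map_sum]
      simp only [map_zsmul, smul_sub, Finset.sum_sub_distrib]
      congr 1
      simp only [Finset.smul_sum, smul_smul]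
      rw [Finset.sum_comm]
      refine Finset.sum_congr rfl fun i _ => ?_
      rw [← Finset.sum_smul, hb]
    rw [e]
    have hs : ∀ s : Finset (Fin r), IsOfFinAddOrder (∑ j ∈ s, a j • (φ (h j) - ∑ i, n j i • g i)) := by
      intro s
      induction s using Finset.induction_on with
      | empty =>
        rw [Finset.sum_empty]
        exact IsOfFinAddOrder.zero
      | insert x s hx ih =>
        rw [Finset.sum_insert hx]
        exact (IsOfFinAddOrder.zsmul (hn x)).add ih
    exact hs _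
  obtain ⟨T, hT⟩ := htor _ htP
  obtain ⟨R, hR⟩ := hdiv P ⟨∑ i, b i • g i + T, by
    have e : φ P = ∑ i, (2 * b i) • g i + (T + T) := by
      rw [← hT]
      abel
    have e2 : ∑ i, (2 * b i) • g i = ∑ i, b i • g i + ∑ i, b i • g i := by
      rw [← Finset.sum_add_distrib]
      refine Finset.sum_congr rfl fun i _ => ?_
      rw [two_mul, add_smul]
    rw [e, e2]
    abel⟩
  obtain ⟨m, hm, -⟩ := hh R
  obtain ⟨l, -, hl⟩ := hh P
  have h5 : a = l := hl a (by
    show IsOfFinAddOrder (P - ∑ i, a i • h i)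
    rw [hP, sub_self]
    exact IsOfFinAddOrder.zero)
  have h6 : (fun i => 2 * m i) = l := hl _ (by
    show IsOfFinAddOrder (P - ∑ i, (2 * m i) • h i)
    have e : P - ∑ i, (2 * m i) • h i = (R - ∑ i, m i • h i) + (R - ∑ i, m i • h i) := by
      have e2 : ∑ i, (2 * m i) • h i = ∑ i, m i • h i + ∑ i, m i • h i := by
        rw [← Finset.sum_add_distrib]
        refine Finset.sum_congr rfl fun i _ => ?_
        rw [two_mul, add_smul]
      rw [e2, hR]
      abel
    rw [e]
    exact hm.add hm)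
  apply hv0
  funext j
  have h7 : a j = 2 * m j := by rw [h5, ← h6]
  rw [← ha, h7]
  push_cast
  have : (2 : ZMod 2) = 0 := rfl
  rw [this, zero_mul]
  rfl

/-- positivity -/
theorem gram_pos {q : A → ℝ} (hq0 : ∀ P, 0 ≤ q P)
    (hq : ∀ P Q, q (P + Q) + q (P - Q) = 2 * (q P + q Q)) (hfin : ∀ B : ℝ, {P | q P ≤ B}.Finite)
    {g : Fin r → A} (hg : IsBasisModTors g) : 0 < (gram q g).det := by
  by_cases hr : r = 0
  · subst hr
    rw [Matrix.det_isEmpty]
    exact one_pos
  have hne : Nonempty (Fin r) := ⟨⟨0, Nat.pos_of_ne_zero hr⟩⟩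
  have hnt : ∀ c : Fin r → ℤ, c ≠ 0 → ¬ IsOfFinAddOrder (∑ i, c i • g i) := by
    intro c hc hcon
    obtain ⟨l, -, hl⟩ := hg (∑ i, c i • g i)
    have h1 : c = l := hl c (by
      show IsOfFinAddOrder (∑ i, c i • g i - ∑ i, c i • g i)
      rw [sub_self]
      exact IsOfFinAddOrder.zero)
    have h2 : (0 : Fin r → ℤ) = l := hl 0 (by
      show IsOfFinAddOrder (∑ i, c i • g i - ∑ i, (0 : Fin r → ℤ) i • g i)
      simpa using hcon)
    exact hc (h1.trans h2.symm)
  have i0 : Fin r := hne.some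
  have hS : {P : A | ¬ IsOfFinAddOrder P}.Nonempty := by
    refine ⟨∑ i, (Pi.single i0 1 : Fin r → ℤ) i • g i, hnt _ ?_⟩
    intro h
    have := congrFun h i0
    simp at this
  obtain ⟨Q, hQ, hQm⟩ := exists_min_of_finite hfin hS
  have hμ : 0 < q Q := q_pos hq0 hq (hfin 0) hQ
  have h := TH951.LS.gram_det (ι := Fin r) q hq0 hq g hμ fun c hc => hQm _ (hnt c hc)
  have h3 : (0 : ℝ) < q Q ^ Fintype.card (Fin r) := by positivity
  have h4 := lt_of_lt_of_le h3 h
  by_contra hcon
  push Not at hcon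
  have h5 : (Fintype.card (Fin r) : ℝ) ^ Fintype.card (Fin r) * (gram q g).det ≤ 0 :=
    mul_nonpos_of_nonneg_of_nonpos (by positivity) hcon
  linarith

end

end Pool.Agent.H98.W
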