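import Pool.Agent.H98.B.Step
import Pool.Agent.H98.W.Ld

/-!
# One step of the tower, with the leading coefficients
-/

set_option autoImplicit false
set_option linter.unusedSectionVars false
set_option linter.unusedVariables false

open Complex NumberField IsDedekindDomain Filter Topology
open scoped PeriodPair nonZeroDivisors

namespace Pool.Agent.H98.W

open Pool.Agent.K7.H56
open Pool.Agent.K7.H56.P
open Pool.Agent.R430
open Pool.Agent.Y696 Pool.Agent.W192.HK Pool.Agent.TH936.CM H667R3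
open Pool.Agent.Y688 (NI HL euler v_sub_one v_root v_RR dn dn_surj)
open Pool.Agent.K7.H70.AS (mero_eq2 gI_diff hX1 ram_mul VV_prod gal2' NC nc_of_tower)
open Pool.Agent.K7.H56.M
open UniqueFactorizationMonoid (normalizedFactors)
open Pool.Agent.H98.B

section step
variable {N E D M : Type} [Field N] [NumberField N] [Field E] [NumberField E] [Field D]
  [NumberField D] [Field M] [NumberField M]
  [Algebra N E] [Algebra E M] [Algebra N M] [IsScalarTower N E M]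
  [Algebra N D] [Algebra D M] [IsScalarTower N D M]
  [IsGalois N M] {ι : Pool.Agent.Y688.RR →+* 𝓞 N}

/-- **One step of the tower.** -/
theorem step_lc {d : ℕ} (hd : Module.finrank ℚ N = 2 * d) (hU : Unr2 M)
    (h2 : Module.finrank N E = 2) (h2D : Module.finrank N D = 2) (h2M : Module.finrank E M = 2)
    (hc : ∀ σ τ : Gal(M/N), σ * τ = τ * σ)
    (hgen : ∀ σ : Gal(M/N), (∀ x : E, σ (algebraMap E M x) = algebraMap E M x) →
      (∀ x : D, σ (algebraMap D M x) = algebraMap D M x) → σ = 1)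
    {p : HeightOneSpectrum (𝓞 N)} (hp3 : (3 : 𝓞 N) ∉ p.asIdeal)
    {x0 : 𝓞 N} (hx0 : x0 ^ 3 - 2 ∈ p.asIdeal)
    (hpD : ∃ (w : HeightOneSpectrum (𝓞 D)) (σ : D ≃ₐ[N] D), σ ≠ 1 ∧
      (∀ x : 𝓞 D, σ • x - x ∈ w.asIdeal) ∧ w.asIdeal.under (𝓞 N) = p.asIdeal)
    (hpE : ∀ w w' : HeightOneSpectrum (𝓞 E), w.asIdeal.under (𝓞 N) = p.asIdeal →
      w'.asIdeal.under (𝓞 N) = p.asIdeal → w = w')
    (hpEu : ∀ (w : HeightOneSpectrum (𝓞 E)) (σ : E ≃ₐ[N] E), w.asIdeal.under (𝓞 N) = p.asIdeal →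
      (∀ x : 𝓞 E, σ • x - x ∈ w.asIdeal) → σ = 1)
    (hgood : ∀ (w : HeightOneSpectrum (𝓞 M)), Rm N w → dn N w ≠ p → (3 : 𝓞 N) ∉ (dn N w).asIdeal →
      ∀ x : 𝓞 N, x ^ 3 - 2 ∉ (dn N w).asIdeal)
    {f fE FD FM : ℂ → ℂ} (hf : VV ι (X0 1) f) (hfE : VV ((algebraMap (𝓞 N) (𝓞 E)).comp ι) (X0 1) fE)
    (hFD : VV ((algebraMap (𝓞 N) (𝓞 D)).comp ι) (X0 1) FD)
    (hFM : VV ((algebraMap (𝓞 N) (𝓞 M)).comp ι) (X0 1) FM)
    {L : PeriodPair} {Ω : ℂ} (hL : HL L Ω) {Γ : Type} [LinearOrderedCommGroupWithZero Γ]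
    {v : Valuation ℂ Γ} (hv : v 2 < 1) (hfv : v (f 1) = v Ω ^ d)
    (hfEv : v (fE 1) = v Ω ^ (2 * d)) {m : ℕ} (hm : 1 ≤ m) {c c' : ℂ} (hFDc : LC FD m c)
    (hFMc : LC FM m c') : v c' = v c * v 2 * v Ω ^ (2 * d) := by
  classical
  have hfE1 : fE 1 ≠ 0 := by
    intro h0
    rw [h0, map_zero] at hfEv
    exact pow_ne_zero _ ((Valuation.ne_zero_iff v).2 hL.ne) hfEv.symm
  have hFD1 : FD 1 = 0 := by
    by_contra hne
    have h5 := hFD.an.analyticOrderAt_eq_zero.2 hne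
    rw [hFDc.order] at h5
    have h6 : m = 0 := by exact_mod_cast h5
    omega
  have hgE : IsGalois N E := gal2' h2
  have hgD : IsGalois N D := gal2' h2D
  have hgM : IsGalois E M := gal2' h2M
  have hcE : ∀ σ τ : Gal(M/E), σ * τ = τ * σ := comm2 h2M
  obtain ⟨n0, hn0, hnr0⟩ := exists_odd (F := N) (K := M) hU
  set n : ℕ := 3 * n0 with hndef
  have hn : Odd n := Odd.mul (by decide) hn0
  have h3n : 3 ∣ n := ⟨n0, rfl⟩
  have hnr : ∀ w : HeightOneSpectrum (𝓞 M), Rm N w → (n : 𝓞 N) ∈ (dn N w).asIdeal := by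
    intro w hw
    rw [hndef, Nat.cast_mul]
    exact Ideal.mul_mem_left _ _ (hnr0 w hw)
  have hnN : (n : 𝓞 N) ≠ 0 := by
    obtain ⟨k, hk⟩ := hn
    have : n ≠ 0 := by omega
    exact_mod_cast this
  have hnSR : ∀ P ∈ SR N M, (n : 𝓞 N) ∈ P.asIdeal := by
    rintro P ⟨w, hw, rfl⟩
    exact hnr w hw
  have hfin := SR_fin hnN hnr
  set S1 : Finset (HeightOneSpectrum (𝓞 N)) := hfin.toFinset with hS1
  have hS1m : ∀ P, P ∈ S1 ↔ P ∈ SR N M := fun P => hfin.mem_toFinset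
  have h2P : ∀ P : HeightOneSpectrum (𝓞 N), (n : 𝓞 N) ∈ P.asIdeal → (2 : 𝓞 N) ∉ P.asIdeal := by
    intro P hP h2P
    obtain ⟨k, hk⟩ := hn
    apply P.isPrime.ne_top
    rw [Ideal.eq_top_iff_one]
    have : (1 : 𝓞 N) = (n : 𝓞 N) - 2 * (k : 𝓞 N) := by
      rw [hk]
      push_cast
      ring
    rw [this]
    exact Ideal.sub_mem _ hP (Ideal.mul_mem_right _ _ h2P)
  -- the fields
  have hUN : Unr2 N := unr2_down (F := N) (K := M) hU
  have hUE : Unr2 E := unr2_down (F := E) (K := M) hU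
  obtain ⟨a, ha⟩ := exists_rt ι
  obtain ⟨aE, haE⟩ := exists_rt ((algebraMap (𝓞 N) (𝓞 E)).comp ι)
  have hdE : Module.finrank ℚ E = 2 * (2 * d) := by
    rw [← Module.finrank_mul_finrank ℚ N E, hd, h2]
    ring
  -- ramification
  have hpSD : p ∈ SR N D := by
    obtain ⟨w, σ, h1, h3, h4⟩ := hpD
    exact ⟨w, ⟨σ, h1, h3⟩, HeightOneSpectrum.ext h4⟩
  have hpS1 : p ∈ SR N M := SR_mono (E := D) hpSD
  have hpnE : p ∉ SR N E := by
    rintro ⟨w, ⟨σ, h1, h3⟩, h4⟩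
    exact h1 (hpEu w σ (congrArg HeightOneSpectrum.asIdeal h4) h3)
  -- the characters
  obtain ⟨XD, hXD, hXD2⟩ := exists_sgn (N := N) (K := D) h2D
  obtain ⟨YE, hYE, hYE2⟩ := exists_sgn (N := N) (K := E) h2
  set X : Gal(M/N) →* ℂˣ := inf M XD with hX
  have hX2 : ∀ σ, X σ ^ 2 = 1 := fun σ => hXD2 _
  have hXY2 : ∀ σ, (X * inf M YE) σ ^ 2 = 1 := fun σ => by
    rw [MonoidHom.mul_apply, mul_pow, hX2]
    exact (one_mul _).trans (hYE2 _)
  have hX' : ∀ σ : Gal(M/E), σ ≠ 1 → rs E X σ = -1 := by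
    intro σ hσ
    have hne : (AlgEquiv.restrictNormalHom D (AlgEquiv.restrictScalarsHom N σ) : Gal(D/N)) ≠ 1 := by
      intro h1
      apply hσ
      have h3 : AlgEquiv.restrictScalarsHom N σ = 1 := by
        refine hgen _ (fun x => σ.commutes x) fun x => ?_
        have h4 := AlgEquiv.restrictNormal_commutes (AlgEquiv.restrictScalarsHom N σ) D x
        have h5 : (AlgEquiv.restrictScalarsHom N σ).restrictNormal D = 1 := h1
        rw [h5] at h4
        exact h4.symm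
      apply AlgEquiv.ext
      intro x
      exact DFunLike.congr_fun h3 x
    exact hXD _ hne
  have hX'2 : ∀ σ : Gal(M/E), rs E X σ ^ 2 = 1 := fun σ => hX2 _
  -- the functions over `N`
  have hnrD : ∀ w : HeightOneSpectrum (𝓞 D), Rm N w → (n : 𝓞 N) ∈ (dn N w).asIdeal := fun w hw =>
    hnSR _ (SR_mono (E := D) ⟨w, hw, rfl⟩)
  have hnrE : ∀ w : HeightOneSpectrum (𝓞 E), Rm N w → (n : 𝓞 N) ∈ (dn N w).asIdeal := fun w hw =>
    hnSR _ (SR_mono (E := E) ⟨w, hw, rfl⟩)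
  have hUN' : ∀ v : HeightOneSpectrum (𝓞 N), (2 : 𝓞 N) ∈ v.asIdeal →
      v.valuation N 2 = WithZero.exp (-1 : ℤ) := fun v hv => hUN v (by exact_mod_cast hv)
  have hUE' : ∀ v : HeightOneSpectrum (𝓞 E), (2 : 𝓞 E) ∈ v.asIdeal →
      v.valuation E 2 = WithZero.exp (-1 : ℤ) := fun v hv => hUE v (by exact_mod_cast hv)
  have iX : IH n (fun I : Ideal (𝓞 N) => X0 3 I * XR X I) := XR3_ih ha hd hUN' hX2 hn h3n hnr
  have iZ : IH n (fun I : Ideal (𝓞 N) => X0 3 I * XR (X * inf M YE) I) :=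
    XR3_ih ha hd hUN' hXY2 hn h3n hnr
  have iY : IH n (fun I : Ideal (𝓞 N) => X0 3 I * XR YE I) :=
    XR3_ih ha hd hUN' hYE2 hn h3n hnrE
  have iXD : IH n (fun I : Ideal (𝓞 N) => X0 3 I * XR XD I) :=
    XR3_ih ha hd hUN' hXD2 hn h3n hnrD
  obtain ⟨gX, gZ, hgX, hgZ, -⟩ := core_gen2 N ι d hd hUN n _ _ iX iZ hn
  obtain ⟨gD, -, hgD', -, -⟩ := core_gen2 N ι d hd hUN n _ _ iXD iXD hn
  -- the order of `gX`
  have e1 := L_prod_ev h2D hXD (fun w hw => h2P _ (hnrD w hw)) hFD hf iXD hgD'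
  have hfne : f 1 ≠ 0 := by
    intro h0
    rw [h0, map_zero] at hfv
    exact pow_ne_zero _ ((Valuation.ne_zero_iff v).2 hL.ne) hfv.symm
  have o1 : analyticOrderAt FD 1 = analyticOrderAt gD 1 := ord_mul_left hf.an hfne hgD'.an e1
  have hgXD : VV ι (fun I => ind S1 I * (X0 3 I * XR XD I)) gX := by
    refine ⟨hgX.mero, hgX.an, fun s hs => (hgX.sum s hs).congr_fun fun I => ?_⟩
    have e := XR_restr (M := M) (comm2 h2D) XD hS1m I.1
    show ind S1 I.1 * (X0 3 I.1 * XR XD I.1) * _ * _ = X0 3 I.1 * XR X I.1 * _ * _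
    rw [← e]
    rfl
  have o2 : analyticOrderAt gX 1 = analyticOrderAt gD 1 :=
    rem_ord (fun P hP => hnSR P ((hS1m P).1 hP)) iXD hgD' hgXD
  have oX : analyticOrderAt gX 1 = analyticOrderAt FD 1 := o2.trans o1.symm
  have gX1 : gX 1 = 0 := by
    by_contra hne
    have h5 : analyticOrderAt gX 1 = 0 := hgX.an.analyticOrderAt_eq_zero.2 hne
    rw [oX] at h5
    exact (hFD.an.analyticOrderAt_eq_zero.1 h5) hFD1
  -- the key
  have inj0 : ∀ I : Ideal (𝓞 N), ind (S1.erase p) I ≠ 0 → ∀ P ∈ SR N M, P ≠ p → ¬ I ≤ P.asIdeal := by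
    intro I hI P hP hPp hle
    exact hI (ind_pos ⟨P, Finset.mem_erase.2 ⟨hPp, (hS1m P).2 hP⟩, hle⟩)
  have hkey : v (gZ 1) = v 2 * v Ω ^ d := by
    refine key (S := S1.erase p) (p := p) (x0 := x0) hd hUN hn h3n iX iY iZ (sgn_XR hX2)
      (sgn_XR hYE2) (sgn_XR hXY2) (fun P hP => hnSR P ((hS1m P).1 (Finset.mem_of_mem_erase hP)))
      ?_ (hnSR p hpS1) hp3 hx0 (Finset.notMem_erase p S1) ?_ ?_ ?_ ?_ ?_ ?_ ?_ ?_ hf hgX hgZ hL hv
      hfv gX1
    · intro P hP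
      obtain ⟨hPp, hP1⟩ := Finset.mem_erase.1 hP
      obtain ⟨w, hw, rfl⟩ := (hS1m P).1 hP1
      by_cases h3 : (3 : 𝓞 N) ∈ (dn N w).asIdeal
      · exact Or.inl h3
      · exact Or.inr (hgood w hw hPp h3)
    · intro I hI
      simp only [hI, zero_mul]
    · intro I hI
      simp only [hI, zero_mul]
    · intro I hI
      simp only [hI, zero_mul]
    · intro I hI h3
      refine mul_ne_zero h3 ?_
      rw [XR_neg]
      · exact XX_ne0 hYE2
      · rintro ⟨w, hw, hle⟩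
        refine inj0 I hI (dn N w) (SR_mono (E := E) ⟨w, hw, rfl⟩) ?_ hle
        intro h4
        exact hpnE ⟨w, hw, h4⟩
    · intro I hI h3 hIp
      have hM : ¬ ∃ w : HeightOneSpectrum (𝓞 M), Rm N w ∧ I ≤ (dn N w).asIdeal := by
        rintro ⟨w, hw, hle⟩
        by_cases h4 : dn N w = p
        · exact hIp (h4 ▸ hle)
        · exact inj0 I hI (dn N w) ⟨w, hw, rfl⟩ h4 hle
      have hE : ¬ ∃ w : HeightOneSpectrum (𝓞 E), Rm N w ∧ I ≤ (dn N w).asIdeal := by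
        rintro ⟨w, hw, hle⟩
        obtain ⟨w', hw', h5⟩ := SR_mono (E := E) (M := M) (P := dn N w) ⟨w, hw, rfl⟩
        exact hM ⟨w', hw', by rw [h5]; exact hle⟩
      have hS1I : ind S1 I = 1 := ind_neg (by
        rintro ⟨P, hP, hle⟩
        obtain ⟨w, hw, h5⟩ := (hS1m P).1 hP
        exact hM ⟨w, hw, by rw [h5]; exact hle⟩)
      have hr := XR_restr (M := M) (comm2 h2) YE hS1m I
      rw [hS1I, one_mul] at hr
      have hr' := mul_left_cancel₀ h3 hr
      refine ⟨?_, ?_⟩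
      · refine mul_ne_zero h3 ?_
        rw [XR_neg hM]
        exact XX_ne0 hX2
      · show X0 3 I * XR (X * inf M YE) I = X0 3 I * XR X I * (X0 3 I * XR YE I)
        rw [← hr', XR_neg hM, XR_neg hM, XX_mulX]
        have h31 : X0 3 I = 1 := (X0_ne (I := I) 3).resolve_left h3
        rw [h31, XR_neg hM]
        show _ = 1 * _ * (1 * Pool.Agent.R430.XX (inf M YE) I)
        ring
    · show X0 3 p.asIdeal * XR X p.asIdeal = 0
      rw [XR_pos (SR_iff.2 hpS1), mul_zero]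
    · show X0 3 p.asIdeal * XR (X * inf M YE) p.asIdeal = 0
      rw [XR_pos (SR_iff.2 hpS1), mul_zero]
    · show X0 3 p.asIdeal * XR YE p.asIdeal = -1
      have h31 : X0 3 p.asIdeal = 1 := X0_pos (by
        rw [prime_cop_iff]
        exact_mod_cast hp3)
      have hfr : frP E p.asIdeal ≠ 1 := by
        intro h0
        have h4 := (split_unr h2 (fun h => hpnE h)).2
        rw [h0, orderOf_one] at h4
        have h5 : Fintype.card {w : HeightOneSpectrum (𝓞 E) // und w = p} ≤ 1 := by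
          rw [Fintype.card_le_one_iff]
          intro w w'
          exact Subtype.ext (hpE w.1 w'.1 (congrArg HeightOneSpectrum.asIdeal w.2)
            (congrArg HeightOneSpectrum.asIdeal w'.2))
        omega
      rw [h31, one_mul, XR_neg (fun h => hpnE (SR_iff.1 h)),
        XX_prime _ (Ideal.prime_of_isPrime p.ne_bot p.isPrime), hYE _ hfr]
      simp
  have hZne : gZ 1 ≠ 0 := by
    intro h0
    rw [h0, map_zero] at hkey
    exact mul_ne_zero ((Valuation.ne_zero_iff v).2 two_ne_zero)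
      (pow_ne_zero _ ((Valuation.ne_zero_iff v).2 hL.ne)) hkey.symm
  have oZ : analyticOrderAt gZ 1 = 0 := hgZ.an.analyticOrderAt_eq_zero.2 hZne
  -- the functions over `E`
  have hnE : ∀ w : HeightOneSpectrum (𝓞 E), dn N w ∈ SR N M → (n : 𝓞 E) ∈ w.asIdeal := by
    intro w hw
    have h4 := hnSR _ hw
    have h5 : algebraMap (𝓞 N) (𝓞 E) (n : 𝓞 N) ∈ w.asIdeal := h4
    rwa [map_natCast] at h5
  have hnrM : ∀ w : HeightOneSpectrum (𝓞 M), Rm E w → (n : 𝓞 E) ∈ (dn E w).asIdeal := fun w hw =>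
    hnE _ (SR_up ⟨w, hw, rfl⟩)
  have h2PE : ∀ P : HeightOneSpectrum (𝓞 E), (n : 𝓞 E) ∈ P.asIdeal → (2 : 𝓞 E) ∉ P.asIdeal := by
    intro P hP h2P
    obtain ⟨k, hk⟩ := hn
    apply P.isPrime.ne_top
    rw [Ideal.eq_top_iff_one]
    have : (1 : 𝓞 E) = (n : 𝓞 E) - 2 * (k : 𝓞 E) := by
      rw [hk]
      push_cast
      ring
    rw [this]
    exact Ideal.sub_mem _ hP (Ideal.mul_mem_right _ _ h2P)
  have iG : IH n (fun I : Ideal (𝓞 E) => X0 3 I * XR (rs E X) I) :=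
    XR3_ih haE hdE hUE' hX'2 hn h3n hnrM
  have hnEne : (n : 𝓞 E) ≠ 0 := by
    obtain ⟨k, hk⟩ := hn
    have : n ≠ 0 := by omega
    exact_mod_cast this
  set S' : Finset (HeightOneSpectrum (𝓞 E)) := (ScN hnEne).filter (fun w => dn N w ∈ S1) with hS'
  have hS'm : ∀ w, w ∈ S' ↔ dn N w ∈ S1 := by
    intro w
    rw [hS', Finset.mem_filter, mem_ScN]
    exact ⟨fun h => h.2, fun h => ⟨hnE w ((hS1m _).1 h), h⟩⟩
  have hS'n : ∀ w ∈ S', (n : 𝓞 E) ∈ w.asIdeal := fun w hw => hnE w ((hS1m _).1 ((hS'm w).1 hw))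
  have iG' : IH n (fun I : Ideal (𝓞 E) => ind S' I * (X0 3 I * XR (rs E X) I)) :=
    IHprod (ind_ih hS'n) iG
  obtain ⟨G, G', hG, hG', -⟩ := core_gen2 E ((algebraMap (𝓞 N) (𝓞 E)).comp ι) _ hdE hUE n _ _ iG iG' hn
  have hcomp : (algebraMap (𝓞 E) (𝓞 M)).comp ((algebraMap (𝓞 N) (𝓞 E)).comp ι) =
      (algebraMap (𝓞 N) (𝓞 M)).comp ι := by
    rw [← RingHom.comp_assoc, ← IsScalarTower.algebraMap_eq (𝓞 N) (𝓞 E) (𝓞 M)]
  have e2 := L_prod_ev (ι := (algebraMap (𝓞 N) (𝓞 E)).comp ι) h2M hX'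
    (fun w hw => h2PE _ (hnrM w hw)) (by rw [hcomp]; exact hFM) hfE iG hG
  have e3 := prod2 h2 hc hcE hYE hX2 hS1m hS'm iG' hG' iX hgX iZ hgZ
  -- the leading coefficients
  have l1 : LC gD m (c / f 1) := hFDc.div_left hf.an hfne e1
  have l2 : LC gX m ((∏ P ∈ S1, (1 - gI ι (fun I => X0 3 I * XR XD I) 1 P.asIdeal)) * (c / f 1)) :=
    rem_lc (fun P hP => hnSR P ((hS1m P).1 hP)) iXD hgD' hgXD l1
  have l3 := (l2.mul (lc_zero hgZ.an hZne)).congr e3
  rw [add_zero] at l3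
  have oG : analyticOrderAt G 1 = m := by
    have o3 : analyticOrderAt FM 1 = analyticOrderAt G 1 := ord_mul_left hfE.an hfE1 hG.an e2
    rw [← o3]
    exact hFMc.order
  obtain ⟨cG, hcG⟩ := lc_of_order hG.an oG
  have l4 := rem_lc hS'n iG hG hG' hcG
  have l5 := hcG.mul_left hfE.an hfE1 e2
  have q1 := (l4.uniq l3).2
  have q2 := (hFMc.uniq l5).2
  have hsg : Sgn (fun I : Ideal (𝓞 N) => X0 3 I * XR XD I) := sgn_XR hXD2
  have hsgE : Sgn (fun I : Ideal (𝓞 E) => X0 3 I * XR (rs E X) I) := sgn_XR hX'2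
  have u1 : v (∏ P ∈ S1, (1 - gI ι (fun I => X0 3 I * XR XD I) 1 P.asIdeal)) = 1 := by
    rw [map_prod]
    refine Finset.prod_eq_one fun P hP => ?_
    have hPS := (hS1m P).1 hP
    by_cases hPp : P = p
    · rw [gI_mulX]
      have : X0 3 P.asIdeal * XR XD P.asIdeal = 0 := by
        rw [hPp, XR_pos (SR_iff.2 hpSD), mul_zero]
      rw [this, zero_mul, sub_zero, map_one]
    · refine good_unit hv (h2P P (hnSR P hPS)) ?_ hsg
      obtain ⟨w, hw, rfl⟩ := hPS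
      by_cases h3 : (3 : 𝓞 N) ∈ (dn N w).asIdeal
      · exact Or.inl h3
      · exact Or.inr (hgood w hw hPp h3)
  have hNC : NC N E := nc_of_tower (F := N) (N := E) (K := E) (m := 1) (by rw [h2, pow_one])
  have u2 : v (∏ w ∈ S', (1 - gI ((algebraMap (𝓞 N) (𝓞 E)).comp ι)
      (fun I => X0 3 I * XR (rs E X) I) 1 w.asIdeal)) = 1 := by
    rw [map_prod]
    refine Finset.prod_eq_one fun w hw => ?_
    have hwS := (hS1m _).1 ((hS'm w).1 hw)
    by_cases hPp : dn N w = p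
    · have hwM : w ∈ SR E M := by
        obtain ⟨wM, ⟨τ, hτ, hin⟩, hwM⟩ := hpS1
        have hdn : dn N (dn E wM) = dn N wM := by
          apply HeightOneSpectrum.ext
          show (wM.asIdeal.under (𝓞 E)).under (𝓞 N) = wM.asIdeal.under (𝓞 N)
          rw [Ideal.under_under]
        have hE1 : (AlgEquiv.restrictNormalHom E τ : Gal(E/N)) = 1 := by
          refine hpEu (dn E wM) _ ?_ fun y => ?_
          · show (dn N (dn E wM)).asIdeal = _
            rw [hdn, hwM]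
          · show _ ∈ wM.asIdeal.under (𝓞 E)
            rw [Ideal.under_def, Ideal.mem_comap, map_sub, restr_smul]
            exact hin _
        have hfx : ∀ x : E, τ (algebraMap E M x) = algebraMap E M x := fun x => (fx_iff τ).1 hE1 x
        set τ' : Gal(M/E) := AlgEquiv.ofRingEquiv (f := (τ : M ≃+* M)) hfx with hτ'
        refine ⟨wM, ⟨τ', ?_, fun x => hin x⟩, ?_⟩
        · intro h1
          apply hτ
          apply AlgEquiv.ext
          intro x
          exact DFunLike.congr_fun h1 x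
        · apply HeightOneSpectrum.ext
          have h4 := hpE (dn E wM) w (by
            show (dn N (dn E wM)).asIdeal = _
            rw [hdn, hwM]) (by
            show (dn N w).asIdeal = _
            rw [hPp])
          rw [← h4]
      rw [gI_mulX]
      have : X0 3 w.asIdeal * XR (rs E X) w.asIdeal = 0 := by
        rw [XR_pos (SR_iff.2 hwM), mul_zero]
      rw [this, zero_mul, sub_zero, map_one]
    · refine good_unit hv (h2PE w (hnE w hwS)) ?_ hsgE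
      obtain ⟨wM, hwM, hwM2⟩ := hwS
      by_cases h3 : (3 : 𝓞 N) ∈ (dn N w).asIdeal
      · left
        have h4 : algebraMap (𝓞 N) (𝓞 E) 3 ∈ w.asIdeal := h3
        rwa [map_ofNat] at h4
      · right
        refine hNC w ?_
        show ∀ x : 𝓞 N, x ^ 3 - 2 ∉ (dn N w).asIdeal
        rw [← hwM2] at h3 hPp ⊢
        exact hgood wM hwM hPp h3
  have v1 := congrArg v q1
  have v2 := congrArg v q2
  rw [map_mul, map_mul, map_mul, u1, u2, one_mul, one_mul, map_div₀, hfv, hkey] at v1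
  rw [map_mul, hfEv, v1] at v2
  rw [v2]
  have hΩ : v Ω ≠ 0 := (Valuation.ne_zero_iff v).2 hL.ne
  field_simp

end step

end Pool.Agent.H98.W
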