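import Pool.Graph.R_pool_sql_team_seeded_35f281b4.K7.H73.T2.G2
import Pool.Agent.H98.V.Mn

/-!
# The Tamagawa number at the prime where the curve is twisted
-/

set_option autoImplicit false
set_option linter.unusedSectionVars false
set_option linter.unusedVariables false

open NumberField IsDedekindDomain WeierstrassCurve WithZero
open scoped Classical

namespace Pool.Agent.H98.W

open Pool.Agent.Y682 (vv norm_le_iff)
open Pool.Agent.Y700 (VR)
open Pool.Agent.Y655.XT (vr_of_smul)
open Pool.Agent.K7.H73.L3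
open Pool.Agent.K7.H73.T2

section gen

variable {L : Type} [Field L] {V : Valuation L ℤᵐ⁰} {W W' : WeierstrassCurve L} {u r s t : L}

lemma gens_iff (h : VR W W' u r s t) (hD : W'.Δ ≠ 0) (hu : V u = 1) (hs : V s ≤ 1)
    (P : W'.toAffine.Point) : h.fn hD P ∈ gens V W ↔ P ∈ gens V W' := by
  cases P with
  | zero =>
    constructor
    · intro _ x y hh e
      cases e
    · intro _ x y hh e
      have e0 : h.fn hD Affine.Point.zero = 0 := rfl
      rw [e0] at e
      cases e
  | some x y hn =>
    rw [VR.fn_some]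
    set A' := 2 * y + W'.a₁ * x + W'.a₃ with hA'
    set B' := 3 * x ^ 2 + 2 * W'.a₂ * x + W'.a₄ - W'.a₁ * y with hB'
    set X := u ^ 2 * x + r with hX
    set Y := u ^ 3 * y + u ^ 2 * s * x + t with hY
    have hA : 2 * Y + W.a₁ * X + W.a₃ = u ^ 3 * A' := by
      rw [hX, hY, hA']
      linear_combination (-u ^ 2 * x) * h.e1 - h.e3
    have hB : 3 * X ^ 2 + 2 * W.a₂ * X + W.a₄ - W.a₁ * Y = u ^ 4 * B' + s * (u ^ 3 * A') := by
      rw [← hA, hX, hY, hB']
      linear_combination (-(2 * u ^ 2 * x)) * h.e2 - h.e4 + (u ^ 3 * y) * h.e1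
    have hVA : V (u ^ 3 * A') = V A' := by rw [map_mul, map_pow, hu, one_pow, one_mul]
    have hVB : V (u ^ 4 * B') = V B' := by rw [map_mul, map_pow, hu, one_pow, one_mul]
    have hsA : V (s * (u ^ 3 * A')) ≤ V A' := by
      rw [map_mul, hVA]
      exact mul_le_of_le_one_left' hs
    have key : (1 ≤ V (u ^ 3 * A') ∨ 1 ≤ V (u ^ 4 * B' + s * (u ^ 3 * A'))) ↔
        (1 ≤ V A' ∨ 1 ≤ V B') := by
      rw [hVA]
      by_cases h1 : 1 ≤ V A'
      · exact ⟨fun _ => Or.inl h1, fun _ => Or.inl h1⟩
      · rw [not_le] at h1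
        constructor
        · rintro (h2 | h2)
          · exact Or.inl h2
          · right
            by_contra h3
            rw [not_le] at h3
            have h4 : V (u ^ 4 * B' + s * (u ^ 3 * A')) < 1 :=
              lt_of_le_of_lt (V.map_add _ _) (max_lt (by rw [hVB]; exact h3)
                (lt_of_le_of_lt hsA h1))
            exact absurd h2 (not_le.2 h4)
        · rintro (h2 | h2)
          · exact Or.inl h2
          · right
            rw [Valuation.map_add_eq_of_lt_left, hVB]
            · exact h2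
            · rw [hVB]
              exact lt_of_lt_of_le (lt_of_le_of_lt hsA h1) h2
    constructor
    · intro hg x' y' h' e
      rw [Affine.Point.some.injEq] at e
      obtain ⟨rfl, rfl⟩ := e
      have := hg X Y _ rfl
      rw [hA, hB] at this
      exact key.1 this
    · intro hg x' y' h' e
      rw [Affine.Point.some.injEq] at e
      obtain ⟨rfl, rfl⟩ := e
      rw [hA, hB]
      exact key.2 (hg x y hn rfl)

/-- the index does not change under changes of coordinates -/
theorem ns_index (h : VR W W' u r s t) (hD : W'.Δ ≠ 0) (hu : V u = 1) (hs : V s ≤ 1) :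
    (ns V W').index = (ns V W).index := by
  have h1 : (ns V W).comap ((h.equiv hD : W'.toAffine.Point ≃+ W.toAffine.Point) :
      W'.toAffine.Point →+ W.toAffine.Point) = ns V W' := by
    have h2 : gens V W = (h.equiv hD) '' gens V W' := by
      ext P
      constructor
      · intro hP
        obtain ⟨Q, rfl⟩ := (h.equiv hD).surjective P
        rw [VR.equiv_apply] at hP
        exact ⟨Q, (gens_iff h hD hu hs Q).1 hP, rfl⟩
      · rintro ⟨Q, hQ, rfl⟩
        rw [VR.equiv_apply]
        exact (gens_iff h hD hu hs Q).2 hQ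
    have h3 : ns V W = (ns V W').map ((h.equiv hD : W'.toAffine.Point ≃+ W.toAffine.Point) :
        W'.toAffine.Point →+ W.toAffine.Point) := by
      unfold ns
      rw [AddMonoidHom.map_closure, h2]
      rfl
    rw [h3]
    exact AddSubgroup.comap_map_eq_self_of_injective (h.equiv hD).injective _
  rw [← h1]
  exact AddSubgroup.index_comap_of_surjective _ (h.equiv hD).surjective

end gen

section halv
variable {K : Type} [Field K] [NumberField K] (v : HeightOneSpectrum (𝓞 K))

/-- **halving** -/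
theorem halve1 (h2 : vv v 2 = 1) {A : v.adicCompletion K} (hA : vv v A < 1)
    {x y : v.adicCompletion K} (h : (Eb A).toAffine.Nonsingular x y) (hx : 1 ≤ vv v x) :
    ∃ Q : (Eb A).toAffine.Point, 2 • Q = Affine.Point.some x y h := by
  have h1 := (Eb_eq A x y).1 h.1
  have hcz : CharZero (v.adicCompletion K) :=
    charZero_of_injective_algebraMap (algebraMap K (v.adicCompletion K)).injective
  have hvx0 : vv v x ≠ 0 := (zero_lt_one.trans_le hx).ne'
  have hx0 : x ≠ 0 := (Valuation.ne_zero_iff _).1 hvx0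
  have hx3 : 1 ≤ vv v x ^ 3 := one_le_pow₀ hx
  have hvy : vv v (y ^ 2) = vv v x ^ 3 := by
    rw [h1, (vv v).map_add_eq_of_lt_left (by rw [map_pow]; exact hA.trans_le hx3), map_pow]
  have hvy0 : vv v (y ^ 2) ≠ 0 := by
    rw [hvy]
    exact pow_ne_zero 3 hvx0
  have hy20 : y ^ 2 ≠ 0 := (Valuation.ne_zero_iff _).1 hvy0
  have hy0 : y ≠ 0 := fun h0 => hy20 (by rw [h0, zero_pow two_ne_zero])
  obtain ⟨X, hXd⟩ : ∃ X, X = x ^ 3 / y ^ 2 := ⟨_, rfl⟩
  have hX : vv v (X - 1) < 1 := by
    have e : X - 1 = -A / y ^ 2 := by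
      rw [hXd, h1]
      rw [h1] at hy20
      field_simp
      ring
    rw [e, map_div₀, Valuation.map_neg, hvy]
    have h3 : vv v A < vv v x ^ 3 := hA.trans_le hx3
    have h4 : 0 < vv v x ^ 3 := zero_lt_one.trans_le hx3
    exact (div_lt_one₀ h4).2 h3
  obtain ⟨t, ht, ht3⟩ := hens v h2 hX
  obtain ⟨s, hs⟩ : ∃ s, s = y / x := ⟨_, rfl⟩
  have hxs : x = X * s ^ 2 := by
    rw [hXd, hs]
    field_simp
  have hys : y = X * s ^ 3 := by
    rw [hXd, hs]
    field_simp
  have hvX : vv v X = 1 := by
    have e : X = 1 + (X - 1) := by ring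
    rw [e, (vv v).map_add_eq_of_lt_left (by rw [map_one]; exact hX), map_one]
  have hvs : vv v s ^ 2 = vv v x := by
    have := congrArg (vv v) hxs
    rw [map_mul, hvX, one_mul, map_pow] at this
    exact this.symm
  set l := s * t with hl
  have hq : l ^ 4 - 6 * x * l ^ 2 - 8 * y * l - 3 * x ^ 2 = 0 := by
    have e : l ^ 4 - 6 * x * l ^ 2 - 8 * y * l - 3 * x ^ 2 =
        s ^ 4 * (t ^ 4 - 6 * X * t ^ 2 - 8 * X * t - 3 * X ^ 2) := by
      rw [hl]
      linear_combination (-6 * s ^ 2 * t ^ 2 - 3 * (x + X * s ^ 2)) * hxs - 8 * s * t * hys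
    rw [e, ht, mul_zero]
  set x2 := (l ^ 2 - x) / 2 with hx2
  set y2 := l * (x2 - x) - y with hy2
  have hl2 : l ^ 2 = 2 * x2 + x := by rw [hx2]; ring
  have hvx2 : vv v x2 = vv v x := by
    have e : x2 = s ^ 2 * (t ^ 2 - X) / 2 := by
      rw [hx2, hl]
      linear_combination (-1 / 2 : v.adicCompletion K) * hxs
    have h8 : vv v (t ^ 2 - X) = 1 := by
      have e1 : t ^ 2 - X = 2 ^ 3 + ((t - 3) * (t - 3) + 2 * 3 * (t - 3) - (X - 1)) := by ring
      have h9 : vv v ((t - 3) * (t - 3) + 2 * 3 * (t - 3) - (X - 1)) < 1 := by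
        refine (Valuation.map_sub _ _ _).trans_lt (max_lt
          ((Valuation.map_add _ _ _).trans_lt (max_lt ?_ ?_)) hX)
        · rw [map_mul]
          exact mul_lt_one_of_nonneg_of_lt_one_left zero_le ht3 ht3.le
        · rw [map_mul, map_mul, h2, one_mul]
          have h3 : vv v (3 : v.adicCompletion K) ≤ 1 := by exact_mod_cast vv_le_nat v 3
          calc vv v 3 * vv v (t - 3) ≤ 1 * vv v (t - 3) := mul_le_mul' h3 le_rfl
            _ < 1 := by rw [one_mul]; exact ht3
      have h10 : vv v ((2 : v.adicCompletion K) ^ 3) = 1 := by rw [map_pow, h2, one_pow]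
      rw [e1, (vv v).map_add_eq_of_lt_left (by rw [h10]; exact h9), h10]
    rw [e, map_div₀, h2, div_one, map_mul, h8, mul_one, map_pow, hvs]
  have hx20 : x2 ≠ 0 := by
    intro h0
    rw [h0, map_zero] at hvx2
    rw [← hvx2] at hx
    exact absurd hx (not_le.2 zero_lt_one)
  have key : -x2 ^ 2 + x ^ 2 + l ^ 2 * x + l * (2 * y) = 0 := by
    rw [hx2]
    linear_combination (-1 / 4) * hq
  have heq : y2 ^ 2 = x2 ^ 3 + A := by
    rw [hy2]
    linear_combination h1 - (x2 - x) * key + (x2 - x) * x2 * hl2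
  have htan : 3 * x2 ^ 2 = l * (2 * y2) := by
    rw [hy2]
    linear_combination key + (x - 2 * x2) * hl2
  have hne : y2 ≠ (Eb A).toAffine.negY x2 y2 := by
    rw [Eb_negY]
    intro h0
    have h4 : 2 * y2 = 0 := by linear_combination h0
    rw [h4, mul_zero] at htan
    have h5 : x2 ^ 2 = 0 := (mul_eq_zero.1 htan).resolve_left (by
      intro h0
      exact three_ne_zero h0)
    exact hx20 (pow_eq_zero_iff (two_ne_zero)|>.1 h5)
  have hΔ : (Eb A).toAffine.Nonsingular x2 y2 := by
    rw [Affine.nonsingular_iff]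
    refine ⟨(Eb_eq A x2 y2).2 heq, Or.inr ?_⟩
    rw [Eb_negY] at hne
    simp only [Eb]
    intro h0
    apply hne
    linear_combination h0
  refine ⟨.some x2 y2 hΔ, ?_⟩
  rw [two_nsmul, Affine.Point.add_self_of_Y_ne hne]
  have hsl : (Eb A).toAffine.slope x2 x2 y2 y2 = l := by
    rw [Affine.slope_of_Y_ne rfl hne, Eb_negY]
    have h6 : y2 - -y2 ≠ 0 := by
      intro h0
      apply hne
      rw [Eb_negY]
      linear_combination h0
    rw [div_eq_iff h6]
    simp only [Eb]
    linear_combination htan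
  have hX' : (Eb A).toAffine.addX x2 x2 ((Eb A).toAffine.slope x2 x2 y2 y2) = x := by
    rw [hsl, Affine.addX]
    simp only [Eb]
    linear_combination hl2
  have hY' : (Eb A).toAffine.addY x2 x2 y2 ((Eb A).toAffine.slope x2 x2 y2 y2) = y := by
    rw [Affine.addY, Affine.negAddY, hX', hsl, Eb_negY, hy2]
    ring
  exact Pool.Agent.Y655.XT.some_ext _ _ hX' hY'

end halv

end Pool.Agent.H98.W
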