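import Pool.Agent.H98.W.Ta

/-!
# The Tamagawa number at the prime where the curve is twisted
-/

set_option autoImplicit false
set_option linter.unusedSectionVars false
set_option linter.unusedVariables false

open NumberField IsDedekindDomain WeierstrassCurve WithZero
open scoped Classical

namespace Pool.Agent.H98.W

open Pool.Agent.Y682 (vv norm_le_iff)
open Pool.Agent.Y700 (VR)
open Pool.Agent.Y655.XT (vr_of_smul)
open Pool.Agent.K7.H73.L3 (gens ns Itg itg_of cc mf CE Cv Cv_min mineq mf_eq Δ_ne away)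
open Pool.Agent.K7.H73.T2 (Eb)
open Pool.Agent.K7.H70.TW (Ed)
open Pool.Agent.H98.R

section
variable {K : Type} [Field K] [NumberField K] {v : HeightOneSpectrum (𝓞 K)}
  {t : v.adicCompletion K}

/-- the group of the points with nonsingular reduction is the group of the doubles -/
theorem gens_eq (h5 : vv v t = exp (-1 : ℤ)) (h2 : vv v 2 = 1) (h3 : vv v 3 = 1)
    (P : (Ed t).toAffine.Point) : P ∈ gens (vv v) (Ed t) ↔ ∃ Q : (Ed t).toAffine.Point, P = Q + Q := by
  have hcz : CharZero (v.adicCompletion K) :=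
    charZero_of_injective_algebraMap (algebraMap K (v.adicCompletion K)).injective
  have ht0 : t ≠ 0 := by
    rintro rfl
    rw [map_zero] at h5
    exact exp_ne_zero h5.symm
  have hne : NeZero t := ⟨ht0⟩
  have h16 : vv v (16 * t ^ 3) < 1 := by
    rw [v16 h5 h2, ← exp_zero, exp_lt_exp]
    norm_num
  constructor
  · intro hP
    rcases pt_cases P with rfl | ⟨x, y, hxy, rfl⟩
    · exact ⟨0, (add_zero 0).symm⟩
    · have h := hP x y (ns_of hxy) rfl
      have hx : 1 ≤ vv v x := by
        by_contra hcon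
        push Not at hcon
        have hy := (small_y h5 h2 hxy hcon).2
        have e1 : 2 * y + (Ed t).a₁ * x + (Ed t).a₃ = 2 * y := by
          show 2 * y + 0 * x + 0 = _
          ring
        have e2 : 3 * x ^ 2 + 2 * (Ed t).a₂ * x + (Ed t).a₄ - (Ed t).a₁ * y = 3 * x ^ 2 := by
          show 3 * x ^ 2 + 2 * 0 * x + 0 - 0 * y = _
          ring
        rw [e1, e2, map_mul, map_mul, map_pow, h2, h3, one_mul, one_mul] at h
        rcases h with h | h
        · have h6 := h.trans hy
          rw [← exp_zero, exp_le_exp] at h6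
          omega
        · exact absurd h (not_le.2 (pow_lt_one₀ zero_le hcon two_ne_zero))
      obtain ⟨Q, hQ⟩ := halve1 v h2 h16 (ns_of hxy) hx
      rw [two_nsmul] at hQ
      exact ⟨Q, hQ.symm⟩
  · rintro ⟨Q, rfl⟩ x' y' hn he
    rcases pt_cases Q with rfl | ⟨x, y, hxy, rfl⟩
    · rw [add_zero] at he
      exact absurd he.symm (Affine.Point.some_ne_zero _)
    · by_cases hy : y = 0
      · rw [add_zero_iff hxy hxy ⟨rfl, by rw [hy, neg_zero]⟩] at he
        exact absurd he.symm (Affine.Point.some_ne_zero _)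
      · obtain ⟨l, x3, y3, hxy3, e1, e2, e3, e4, e5⟩ := add_pt hxy hxy (by
          rintro ⟨-, h6⟩
          apply hy
          have : (2 : v.adicCompletion K) * y = 0 := by linear_combination h6
          exact (mul_eq_zero.1 this).resolve_left two_ne_zero)
        rw [e5] at he
        have he' : pt hxy3 = pt (eqn_iff.1 hn.1) := he
        rw [pt_inj] at he'
        obtain ⟨rfl, rfl⟩ := he'
        have h6 := big_dbl h5 h2 h3 hxy hy e2
        rw [← e3] at h6
        right
        have e2' : 3 * x3 ^ 2 + 2 * (Ed t).a₂ * x3 + (Ed t).a₄ - (Ed t).a₁ * y3 = 3 * x3 ^ 2 := by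
          show 3 * x3 ^ 2 + 2 * 0 * x3 + 0 - 0 * y3 = _
          ring
        rw [e2', map_mul, map_pow, h3, one_mul]
        exact one_le_pow₀ h6

/-- the points of order two -/
lemma tors_iff (h5 : vv v t = exp (-1 : ℤ)) (h2 : vv v 2 = 1) {r w : v.adicCompletion K}
    (hr : r ^ 3 = 2) (hw : w ^ 2 + w + 1 = 0) [NeZero t] [CharZero (v.adicCompletion K)]
    {x y : v.adicCompletion K} (hxy : y ^ 2 = x ^ 3 + 16 * t ^ 3) :
    pt hxy + pt hxy = 0 ↔ y = 0 := by
  constructor
  · intro h
    by_contra hy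
    obtain ⟨l, x3, y3, hxy3, e1, e2, e3, e4, e5⟩ := add_pt hxy hxy (by
      rintro ⟨-, h6⟩
      apply hy
      have : (2 : v.adicCompletion K) * y = 0 := by linear_combination h6
      exact (mul_eq_zero.1 this).resolve_left two_ne_zero)
    rw [e5] at h
    exact pt_ne _ h
  · intro hy
    exact add_zero_iff hxy hxy ⟨rfl, by rw [hy, neg_zero]⟩

/-- **the index is four** -/
theorem idx_four (h5 : vv v t = exp (-1 : ℤ)) (h2 : vv v 2 = 1) (h3 : vv v 3 = 1)
    {r w : v.adicCompletion K} (hr : r ^ 3 = 2) (hw : w ^ 2 + w + 1 = 0) :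
    (ns (vv v) (Ed t)).index = 4 := by
  have hcz : CharZero (v.adicCompletion K) :=
    charZero_of_injective_algebraMap (algebraMap K (v.adicCompletion K)).injective
  have ht0 : t ≠ 0 := by
    rintro rfl
    rw [map_zero] at h5
    exact exp_ne_zero h5.symm
  have hne : NeZero t := ⟨ht0⟩
  have hr0 : r ≠ 0 := by
    rintro rfl
    norm_num at hr
  have h20 : (2 : v.adicCompletion K) ≠ 0 := two_ne_zero
  set x₀ : v.adicCompletion K := -(2 * r * t) with hx₀
  have hx₀0 : x₀ ≠ 0 := neg_ne_zero.2 (mul_ne_zero (mul_ne_zero h20 hr0) ht0)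
  have hx3 : x₀ ^ 3 = -(16 * t ^ 3) := by
    rw [hx₀]
    linear_combination (-8 * t ^ 3) * hr
  have hw3 : w ^ 3 = 1 := by linear_combination (w - 1) * hw
  have hT : ∀ i : ℕ, (0 : v.adicCompletion K) ^ 2 = (w ^ i * x₀) ^ 3 + 16 * t ^ 3 := by
    intro i
    have e : (w ^ i * x₀) ^ 3 = (w ^ 3) ^ i * x₀ ^ 3 := by ring
    rw [e, hw3, one_pow, hx3]
    ring
  have hw1 : w ≠ 1 := by
    rintro rfl
    have h33 : (3 : v.adicCompletion K) = 0 := by linear_combination hw
    exact three_ne_zero h33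
  have hw21 : w ^ 2 ≠ 1 := by
    intro h
    apply hw1
    linear_combination hw3 - w * h
  have hvw : vv v w = 1 := by
    have h6 := congrArg (vv v) hw3
    rw [map_pow, map_one] at h6
    exact (pow_eq_one_iff_of_nonneg zero_le three_ne_zero).1 h6
  have hvr : vv v r = 1 := by
    have h6 := congrArg (vv v) hr
    rw [map_pow, h2] at h6
    exact (pow_eq_one_iff_of_nonneg zero_le three_ne_zero).1 h6
  have hvx : ∀ i : ℕ, vv v (w ^ i * x₀) < 1 := by
    intro i
    rw [map_mul, map_pow, hvw, one_pow, one_mul, hx₀, Valuation.map_neg, map_mul, map_mul, h2, hvr,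
      h5, one_mul, one_mul, ← exp_zero, exp_lt_exp]
    norm_num
  -- the doubling
  set δ : (Ed t).toAffine.Point →+ (Ed t).toAffine.Point := nsmulAddMonoidHom 2 with hδ
  have hδ2 : ∀ P, δ P = P + P := fun P => two_nsmul P
  have hns : ns (vv v) (Ed t) = δ.range := by
    have hg : gens (vv v) (Ed t) = δ.range := by
      ext P
      rw [gens_eq h5 h2 h3 P, AddMonoidHom.coe_range, Set.mem_range]
      constructor
      · rintro ⟨Q, rfl⟩
        exact ⟨Q, hδ2 Q⟩
      · rintro ⟨Q, rfl⟩
        exact ⟨Q, hδ2 Q⟩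
    unfold ns
    rw [hg, AddSubgroup.closure_eq]
  have hbig : ∀ (x y : v.adicCompletion K) (hxy : y ^ 2 = x ^ 3 + 16 * t ^ 3), 1 ≤ vv v x →
      pt hxy ∈ δ.range := by
    intro x y hxy hx
    rw [← hns]
    apply AddSubgroup.subset_closure
    intro x' y' hn he
    have he' : pt hxy = pt (eqn_iff.1 hn.1) := he
    rw [pt_inj] at he'
    obtain ⟨rfl, rfl⟩ := he'
    right
    have e2' : 3 * x ^ 2 + 2 * (Ed t).a₂ * x + (Ed t).a₄ - (Ed t).a₁ * y = 3 * x ^ 2 := by
      show 3 * x ^ 2 + 2 * 0 * x + 0 - 0 * y = _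
      ring
    rw [e2', map_mul, map_pow, h3, one_mul]
    exact one_le_pow₀ hx
  have hsm : ∀ (x y : v.adicCompletion K) (hxy : y ^ 2 = x ^ 3 + 16 * t ^ 3), pt hxy ∈ δ.range →
      y = 0 → False := by
    intro x y hxy hm hy
    have h6 : pt hxy ∈ gens (vv v) (Ed t) := by
      rw [gens_eq h5 h2 h3]
      obtain ⟨Q, hQ⟩ := hm
      exact ⟨Q, by rw [← hQ, hδ2]⟩
    have h := h6 x y (ns_of hxy) rfl
    have e1 : 2 * y + (Ed t).a₁ * x + (Ed t).a₃ = 0 := by
      show 2 * y + 0 * x + 0 = _
      rw [hy]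
      ring
    have e2 : 3 * x ^ 2 + 2 * (Ed t).a₂ * x + (Ed t).a₄ - (Ed t).a₁ * y = 3 * x ^ 2 := by
      show 3 * x ^ 2 + 2 * 0 * x + 0 - 0 * y = _
      ring
    rw [e1, e2, map_zero, map_mul, map_pow, h3, one_mul] at h
    have hx3' : vv v x ^ 3 = exp (-3 : ℤ) := by
      have e : x ^ 3 = -(16 * t ^ 3) := by
        rw [hy] at hxy
        linear_combination -hxy
      rw [← map_pow, e, Valuation.map_neg, v16 h5 h2]
    rcases h with h | h
    · exact absurd h (not_le.2 zero_lt_one)
    · have h7 : 1 ≤ vv v x := by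
        by_contra hcon
        push Not at hcon
        exact absurd h (not_le.2 (pow_lt_one₀ zero_le hcon two_ne_zero))
      have h8 : 1 ≤ vv v x ^ 3 := one_le_pow₀ h7
      rw [hx3', ← exp_zero, exp_le_exp] at h8
      omega
  -- the kernel
  have hker : (δ.ker : Set (Ed t).toAffine.Point) =
      {0, pt (hT 0), pt (hT 1), pt (hT 2)} := by
    ext P
    simp only [SetLike.mem_coe, AddMonoidHom.mem_ker, Set.mem_insert_iff, Set.mem_singleton_iff,
      hδ2]
    constructor
    · intro hP
      rcases pt_cases P with rfl | ⟨x, y, hxy, rfl⟩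
      · exact Or.inl rfl
      · right
        have hy := (tors_iff h5 h2 hr hw hxy).1 hP
        have hx : (x - x₀) * ((x - w * x₀) * (x - w ^ 2 * x₀)) = 0 := by
          have e : (x - x₀) * ((x - w * x₀) * (x - w ^ 2 * x₀)) = x ^ 3 - x₀ ^ 3 := by
            linear_combination (-x₀ * x ^ 2 + x₀ ^ 2 * x * w - x₀ ^ 3 * (w - 1)) * hw
          rw [e, hx3]
          rw [hy] at hxy
          linear_combination -hxy
        rcases mul_eq_zero.1 hx with h | h
        · left
          rw [pt_inj]
          exact ⟨by rw [pow_zero, one_mul]; exact sub_eq_zero.1 h, hy⟩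
        · rcases mul_eq_zero.1 h with h | h
          · right; left
            rw [pt_inj]
            exact ⟨by rw [pow_one]; exact sub_eq_zero.1 h, hy⟩
          · right; right
            rw [pt_inj]
            exact ⟨sub_eq_zero.1 h, hy⟩
    · rintro (rfl | rfl | rfl | rfl)
      · exact add_zero 0
      all_goals exact (tors_iff h5 h2 hr hw _).2 rfl
  have hcard : Nat.card δ.ker = 4 := by
    have h6 : Nat.card δ.ker = Set.ncard (δ.ker : Set (Ed t).toAffine.Point) := rfl
    have n1 : pt (hT 1) ≠ pt (hT 2) := by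
      rw [Ne, pt_inj]
      rintro ⟨h, -⟩
      apply hw1
      have h7 := mul_right_cancel₀ hx₀0 h
      have hw0 : w ≠ 0 := by
        rintro rfl
        norm_num at hw3
      have h8 : w * (w - 1) = 0 := by linear_combination -h7
      exact sub_eq_zero.1 ((mul_eq_zero.1 h8).resolve_left hw0)
    have n2 : pt (hT 0) ≠ pt (hT 1) := by
      rw [Ne, pt_inj]
      rintro ⟨h, -⟩
      apply hw1
      have h7 := mul_right_cancel₀ hx₀0 h
      linear_combination -h7
    have n3 : pt (hT 0) ≠ pt (hT 2) := by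
      rw [Ne, pt_inj]
      rintro ⟨h, -⟩
      apply hw21
      have h7 := mul_right_cancel₀ hx₀0 h
      linear_combination -h7
    rw [h6, hker, Set.ncard_insert_of_notMem, Set.ncard_insert_of_notMem, Set.ncard_pair n1]
    · rw [Set.mem_insert_iff, Set.mem_singleton_iff]
      rintro (h | h)
      · exact n2 h
      · exact n3 h
    · rw [Set.mem_insert_iff, Set.mem_insert_iff, Set.mem_singleton_iff]
      rintro (h | h | h)
      · exact pt_ne _ h.symm
      · exact pt_ne _ h.symm
      · exact pt_ne _ h.symm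
  -- the index
  rw [hns, ← hcard]
  refine (Nat.card_congr (Equiv.ofBijective
    (fun T : δ.ker => (QuotientAddGroup.mk (T : (Ed t).toAffine.Point) :
      (Ed t).toAffine.Point ⧸ δ.range)) ⟨?_, ?_⟩)).symm
  · rintro ⟨S, hS⟩ ⟨T, hT'⟩ h
    have h6 : -S + T ∈ δ.range := QuotientAddGroup.eq.1 h
    have h7 : -S + T ∈ δ.ker := δ.ker.add_mem (δ.ker.neg_mem hS) hT'
    have h8 : -S + T = 0 := by
      rcases pt_cases (-S + T) with h0 | ⟨x, y, hxy, h0⟩
      · exact h0
      · exfalso
        rw [h0] at h6 h7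
        rw [AddMonoidHom.mem_ker, hδ2] at h7
        exact hsm x y hxy h6 ((tors_iff h5 h2 hr hw hxy).1 h7)
    apply Subtype.ext
    show S = T
    rw [neg_add_eq_zero] at h8
    exact h8
  · intro q
    obtain ⟨P, rfl⟩ := QuotientAddGroup.mk_surjective q
    rcases pt_cases P with rfl | ⟨x, y, hxy, rfl⟩
    · exact ⟨⟨0, δ.ker.zero_mem⟩, rfl⟩
    · by_cases hx : 1 ≤ vv v x
      · refine ⟨⟨0, δ.ker.zero_mem⟩, ?_⟩
        show (QuotientAddGroup.mk 0 : (Ed t).toAffine.Point ⧸ δ.range) = QuotientAddGroup.mk (pt hxy)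
        rw [QuotientAddGroup.eq, neg_zero, zero_add]
        exact hbig x y hxy hx
      · rw [not_le] at hx
        have h00 : (0 : v.adicCompletion K) ^ 2 = x₀ ^ 3 + 16 * t ^ 3 := by
          rw [hx3]
          ring
        obtain ⟨i, hi⟩ : ∃ i : ℕ, vv v (x - w ^ i * x₀) ≤ exp (-2 : ℤ) := by
          rcases small_root h5 h2 hw hxy hx h00 (by simpa using hvx 0) with h | h | h
          · exact ⟨0, by rw [pow_zero, one_mul]; exact h⟩
          · exact ⟨1, by rw [pow_one]; exact h⟩
          · exact ⟨2, h⟩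
        have hTk : pt (hT i) ∈ δ.ker := by
          rw [AddMonoidHom.mem_ker, hδ2]
          exact (tors_iff h5 h2 hr hw (hT i)).2 rfl
        refine ⟨⟨pt (hT i), hTk⟩, ?_⟩
        show (QuotientAddGroup.mk (pt (hT i)) : (Ed t).toAffine.Point ⧸ δ.range) =
          QuotientAddGroup.mk (pt hxy)
        rw [QuotientAddGroup.eq]
        have hneg : -pt (hT i) = pt (hT i) := by
          have h7 : pt (hT i) + pt (hT i) = 0 := (tors_iff h5 h2 hr hw (hT i)).2 rfl
          exact neg_eq_of_add_eq_zero_left h7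
        rw [hneg, add_comm]
        by_cases hc : x = w ^ i * x₀ ∧ y = -0
        · rw [add_zero_iff hxy (hT i) hc]
          exact δ.range.zero_mem
        · obtain ⟨l, x3, y3, hxy3, e1, e2, e3, e4, e5⟩ := add_pt hxy (hT i) hc
          rw [e5]
          apply hbig
          rw [e3]
          exact big_add h5 h2 h3 hxy hx (hT i) (hvx i) hi e2

end

end Pool.Agent.H98.W
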