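import Pool.Agent.H98.W.Tb

/-!
# The Tamagawa numbers of `y² = x³ + 16 d³`
-/

set_option autoImplicit false
set_option linter.unusedSectionVars false
set_option linter.unusedVariables false

open NumberField IsDedekindDomain WeierstrassCurve WithZero
open scoped Classical

namespace Pool.Agent.H98.W

open Pool.Agent.Y682 (vv vv_coe norm_le_iff)
open Pool.Agent.Y700 (VR)
open Pool.Agent.Y655.XT (vr_of_smul)
open Pool.Agent.K7.H73.L3 (gens ns Itg itg_of cc mf CE Cv Cv_min mineq mineq_eq mf_eq Δ_ne away no_cube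
  two_unit vv_three)
open Pool.Agent.K7.H73.T2
open Pool.Agent.K7.H70.TW (Ed Ed_eq Wtn)
open Pool.Agent.K7.H70.SM (NG)
open Pool.Agent.H98.R
open Pool.Agent.H98.Q

section hens
variable {K : Type} [Field K] [NumberField K] (w : HeightOneSpectrum (𝓞 K))

lemma vpow_sub {y x : w.adicCompletion K} (hy : vv w y ≤ 1) (hx : vv w x ≤ 1) :
    vv w (y ^ 2 - x ^ 2) ≤ vv w (y - x) ∧ vv w (y ^ 3 - x ^ 3) ≤ vv w (y - x) := by
  constructor
  · have e : y ^ 2 - x ^ 2 = (y + x) * (y - x) := by ring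
    rw [e, map_mul]
    exact mul_le_of_le_one_left' ((Valuation.map_add _ _ _).trans (max_le hy hx))
  · have e : y ^ 3 - x ^ 3 = (y ^ 2 + y * x + x ^ 2) * (y - x) := by ring
    rw [e, map_mul]
    refine mul_le_of_le_one_left' ((Valuation.map_add _ _ _).trans (max_le
      ((Valuation.map_add _ _ _).trans (max_le ?_ ?_)) ?_))
    · rw [map_pow]
      exact pow_le_one' hy 2
    · rw [map_mul]
      exact mul_le_one' hy hx
    · rw [map_pow]
      exact pow_le_one' hx 2

/-- the fixed point -/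
theorem exists_fix2 (a b z : w.adicCompletion K) (ha : vv w a ≤ vv w z) (hb : vv w b ≤ vv w z)
    (hz : vv w z < 1) : ∃ u : w.adicCompletion K, u = 1 + a * u ^ 2 + b * u ^ 3 := by
  let s : Set (w.adicCompletion K) := {y | ‖y‖ ≤ ‖(1 : w.adicCompletion K)‖}
  have hs : IsComplete s := (isClosed_le continuous_norm continuous_const).isComplete
  let T : w.adicCompletion K → w.adicCompletion K := fun u => 1 + a * u ^ 2 + b * u ^ 3
  have hmem : ∀ y, y ∈ s ↔ vv w y ≤ 1 := by
    intro y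
    change ‖y‖ ≤ ‖(1 : w.adicCompletion K)‖ ↔ _
    rw [norm_le_iff, map_one]
  have hT : ∀ y, vv w y ≤ 1 → vv w (T y - 1) ≤ vv w z := by
    intro y hy
    have e : T y - 1 = a * y ^ 2 + b * y ^ 3 := by
      simp only [T]
      ring
    rw [e]
    refine (Valuation.map_add _ _ _).trans (max_le ?_ ?_)
    · rw [map_mul, map_pow (vv w) y]
      exact (mul_le_of_le_one_right' (pow_le_one' hy 2)).trans ha
    · rw [map_mul, map_pow (vv w) y]
      exact (mul_le_of_le_one_right' (pow_le_one' hy 3)).trans hb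
  have hmaps : Set.MapsTo T s s := by
    intro y hy
    rw [hmem] at hy ⊢
    have e : T y = 1 + (T y - 1) := by ring
    rw [e]
    refine (Valuation.map_add _ _ _).trans (max_le ?_ ?_)
    · rw [map_one]
    · exact (hT y hy).trans hz.le
  have hcn : ‖z‖ < 1 := by
    rw [← norm_one (α := w.adicCompletion K), ← not_le, norm_le_iff, not_le, map_one]
    exact hz
  have hcon : ContractingWith ⟨‖z‖, norm_nonneg _⟩ (hmaps.restrict T s s) := by
    refine ⟨by exact_mod_cast hcn, ?_⟩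
    apply LipschitzWith.of_dist_le_mul
    rintro ⟨y, hy⟩ ⟨x, hx⟩
    change dist (T y) (T x) ≤ ‖z‖ * dist y x
    rw [hmem] at hy hx
    rw [dist_eq_norm, dist_eq_norm, ← norm_mul, norm_le_iff, map_mul]
    have h3 : T y - T x = a * (y ^ 2 - x ^ 2) + b * (y ^ 3 - x ^ 3) := by
      simp only [T]
      ring
    rw [h3]
    refine (Valuation.map_add _ _ _).trans (max_le ?_ ?_)
    · rw [map_mul]
      exact mul_le_mul' ha (vpow_sub w hy hx).1
    · rw [map_mul]
      exact mul_le_mul' hb (vpow_sub w hy hx).2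
  have h1s : (1 : w.adicCompletion K) ∈ s := le_refl ‖(1 : w.adicCompletion K)‖
  obtain ⟨u, hus, hu, -⟩ := hcon.exists_fixedPoint' hs hmaps h1s (edist_ne_top _ _)
  have h2 : T u = u := hu
  exact ⟨u, h2.symm⟩

/-- a simple root of a cubic polynomial -/
theorem hensel_cubic {g₀ g₁ g₂ g₃ : w.adicCompletion K} (h0 : vv w g₀ < 1) (h1 : vv w g₁ = 1)
    (h2 : vv w g₂ ≤ 1) (h3 : vv w g₃ ≤ 1) :
    ∃ x : w.adicCompletion K, g₀ + g₁ * x + g₂ * x ^ 2 + g₃ * x ^ 3 = 0 := by
  have hg1 : g₁ ≠ 0 := by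
    rintro rfl
    rw [map_zero] at h1
    exact zero_ne_one h1
  obtain ⟨u, hu⟩ := exists_fix2 w (g₂ * g₀ / g₁ ^ 2) (-(g₃ * g₀ ^ 2 / g₁ ^ 3)) g₀ (by
      rw [map_div₀, map_mul, map_pow, h1, one_pow, div_one]
      exact mul_le_of_le_one_left' h2) (by
      rw [Valuation.map_neg, map_div₀, map_mul, map_pow, map_pow, h1, one_pow, div_one, pow_two,
        ← mul_assoc]
      exact mul_le_of_le_one_left' (mul_le_one' h3 h0.le)) h0
  refine ⟨-(g₀ / g₁) * u, ?_⟩
  have e : g₀ + g₁ * (-(g₀ / g₁) * u) + g₂ * (-(g₀ / g₁) * u) ^ 2 + g₃ * (-(g₀ / g₁) * u) ^ 3 =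
      g₀ * ((1 + (g₂ * g₀ / g₁ ^ 2) * u ^ 2 + -(g₃ * g₀ ^ 2 / g₁ ^ 3) * u ^ 3) - u) := by
    field_simp
    ring
  rw [e, ← hu, sub_self, mul_zero]

/-- a cube root of two -/
lemma exists_cbrt (h2 : vv w 2 = 1) (h3 : vv w 3 = 1) {x0 : 𝓞 K} (hx0 : x0 ^ 3 - 2 ∈ w.asIdeal) :
    ∃ r : w.adicCompletion K, r ^ 3 = 2 := by
  obtain ⟨X, hX⟩ : ∃ X : w.adicCompletion K, X = algebraMap K (w.adicCompletion K) (x0 : K) := ⟨_, rfl⟩
  have hs : vv w (X ^ 3 - 2) < 1 := by
    have e0 : ((x0 ^ 3 - 2 : 𝓞 K) : K) = (x0 : K) ^ 3 - 2 := by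
      show algebraMap (𝓞 K) K (x0 ^ 3 - 2) = _
      rw [map_sub, map_pow, map_ofNat]
    have e : X ^ 3 - 2 = algebraMap K (w.adicCompletion K) ((x0 ^ 3 - 2 : 𝓞 K) : K) := by
      rw [hX, e0, map_sub, map_pow, map_ofNat]
    rw [e, vv_coe]
    exact (HeightOneSpectrum.valuation_lt_one_iff_mem (K := K) w _).2 hx0
  have hX1 : vv w X ≤ 1 := by
    rw [hX, vv_coe]
    exact w.valuation_le_one _
  have hX1' : vv w X = 1 := by
    have h6 : vv w (X ^ 3) = 1 := by
      have e : X ^ 3 = 2 + (X ^ 3 - 2) := by ring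
      rw [e, Valuation.map_add_eq_of_lt_left (vv w) (by rw [h2]; exact hs), h2]
    rw [map_pow] at h6
    exact (pow_eq_one_iff_of_nonneg zero_le three_ne_zero).1 h6
  obtain ⟨y, hy⟩ := hensel_cubic w (g₀ := X ^ 3 - 2) (g₁ := 3 * X ^ 2) (g₂ := 3 * X) (g₃ := 1) hs
    (by rw [map_mul, map_pow, h3, hX1', one_pow, mul_one]) (by rw [map_mul, h3, one_mul]; exact hX1)
    (by rw [map_one])
  exact ⟨X + y, by linear_combination hy⟩

end hens

section min
variable {K : Type} [Field K] [NumberField K] {v : HeightOneSpectrum (𝓞 K)}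

/-- **minimal equations and equations with a small discriminant** -/
theorem minimal_u12 {V W : WeierstrassCurve (v.adicCompletion K)}
    {C : VariableChange (v.adicCompletion K)} (hC : C • V = W)
    (hVI : WeierstrassCurve.IsIntegral (v.adicCompletionIntegers K) V)
    (hVΔ : exp (-12 : ℤ) < Valued.v V.Δ)
    (hm : WeierstrassCurve.IsMinimal (v.adicCompletionIntegers K) W) :
    Valued.v (C.u : v.adicCompletion K) = 1 := by
  set R := v.adicCompletionIntegers K with hR
  have h1 := hm.val_Δ_maximal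
  have e1 : C⁻¹ • W = V := by rw [← hC, inv_smul_smul]
  have hint : WeierstrassCurve.IsIntegral R (C⁻¹ • W) := by rw [e1]; exact hVI
  have hWI : WeierstrassCurve.IsIntegral R W := inferInstance
  have v1 : ((WeierstrassCurve.valuation_Δ_aux R W).1 : WithZero (Multiplicative ℤ)) =
      IsDedekindDomain.HeightOneSpectrum.valuation (v.adicCompletion K)
        (IsDiscreteValuationRing.maximalIdeal R) W.Δ :=
    WeierstrassCurve.valuation_Δ_aux_eq_of_isIntegral R _
  have v2 : ((WeierstrassCurve.valuation_Δ_aux R V).1 :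
      WithZero (Multiplicative ℤ)) = IsDedekindDomain.HeightOneSpectrum.valuation
        (v.adicCompletion K) (IsDiscreteValuationRing.maximalIdeal R) V.Δ :=
    WeierstrassCurve.valuation_Δ_aux_eq_of_isIntegral R _
  have h2 := h1.2 (j := C⁻¹) hint
  simp only [one_smul, e1] at h2
  have h3 : WeierstrassCurve.valuation_Δ_aux R V ≤ WeierstrassCurve.valuation_Δ_aux R W := by
    rcases le_total (WeierstrassCurve.valuation_Δ_aux R W)
      (WeierstrassCurve.valuation_Δ_aux R V) with h | h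
    · exact h2 h
    · exact h
  have h5 : (Valued.v V.Δ : ℤᵐ⁰) ≤ Valued.v W.Δ := by
    rw [← Subtype.coe_le_coe, v2, v1, Pool.Agent.Y688.val_all, Pool.Agent.Y688.val_all] at h3
    exact h3
  have hWv : (Valued.v W.Δ : ℤᵐ⁰) ≤ 1 := by
    obtain ⟨d, hd⟩ := WeierstrassCurve.Δ_integral_of_isIntegral R W
    rw [← hd]
    exact d.2
  have hVW := vr_of_smul hC
  have h6 := congrArg (Valued.v : Valuation (v.adicCompletion K) ℤᵐ⁰) hVW.delta
  rw [map_mul, map_pow] at h6
  have hV0 : (Valued.v V.Δ : ℤᵐ⁰) ≠ 0 := (lt_of_le_of_lt zero_le hVΔ).ne'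
  have hW0 : (Valued.v W.Δ : ℤᵐ⁰) ≠ 0 := by
    intro h0
    rw [h0, mul_zero] at h6
    exact hV0 h6
  have hu0 : (Valued.v (C.u : v.adicCompletion K) : ℤᵐ⁰) ≠ 0 :=
    (Valuation.ne_zero_iff _).2 C.u.ne_zero
  obtain ⟨a, ha⟩ := Pool.Agent.Y696.exp_rep hu0
  obtain ⟨b, hb⟩ := Pool.Agent.Y696.exp_rep hW0
  obtain ⟨c, hc⟩ := Pool.Agent.Y696.exp_rep hV0
  rw [ha, hb, hc, ← exp_nsmul, ← exp_add, exp_inj] at h6
  rw [hc, exp_lt_exp] at hVΔ
  rw [hc, hb, exp_le_exp] at h5
  rw [hb, ← exp_zero, exp_le_exp] at hWv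
  rw [ha, ← exp_zero, exp_inj]
  simp only [nsmul_eq_mul] at h6
  push_cast at h6
  omega

end min

section p
variable {K : Type} [Field K] [NumberField K] {d : ℤ}

/-- **the Tamagawa number at the prime `d`** -/
theorem cc_d (hd : Dd d) (hp : Pd d K) {ω : K} (hω : ω ^ 2 + ω + 1 = 0) {W : WeierstrassCurve K}
    {C : VariableChange K} (hW : W = C • Ed (d : K)) : cc W (pd hd hp) = 4 := by
  set v := pd hd hp with hv
  have hcz : CharZero (v.adicCompletion K) :=
    charZero_of_injective_algebraMap (algebraMap K (v.adicCompletion K)).injective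
  have h2 : vv v 2 = 1 := by
    have e : (2 : v.adicCompletion K) = algebraMap K (v.adicCompletion K) 2 := by rw [map_ofNat]
    rw [e, vv_coe]
    exact vd_two hd hp
  have h3 : vv v 3 = 1 := by
    have e : (3 : v.adicCompletion K) = algebraMap K (v.adicCompletion K) 3 := by rw [map_ofNat]
    rw [e, vv_coe]
    exact vd_three hd hp
  obtain ⟨t, ht⟩ : ∃ t : v.adicCompletion K, t = algebraMap K (v.adicCompletion K) (d : K) := ⟨_, rfl⟩
  have h5 : vv v t = exp (-1 : ℤ) := by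
    rw [ht, vv_coe]
    exact vd_d hd hp
  have hE : (Ed (d : K)).baseChange (v.adicCompletion K) = Ed t := by
    show (Ed (d : K)).map (algebraMap K (v.adicCompletion K)) = _
    unfold Ed WeierstrassCurve.map
    simp only [map_zero, map_pow, map_mul, map_ofNat, ht]
  obtain ⟨x0, hx0⟩ := bad_pd hd hp
  obtain ⟨r, hr⟩ := exists_cbrt v h2 h3 hx0
  have hw : (algebraMap K (v.adicCompletion K) ω) ^ 2 + algebraMap K (v.adicCompletion K) ω + 1 = 0 := by
    rw [← map_pow, ← map_add, ← map_one (algebraMap K (v.adicCompletion K)), ← map_add, hω, map_zero]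
  have h4 := idx_four h5 h2 h3 hr hw
  have ht0 : t ≠ 0 := by
    rintro rfl
    rw [map_zero] at h5
    exact exp_ne_zero h5.symm
  have hne : NeZero t := ⟨ht0⟩
  obtain ⟨C1, hC1⟩ : ∃ C1 : VariableChange (v.adicCompletion K),
    C1 = Cv W v * C.map (algebraMap K (v.adicCompletion K)) := ⟨_, rfl⟩
  have hC : C1 • Ed t = mineq W v := by
    rw [hC1, mul_smul, ← hE, ← bc_smul, mineq_eq, hW]
  have hΔ : (Ed t).Δ = -(2 ^ 12 * 3 ^ 3 * t ^ 6) := by
    simp [WeierstrassCurve.Δ, WeierstrassCurve.b₂, WeierstrassCurve.b₄, WeierstrassCurve.b₆,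
      WeierstrassCurve.b₈]
    ring
  have hvΔ : vv v (Ed t).Δ = exp (-6 : ℤ) := by
    rw [hΔ, Valuation.map_neg, map_mul, map_mul, map_pow, map_pow, map_pow, h2, h3, h5, one_pow,
      one_pow, one_mul, one_mul, ← exp_nsmul]
    rfl
  have hI : WeierstrassCurve.IsIntegral (v.adicCompletionIntegers K) (Ed t) := by
    refine ⟨⟨⟨0, 0, 0, 0, ⟨16 * t ^ 3, ?_⟩⟩, ?_⟩⟩
    · show vv v (16 * t ^ 3) ≤ 1
      rw [v16 h5 h2, ← exp_zero, exp_le_exp]
      norm_num
    · unfold Ed
      simp only [WeierstrassCurve.baseChange, WeierstrassCurve.map, map_zero]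
      rfl
  have hu := minimal_u12 hC hI (by
    rw [show (Valued.v (Ed t).Δ : ℤᵐ⁰) = exp (-6 : ℤ) from hvΔ, exp_lt_exp]
    norm_num) (min_mineq _ v)
  have hVW := vr_of_smul hC
  have hitg : Itg (vv v) (mineq W v) := by
    have h9 := min_mineq W v
    exact itg_of v inferInstance
  have hs : vv v C1.s ≤ 1 := by
    have h4 := hVW.e1
    have h5 : (Ed t).a₁ = 0 := rfl
    rw [h5, zero_add] at h4
    have h6 := congrArg (vv v) h4
    rw [map_mul, map_mul, h2, one_mul, show vv v _ = 1 from hu, one_mul] at h6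
    rw [← h6]
    exact hitg.a1
  have hD : (mineq W v).Δ ≠ 0 := by
    intro h0
    apply Et_Δ (t := t)
    rw [hVW.delta, h0, mul_zero]
  unfold cc
  rw [ns_index hVW hD hu hs]
  exact h4

end p

end Pool.Agent.H98.W
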