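import Pool.Agent.H98.W.St
import Pool.Agent.H98.Q.Tow2

/-!
# The leading coefficients along the tower
-/

set_option autoImplicit false
set_option linter.unusedSectionVars false
set_option linter.unusedVariables false

open Complex NumberField IsDedekindDomain Filter Topology
open scoped PeriodPair nonZeroDivisors

namespace Pool.Agent.H98.W

open Pool.Agent.K7.H56
open Pool.Agent.K7.H56.P
open Pool.Agent.R430
open Pool.Agent.Y696 Pool.Agent.W192.HK Pool.Agent.TH936.CM H667R3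
open Pool.Agent.TH936.PU
open Pool.Agent.Y688 (NI HL euler v_sub_one v_root v_RR dn dn_surj)
open Pool.Agent.K7.H70.AS
open Pool.Agent.K7.H70.SM
open Pool.Agent.K7.H56.M
open Pool.Agent.K7.H73.L3 (gz3 base_om3)
open Pool.Agent.H98.B
open Pool.Agent.H98.Q

/-- the leading coefficient over the base field -/
def BaseLead (d : ℤ) (m : ℕ) (c : ℂ) : Prop :=
  c ≠ 0 ∧ ∀ (F D : Type) [Field F] [NumberField F] [IsCyclotomicExtension {3} ℚ F] [Field D]
    [NumberField D] [Algebra F D] (ι : Pool.Agent.Y688.RR →+* 𝓞 F), Module.finrank F D = 2 →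
    (∃ r : D, r ^ 2 = d) → ∀ f f0 : ℂ → ℂ, VV ((algebraMap (𝓞 F) (𝓞 D)).comp ι) (X0 1) f →
      VV ι (X0 1) f0 → LC f m (f0 1 * c)

lemma BaseLead.ord {d : ℤ} {m : ℕ} {c : ℂ} (h : BaseLead d m c) : BaseOrd d m := by
  intro F D _ _ _ _ _ _ ι h2 hr f hf
  obtain ⟨f0, hf0⟩ := exists_VV ι (d := 1) (Pool.Agent.K7.H73.L3.fr3 F) (gz3 F).two
  exact (h.2 F D ι h2 hr f f0 hf hf0).order

/-- **The leading coefficients along the tower.** -/
theorem tow_lc {d : ℤ} (hd : Dd d) {m0 : ℕ} (hm0 : 1 ≤ m0) {c : ℂ} (hB : BaseLead d m0 c)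
    {F K : Type} [Field F] [NumberField F] [IsCyclotomicExtension {3} ℚ F]
    [Field K] [NumberField K] [Algebra F K] [IsGalois F K] (ι : Pool.Agent.Y688.RR →+* 𝓞 F) {r : ℕ}
    (hr : Module.finrank F K = 2 ^ r) (hU : Unr2 K) (hG : Gd F K) (n : ℕ) :
    ∀ (T : Type) [Field T] [NumberField T] [Algebra F T], (T →ₐ[F] K) →
      Module.finrank F T = 2 ^ n → Pd d T → ∀ (D : Type) [Field D] [NumberField D] [Algebra T D],
      Module.finrank T D = 2 → (∃ ρ : D, ρ ^ 2 = d) → ∀ g fT : ℂ → ℂ,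
      VV ((algebraMap (𝓞 T) (𝓞 D)).comp ((algebraMap (𝓞 F) (𝓞 T)).comp ι)) (X0 1) g →
      VV ((algebraMap (𝓞 F) (𝓞 T)).comp ι) (X0 1) fT →
        ∃ cT : ℂ, LC g m0 (fT 1 * cT) ∧ ∀ (L : PeriodPair) (Ω : ℂ), Cur L Ω → ∀ (Γ : Type)
          [LinearOrderedCommGroupWithZero Γ] (v : Valuation ℂ Γ), v 2 < 1 →
          v cT = v c * v 2 ^ n * v Ω ^ (2 ^ n - 1) := by
  induction n with
  | zero =>
    intro T _ _ _ φ h1 _ D _ _ _ hD hρ g fT hg hfT
    have := cyc_one (F := F) (T := T) h1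
    exact ⟨c, hB.2 T D _ hD hρ g fT hg hfT, fun L Ω hL Γ _ v hv => by
      rw [pow_zero, mul_one, pow_zero, Nat.sub_self, pow_zero, mul_one]⟩
  | succ m ih =>
    intro T _ _ _ φ h1 hT D _ _ _ hD ⟨ρ, hρ⟩ g fT hg hfT
    obtain ⟨N, h2, h3⟩ := exists_mid (K := K) h1 hr φ
    let _ : Algebra T K := φ.toRingHom.toAlgebra
    have hFTK : IsScalarTower F T K :=
      IsScalarTower.of_algebraMap_eq fun x => (φ.commutes x).symm
    have hGT : Gd F T := gd_bot (K := K) hG
    have hUT : Unr2 T := unr2_down (F := T) (K := K) hU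
    let _ : Algebra N K := (φ.comp N.val).toRingHom.toAlgebra
    have hFNK : IsScalarTower F N K :=
      IsScalarTower.of_algebraMap_eq fun x => ((φ.comp N.val).commutes x).symm
    have hNC : NC F N := nc_of_tower (K := K) hr
    have hGN : Gd N T := gd_top (F := F) hNC hGT
    have hUN : Unr2 N := unr2_down (F := N) (K := K) hU
    have hgal : IsGalois N T := gal2' h3
    have hN5 : Pd d N := d_down (N := N) hd hT
    have hgalM : IsGalois N D := d_gal (E := T) hd hT hD hρ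
    have hc := d_comm (N := N) (E := T) (M := D) h3 hd hT hD hρ
    set B := IntermediateField.adjoin N {ρ} with hBdef
    have hρB : ρ ∈ B := IntermediateField.mem_adjoin_simple_self N ρ
    have h2B : Module.finrank N B = 2 := by
      have hirr : Irreducible (Polynomial.X ^ 2 - Polynomial.C (d : N)) := by
        rw [X_pow_sub_C_irreducible_iff_of_prime Nat.prime_two]
        exact fun b => d_ns hd hN5 b
      have hmin : minpoly N ρ = Polynomial.X ^ 2 - Polynomial.C (d : N) := by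
        refine (minpoly.eq_of_irreducible_of_monic hirr ?_ (Polynomial.monic_X_pow_sub_C _ two_ne_zero)).symm
        rw [map_sub, map_pow, Polynomial.aeval_X, Polynomial.aeval_C, map_intCast, hρ, sub_self]
      have hint : IsIntegral N ρ := Algebra.IsIntegral.isIntegral ρ
      have h3 := IntermediateField.adjoin.finrank hint
      rw [hmin, Polynomial.natDegree_X_pow_sub_C] at h3
      exact h3
    set ρB : B := ⟨ρ, hρB⟩ with hρBd
    have hρB2 : ρB ^ 2 = d := Subtype.ext (by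
      show ρ ^ 2 = algebraMap B D d
      rw [map_intCast, hρ])
    -- the functions
    set ιN := (algebraMap (𝓞 F) (𝓞 N)).comp ι with hιN
    obtain ⟨aN, haN⟩ := exists_rt ιN
    obtain ⟨aT, haT⟩ := exists_rt ((algebraMap (𝓞 N) (𝓞 T)).comp ιN)
    obtain ⟨dN, hdN, hBN⟩ := base_om3 (F := F) hr hU hG haN ιN
    obtain ⟨dT, hdT, hBT⟩ := base_om3 (F := F) hr hU hG haT ((algebraMap (𝓞 N) (𝓞 T)).comp ιN)
    obtain ⟨f, hf⟩ := exists_VV ιN hdN hUN
    have hgTD : IsGalois T D := gal2' hD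
    have hUD : Unr2 D := unr2_d hd hT hD hρ hUT
    have hgB : IsGalois N B := gal2' h2B
    have hUB : Unr2 B := unr2_d hd hN5 h2B hρB2 hUN
    obtain ⟨fB, hfB⟩ := exists_VV ((algebraMap (𝓞 N) (𝓞 B)).comp ιN) (d := 2 * dN) (by
      rw [← Module.finrank_mul_finrank ℚ N B, hdN, h2B]
      ring) hUB
    obtain ⟨cN, hcN, hcNv⟩ := ih N (φ.comp N.val) h2 hN5 B h2B ⟨ρB, hρB2⟩ fB f hfB hf
    have hdN2 : dN = 2 ^ m := by
      have e1 : Module.finrank ℚ F = 2 * 1 := Pool.Agent.K7.H73.L3.fr3 F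
      have e2 := Module.finrank_mul_finrank ℚ F N
      rw [e1, h2, hdN] at e2
      omega
    have hdT2 : dT = 2 * dN := by
      have e2 := Module.finrank_mul_finrank ℚ N T
      rw [h3, hdN, hdT] at e2
      omega
    have hfT1 : fT 1 ≠ 0 := ne_of_base hBT hfT
    have og : analyticOrderAt g 1 = m0 :=
      tow hd hm0 hB.ord ι hr hU hG (m + 1) T φ h1 hT D hD ⟨ρ, hρ⟩ g hg
    have hcomp : (algebraMap (𝓞 T) (𝓞 D)).comp ((algebraMap (𝓞 F) (𝓞 T)).comp ι) =
        (algebraMap (𝓞 N) (𝓞 D)).comp ιN := by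
      have e1 : (algebraMap (𝓞 F) (𝓞 T)) = (algebraMap (𝓞 N) (𝓞 T)).comp (algebraMap (𝓞 F) (𝓞 N)) :=
        rfl
      have e2 : (algebraMap (𝓞 N) (𝓞 D)) = (algebraMap (𝓞 T) (𝓞 D)).comp (algebraMap (𝓞 N) (𝓞 T)) :=
        rfl
      rw [e1, e2, hιN]
      rfl
    obtain ⟨c', hc'⟩ := lc_of_order hg.an og
    refine ⟨c' / fT 1, ?_, ?_⟩
    · rw [mul_div_cancel₀ _ hfT1]
      exact hc'
    intro L Ω hC Γ _ v hv
    have hL := HL_of_Cur hC
    obtain ⟨x0, hx0⟩ := bad_pd hd hN5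
    have hfv := hBN f hf _ _ hC _ v hv
    have hfTv : v (fT 1) = v Ω ^ (2 * dN) := by
      rw [← hdT2]
      exact hBT fT hfT _ _ hC _ v hv
    have hst2 := step_lc (N := N) (E := T) (D := B) (M := D) hdN hUD h3 h2B hD hc
      (fun σ h5 h6 => d_hgen hd hT hD hρ h5 (h6 ρB)) (p := pd hd hN5) (three_pd hd hN5) (x0 := x0)
      hx0 (d_ram hd hN5 h2B hρB2) ?_ ?_ ?_ hf hfT hfB (by rw [← hcomp]; exact hg) hL hv
      hfv hfTv hm0 hcN hc'
    · rw [map_div₀, hst2, hfTv, map_mul, hfv, hcNv L Ω hC Γ v hv]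
      have hΩ : v Ω ≠ 0 := (Valuation.ne_zero_iff v).2 hL.ne
      rw [mul_div_assoc, div_self (pow_ne_zero _ hΩ), mul_one]
      have e : v Ω ^ (2 ^ (m + 1) - 1) = v Ω ^ dN * v Ω ^ (2 ^ m - 1) := by
        rw [← pow_add, hdN2]
        congr 1
        have : 1 ≤ 2 ^ m := Nat.one_le_two_pow
        omega
      rw [e, pow_succ]
      simp only [mul_assoc, mul_comm, mul_left_comm]
    · intro w w' hw hw'
      have h5 : ∀ w : HeightOneSpectrum (𝓞 T), w.asIdeal.under (𝓞 N) = (pd hd hN5).asIdeal →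
          (d : 𝓞 T) ∈ w.asIdeal := by
        intro w hw
        have h6 : (d : 𝓞 N) ∈ w.asIdeal.under (𝓞 N) := by
          rw [hw]
          exact (mem_pd hd hN5).2 dvd_rfl
        have h7 : algebraMap (𝓞 N) (𝓞 T) d ∈ w.asIdeal := h6
        rwa [map_intCast] at h7
      rw [pd_uniq hd hT (h5 w hw), pd_uniq hd hT (h5 w' hw')]
    · intro w σ hw hσ
      have h6 : (d : 𝓞 N) ∈ w.asIdeal.under (𝓞 N) := by
        rw [hw]
        exact (mem_pd hd hN5).2 dvd_rfl
      have h7 : algebraMap (𝓞 N) (𝓞 T) d ∈ w.asIdeal := h6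
      rw [map_intCast] at h7
      exact pd_unr hd hT h7 hσ
    · intro w ⟨σ, hσ, hin⟩ hPp h3P x
      -- the restriction to `B` is trivial
      have h5w : (d : 𝓞 D) ∉ w.asIdeal := by
        intro h5
        apply hPp
        apply pd_uniq hd hN5
        show algebraMap (𝓞 N) (𝓞 D) d ∈ w.asIdeal
        rwa [map_intCast]
      have h5wB : (d : 𝓞 B) ∉ (dn B w).asIdeal := by
        intro h5
        apply h5w
        have h6 : algebraMap (𝓞 B) (𝓞 D) d ∈ w.asIdeal := h5
        rwa [map_intCast] at h6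
      have hresB : (AlgEquiv.restrictNormalHom B σ : Gal(B/N)) = 1 := by
        refine d_away hd hN5 h2B hρB2 h5wB fun y => ?_
        show _ ∈ w.asIdeal.under (𝓞 B)
        rw [Ideal.under_def, Ideal.mem_comap, map_sub, restr_smul]
        exact hin _
      have hresT : (AlgEquiv.restrictNormalHom T σ : Gal(T/N)) ≠ 1 := by
        intro h1
        apply hσ
        refine d_hgen hd hT hD hρ ?_ ((fx_iff σ).1 hresB ρB)
        intro x
        exact (fx_iff σ).1 h1 x
      have hRT : Rm N (dn T w) := ⟨_, hresT, fun y => by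
        show _ ∈ w.asIdeal.under (𝓞 T)
        rw [Ideal.under_def, Ideal.mem_comap, map_sub, restr_smul]
        exact hin _⟩
      have hdn : dn N (dn T w) = dn N w := by
        apply HeightOneSpectrum.ext
        show (w.asIdeal.under (𝓞 T)).under (𝓞 N) = w.asIdeal.under (𝓞 N)
        rw [Ideal.under_under]
      rw [← hdn] at h3P ⊢
      exact gd_rm hGN hRT h3P x

end Pool.Agent.H98.W
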